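import Pool.Agent.K1H48.SO.Gc

/-!
# Geometric weights: second differences of the joint law of the size and of a functional
-/

set_option autoImplicit false

namespace Pool.Agent.K1H48.SO

open Finset TH966.AK Pool.Agent.R131.LS
open scoped Classical

variable {α σ : Type} {Y : Sys α σ} {x : ℝ} {N : ℕ}

set_option maxHeartbeats 1000000 in
/-- **second differences of the joint law of the size and a functional** -/
theorem gcF_second (H : Good Y x N) {κ η : ℝ} (hκ : 0 < κ) (hη : 0 ≤ η) (F : α → ℝ) (g : ℕ → ℝ)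
    (hF : ∀ m, ∀ w ∈ Y.K m, 0 ≤ F w ∧ F w ≤ 1) (hg : ∀ m, 0 ≤ g m ∧ g m ≤ 1)
    (hFη : ∀ m, ∀ w ∈ Y.K m, ∀ q ∈ Y.S w, |F (Y.ins w q) - F w| ≤ η) :
    |Ex Y x N (fun m w => F w * g m) - 2 * Ex Y x N (fun m w => F w * g (m + Y.s)) +
      Ex Y x N (fun m w => F w * g (m + Y.s + Y.s))| ≤
      (4 + 2 * Y.C / κ) * Ex Y x N (bd Y κ) +
      (Y.C * (Y.C + κ * Y.s) / κ ^ 2 + 2 * Y.C ^ 2 * (1 + Y.s) / κ ^ 2 +
        Y.C * (2 * Y.C / κ ^ 2 + 2 * Y.C * (Y.C + κ * Y.s) / κ ^ 3)) *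
        Ex Y x N (fun m _ => 1 / ((m : ℝ) + 1)) +
      (Y.C / κ + Y.C ^ 2 / κ ^ 2) * η * Ex Y x N (fun _ _ => 1) := by
  have hx0 := H.x0
  have hC : (0 : ℝ) ≤ Y.C := Nat.cast_nonneg _
  have hs : (0 : ℝ) ≤ Y.s := Nat.cast_nonneg _
  have hp0 : 0 ≤ x ^ Y.s := by positivity
  have hp1 : x ^ Y.s ≤ 1 := pow_le_one₀ hx0.le H.x1
  obtain ⟨β, hβ⟩ : ∃ β : ℝ, β = Ex Y x N (bd Y κ) := ⟨_, rfl⟩
  obtain ⟨I, hI⟩ : ∃ I : ℝ, I = Ex Y x N (fun m _ => 1 / ((m : ℝ) + 1)) := ⟨_, rfl⟩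
  obtain ⟨Z, hZ⟩ : ∃ Z : ℝ, Z = Ex Y x N (fun _ _ => 1) := ⟨_, rfl⟩
  obtain ⟨ee, hee⟩ : ∃ ee : ℕ → α → ℝ, ee = fun m w => x ^ Y.s * ∑ q ∈ Y.S w,
    (ph Y κ (m + Y.s) (Y.ins w q) * F (Y.ins w q) - ph Y κ m w * F w) := ⟨_, rfl⟩
  obtain ⟨rr, hrr⟩ : ∃ rr : ℕ → α → ℝ, rr = fun m w => x ^ Y.s * ∑ q ∈ Y.S w,
    (ph Y κ (m + Y.s) (Y.ins w q) * uu Y x κ (m + Y.s) (Y.ins w q) * F (Y.ins w q) -
      ph Y κ m w * uu Y x κ m w * F w) := ⟨_, rfl⟩
  -- sizes of the error functions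
  have heb : ∀ m, ∀ w ∈ Y.K m, |ee m w| ≤
      Y.C * (Y.C + κ * Y.s) / κ ^ 2 * (1 / ((m : ℝ) + 1)) + Y.C / κ * η * 1 := by
    intro m w hw
    have ha0 : 0 < (m : ℝ) + 1 := by positivity
    rw [hee]
    simp only
    rw [abs_mul, abs_of_nonneg hp0]
    have h1 : |∑ q ∈ Y.S w, (ph Y κ (m + Y.s) (Y.ins w q) * F (Y.ins w q) - ph Y κ m w * F w)| ≤
        Y.C * (Y.C + κ * Y.s) / κ ^ 2 * (1 / ((m : ℝ) + 1)) + Y.C / κ * η * 1 := by
      have h2 : ∀ q ∈ Y.S w, |ph Y κ (m + Y.s) (Y.ins w q) * F (Y.ins w q) - ph Y κ m w * F w| ≤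
          (Y.C + κ * Y.s) / (κ ^ 2 * ((m : ℝ) + 1) ^ 2) + η / (κ * ((m : ℝ) + 1)) := by
        intro q hq
        have e : ph Y κ (m + Y.s) (Y.ins w q) * F (Y.ins w q) - ph Y κ m w * F w =
            (ph Y κ (m + Y.s) (Y.ins w q) - ph Y κ m w) * F (Y.ins w q) +
            ph Y κ m w * (F (Y.ins w q) - F w) := by ring
        rw [e]
        refine (abs_add_le _ _).trans ?_
        rw [abs_mul, abs_mul]
        obtain ⟨h3, h4⟩ := hF _ _ (Y.ins_K m w q hw hq)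
        have h7 := ph_ins (Y := Y) hκ hw hq
        have h8 := hFη m w hw q hq
        have h9 := ph_pos (Y := Y) hκ m w
        have h10 := ph_le (Y := Y) hκ m w
        refine add_le_add ?_ ?_
        · calc _ ≤ (Y.C + κ * Y.s) / (κ ^ 2 * ((m : ℝ) + 1) ^ 2) * 1 := by
                refine mul_le_mul h7 ?_ (abs_nonneg _) (by positivity)
                rw [abs_of_nonneg h3]
                exact h4
            _ = _ := mul_one _
        · rw [abs_of_pos h9]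
          calc ph Y κ m w * |F (Y.ins w q) - F w| ≤ 1 / (κ * ((m : ℝ) + 1)) * η :=
                mul_le_mul h10 h8 (abs_nonneg _) (by positivity)
            _ = _ := by ring
      refine (abs_sum_le_sum_abs _ _).trans ((sum_le_card_nsmul _ _ _ h2).trans ?_)
      rw [nsmul_eq_mul]
      have h3 : ((Y.S w).card : ℝ) ≤ Y.C * (m + 1) := by exact_mod_cast Y.S_le m w hw
      refine (mul_le_mul_of_nonneg_right h3 (by positivity)).trans (le_of_eq ?_)
      field_simp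
    exact (mul_le_of_le_one_left (abs_nonneg _) hp1).trans h1
  have hrb : ∀ m, ∀ w ∈ Y.K m, |rr m w| ≤
      Y.C * (2 * Y.C / κ ^ 2 + 2 * Y.C * (Y.C + κ * Y.s) / κ ^ 3) * (1 / ((m : ℝ) + 1)) +
        Y.C ^ 2 / κ ^ 2 * η * 1 := by
    intro m w hw
    have ha0 : 0 < (m : ℝ) + 1 := by positivity
    rw [hrr]
    simp only
    rw [abs_mul, abs_of_nonneg hp0]
    have h1 : |∑ q ∈ Y.S w, (ph Y κ (m + Y.s) (Y.ins w q) *
        uu Y x κ (m + Y.s) (Y.ins w q) * F (Y.ins w q) - ph Y κ m w * uu Y x κ m w * F w)| ≤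
        Y.C * (2 * Y.C / κ ^ 2 + 2 * Y.C * (Y.C + κ * Y.s) / κ ^ 3) * (1 / ((m : ℝ) + 1)) +
        Y.C ^ 2 / κ ^ 2 * η * 1 := by
      have h2 : ∀ q ∈ Y.S w, |ph Y κ (m + Y.s) (Y.ins w q) *
          uu Y x κ (m + Y.s) (Y.ins w q) * F (Y.ins w q) - ph Y κ m w * uu Y x κ m w * F w| ≤
          (2 * Y.C / κ ^ 2 + 2 * Y.C * (Y.C + κ * Y.s) / κ ^ 3) / ((m : ℝ) + 1) ^ 2 +
          Y.C * η / (κ ^ 2 * ((m : ℝ) + 1)) := by
        intro q hq
        have e : ph Y κ (m + Y.s) (Y.ins w q) * uu Y x κ (m + Y.s) (Y.ins w q) *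
            F (Y.ins w q) - ph Y κ m w * uu Y x κ m w * F w =
            (ph Y κ (m + Y.s) (Y.ins w q) * uu Y x κ (m + Y.s) (Y.ins w q) -
              ph Y κ m w * uu Y x κ m w) * F (Y.ins w q) +
            ph Y κ m w * (uu Y x κ m w * (F (Y.ins w q) - F w)) := by ring
        rw [e]
        refine (abs_add_le _ _).trans ?_
        rw [abs_mul, abs_mul (ph Y κ m w), abs_mul (uu Y x κ m w)]
        obtain ⟨h3, h4⟩ := hF _ _ (Y.ins_K m w q hw hq)
        have h7 := phuu_ins H hκ hw hq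
        have h8 := hFη m w hw q hq
        have h9 := ph_pos (Y := Y) hκ m w
        have h10 := ph_le (Y := Y) hκ m w
        have h11 := uu_le H hκ hw
        refine add_le_add ?_ ?_
        · calc _ ≤ (2 * Y.C / κ ^ 2 + 2 * Y.C * (Y.C + κ * Y.s) / κ ^ 3) /
                ((m : ℝ) + 1) ^ 2 * 1 := by
                refine mul_le_mul h7 ?_ (abs_nonneg _) (by positivity)
                rw [abs_of_nonneg h3]
                exact h4
            _ = _ := mul_one _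
        · rw [abs_of_pos h9]
          calc ph Y κ m w * (|uu Y x κ m w| * |F (Y.ins w q) - F w|) ≤
                1 / (κ * ((m : ℝ) + 1)) * (Y.C / κ * η) :=
                mul_le_mul h10 (mul_le_mul h11 h8 (abs_nonneg _) (by positivity))
                  (by positivity) (by positivity)
            _ = _ := by field_simp
      refine (abs_sum_le_sum_abs _ _).trans ((sum_le_card_nsmul _ _ _ h2).trans ?_)
      rw [nsmul_eq_mul]
      have h3 : ((Y.S w).card : ℝ) ≤ Y.C * (m + 1) := by exact_mod_cast Y.S_le m w hw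
      refine (mul_le_mul_of_nonneg_right h3 (by positivity)).trans (le_of_eq ?_)
      field_simp
    exact (mul_le_of_le_one_left (abs_nonneg _) hp1).trans h1
  have hFh : ∀ h : ℝ, 0 ≤ h ∧ h ≤ 1 → ∀ m, ∀ w ∈ Y.K m, |F w * h| ≤ 1 := by
    intro h hh m w hw
    obtain ⟨h3, h4⟩ := hF m w hw
    rw [abs_of_nonneg (mul_nonneg h3 hh.1)]
    calc F w * h ≤ 1 * 1 := mul_le_mul h4 hh.2 hh.1 zero_le_one
      _ = 1 := mul_one _
  -- one step for functions of the size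
  have s1 : ∀ h : ℕ → ℝ, (∀ m, 0 ≤ h m ∧ h m ≤ 1) → ∃ ε : ℝ, |ε| ≤ 2 * β ∧
      Ex Y x N (fun m w => F w * h m) - Ex Y x N (fun m w => F w * h (m + Y.s)) =
      Ex Y x N (fun m w => (uu Y x κ m w * F w + ee m w) * h (m + Y.s)) + ε := by
    intro h hh
    have a1 := T_near (Y := Y) (N := N) hx0 hκ (fun m w => F w * h m) (A := 1)
      (fun m w hw => hFh _ (hh m) m w hw)
    have a2 := T_near (Y := Y) (N := N) hx0 hκ (fun m w => F w * h (m + Y.s)) (A := 1)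
      (fun m w hw => hFh _ (hh _) m w hw)
    rw [← hβ, one_mul] at a1 a2
    have a3 := T_eq H κ (fun m w => F w * h m)
    have a4 : Ex Y x N (fun m w => x ^ Y.s * ∑ q ∈ Y.S w, ph Y κ (m + Y.s) (Y.ins w q) *
        (F (Y.ins w q) * h (m + Y.s))) -
        Ex Y x N (fun m w => ((Y.B w).card : ℝ) * ph Y κ m w * (F w * h (m + Y.s))) =
        Ex Y x N (fun m w => (uu Y x κ m w * F w + ee m w) * h (m + Y.s)) := by
      rw [← Ex_sub]
      congr 1
      funext m w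
      rw [hee]
      simp only
      have e0 : ∑ q ∈ Y.S w, ph Y κ (m + Y.s) (Y.ins w q) * (F (Y.ins w q) * h (m + Y.s)) =
          (∑ q ∈ Y.S w, ph Y κ (m + Y.s) (Y.ins w q) * F (Y.ins w q)) * h (m + Y.s) := by
        rw [Finset.sum_mul]
        exact Finset.sum_congr rfl fun q _ => by ring
      rw [e0, Finset.sum_sub_distrib, Finset.sum_const, nsmul_eq_mul]
      unfold uu dd
      ring
    refine ⟨(Ex Y x N (fun m w => F w * h m) -
      Ex Y x N (fun m w => ((Y.B w).card : ℝ) * ph Y κ m w * (F w * h m))) -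
      (Ex Y x N (fun m w => F w * h (m + Y.s)) -
      Ex Y x N (fun m w => ((Y.B w).card : ℝ) * ph Y κ m w * (F w * h (m + Y.s)))), ?_, ?_⟩
    · refine (abs_sub _ _).trans ?_
      linarith
    · rw [← a4, ← a3]
      ring
  obtain ⟨ε1, hε1, q1⟩ := s1 g hg
  obtain ⟨ε2, hε2, q2⟩ := s1 (fun m => g (m + Y.s)) (fun m => hg _)
  -- the error function
  have q3 : |Ex Y x N (fun m w => ee m w * g (m + Y.s)) -
      Ex Y x N (fun m w => ee m w * g (m + Y.s + Y.s))| ≤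
      Y.C * (Y.C + κ * Y.s) / κ ^ 2 * I + Y.C / κ * η * Z := by
    rw [← Ex_sub, hI, hZ, ← Ex_mul, ← Ex_mul, ← Ex_add]
    refine (Ex_abs hx0 _).trans (Ex_mono hx0 fun m w hw => ?_)
    rw [← mul_sub, abs_mul]
    have h1 : |g (m + Y.s) - g (m + Y.s + Y.s)| ≤ 1 := by
      have := hg (m + Y.s)
      have := hg (m + Y.s + Y.s)
      rw [abs_le]
      constructor <;> linarith
    calc |ee m w| * |g (m + Y.s) - g (m + Y.s + Y.s)| ≤
          (Y.C * (Y.C + κ * Y.s) / κ ^ 2 * (1 / ((m : ℝ) + 1)) + Y.C / κ * η * 1) * 1 :=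
          mul_le_mul (heb m w hw) h1 (abs_nonneg _) (by positivity)
      _ = _ := mul_one _
  -- one step for `uu`
  have q4 : |Ex Y x N (fun m w => uu Y x κ m w * F w * g (m + Y.s)) -
      Ex Y x N (fun m w => uu Y x κ m w * F w * g (m + Y.s + Y.s))| ≤
      2 * Y.C / κ * β + (2 * Y.C ^ 2 * (1 + Y.s) / κ ^ 2 +
        Y.C * (2 * Y.C / κ ^ 2 + 2 * Y.C * (Y.C + κ * Y.s) / κ ^ 3)) * I +
        Y.C ^ 2 / κ ^ 2 * η * Z := by
    have huF : ∀ h : ℝ, 0 ≤ h ∧ h ≤ 1 → ∀ m, ∀ w ∈ Y.K m, |uu Y x κ m w * F w * h| ≤ Y.C / κ := by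
      intro h hh m w hw
      rw [mul_assoc, abs_mul]
      calc |uu Y x κ m w| * |F w * h| ≤ Y.C / κ * 1 :=
            mul_le_mul (uu_le H hκ hw) (hFh h hh m w hw) (abs_nonneg _) (by positivity)
        _ = _ := mul_one _
    have a1 := T_near (Y := Y) (N := N) hx0 hκ (fun m w => uu Y x κ m w * F w * g (m + Y.s))
      (A := Y.C / κ) (fun m w hw => huF _ (hg _) m w hw)
    rw [← hβ] at a1
    have a3 := T_eq H κ (fun m w => uu Y x κ m w * F w * g (m + Y.s))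
    have a4 : Ex Y x N (fun m w => x ^ Y.s * ∑ q ∈ Y.S w, ph Y κ (m + Y.s) (Y.ins w q) *
        (uu Y x κ (m + Y.s) (Y.ins w q) * F (Y.ins w q) * g (m + Y.s + Y.s))) -
        Ex Y x N (fun m w => uu Y x κ m w * F w * g (m + Y.s + Y.s)) =
        Ex Y x N (fun m w => uu Y x κ m w ^ 2 * (F w * g (m + Y.s + Y.s))) +
        Ex Y x N (fun m w => (((Y.B w).card : ℝ) * ph Y κ m w - 1) *
          (uu Y x κ m w * F w * g (m + Y.s + Y.s))) +
        Ex Y x N (fun m w => rr m w * g (m + Y.s + Y.s)) := by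
      rw [← Ex_sub, ← Ex_add, ← Ex_add]
      congr 1
      funext m w
      have e1 : ∑ q ∈ Y.S w, ph Y κ (m + Y.s) (Y.ins w q) *
          (uu Y x κ (m + Y.s) (Y.ins w q) * F (Y.ins w q) * g (m + Y.s + Y.s)) =
          (∑ q ∈ Y.S w, ph Y κ (m + Y.s) (Y.ins w q) * uu Y x κ (m + Y.s) (Y.ins w q) *
            F (Y.ins w q)) * g (m + Y.s + Y.s) := by
        rw [Finset.sum_mul]
        exact Finset.sum_congr rfl fun q _ => by ring
      rw [e1, hrr]
      simp only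
      rw [Finset.sum_sub_distrib, Finset.sum_const, nsmul_eq_mul]
      have e2 : uu Y x κ m w ^ 2 = (x ^ Y.s * ((Y.S w).card : ℝ) - ((Y.B w).card : ℝ)) *
        ph Y κ m w * uu Y x κ m w := by
        unfold uu dd
        ring
      rw [e2]
      ring
    have b1 : |Ex Y x N (fun m w => uu Y x κ m w ^ 2 * (F w * g (m + Y.s + Y.s)))| ≤
        2 * Y.C ^ 2 * (1 + Y.s) / κ ^ 2 * I := by
      refine le_trans ?_ (le_trans (uu_sq H hκ) (le_of_eq (by rw [hI])))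
      refine (Ex_abs hx0 _).trans (Ex_mono hx0 fun m w hw => ?_)
      rw [abs_mul, abs_of_nonneg (sq_nonneg _)]
      exact mul_le_of_le_one_right (sq_nonneg _) (hFh _ (hg _) m w hw)
    have b2 : |Ex Y x N (fun m w => (((Y.B w).card : ℝ) * ph Y κ m w - 1) *
          (uu Y x κ m w * F w * g (m + Y.s + Y.s)))| ≤ Y.C / κ * β := by
      rw [hβ, ← Ex_mul]
      refine (Ex_abs hx0 _).trans (Ex_mono hx0 fun m w hw => ?_)
      have h6 := ph_mul (Y := Y) hκ m w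
      rw [abs_mul, abs_sub_comm]
      have h7 := huF _ (hg (m + Y.s + Y.s)) m w hw
      calc |1 - ((Y.B w).card : ℝ) * ph Y κ m w| * |uu Y x κ m w * F w * g (m + Y.s + Y.s)| ≤
            bd Y κ m w * (Y.C / κ) :=
            mul_le_mul h6 h7 (abs_nonneg _) ((abs_nonneg _).trans h6)
        _ = _ := by ring
    have b3 : |Ex Y x N (fun m w => rr m w * g (m + Y.s + Y.s))| ≤
        Y.C * (2 * Y.C / κ ^ 2 + 2 * Y.C * (Y.C + κ * Y.s) / κ ^ 3) * I +
        Y.C ^ 2 / κ ^ 2 * η * Z := by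
      rw [hI, hZ, ← Ex_mul, ← Ex_mul, ← Ex_add]
      refine (Ex_abs hx0 _).trans (Ex_mono hx0 fun m w hw => ?_)
      rw [abs_mul, abs_of_nonneg (hg _).1]
      exact (mul_le_of_le_one_right (abs_nonneg _) (hg _).2).trans (hrb m w hw)
    have e3 : Ex Y x N (fun m w => uu Y x κ m w * F w * g (m + Y.s)) -
        Ex Y x N (fun m w => uu Y x κ m w * F w * g (m + Y.s + Y.s)) =
        (Ex Y x N (fun m w => uu Y x κ m w * F w * g (m + Y.s)) -
          Ex Y x N (fun m w => ((Y.B w).card : ℝ) * ph Y κ m w *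
            (uu Y x κ m w * F w * g (m + Y.s)))) +
        (Ex Y x N (fun m w => uu Y x κ m w ^ 2 * (F w * g (m + Y.s + Y.s))) +
        Ex Y x N (fun m w => (((Y.B w).card : ℝ) * ph Y κ m w - 1) *
          (uu Y x κ m w * F w * g (m + Y.s + Y.s))) +
        Ex Y x N (fun m w => rr m w * g (m + Y.s + Y.s))) := by
      rw [← a4, ← a3]
      ring
    rw [e3]
    refine (abs_add_le _ _).trans ?_
    have b4 := (abs_add_le (Ex Y x N (fun m w => uu Y x κ m w ^ 2 * (F w * g (m + Y.s + Y.s))) +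
        Ex Y x N (fun m w => (((Y.B w).card : ℝ) * ph Y κ m w - 1) *
          (uu Y x κ m w * F w * g (m + Y.s + Y.s))))
        (Ex Y x N (fun m w => rr m w * g (m + Y.s + Y.s))))
    have b5 := (abs_add_le (Ex Y x N (fun m w => uu Y x κ m w ^ 2 * (F w * g (m + Y.s + Y.s))))
        (Ex Y x N (fun m w => (((Y.B w).card : ℝ) * ph Y κ m w - 1) *
          (uu Y x κ m w * F w * g (m + Y.s + Y.s)))))
    have e5 : 2 * Y.C / κ * β = Y.C / κ * β + Y.C / κ * β := by ring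
    rw [e5, add_mul]
    linarith
  have q5 : ∀ h : ℕ → ℝ, Ex Y x N (fun m w => (uu Y x κ m w * F w + ee m w) * h m) =
      Ex Y x N (fun m w => uu Y x κ m w * F w * h m) + Ex Y x N (fun m w => ee m w * h m) := by
    intro h
    rw [← Ex_add]
    congr 1
    funext m w
    ring
  rw [q5 (fun m => g (m + Y.s))] at q1
  rw [q5 (fun m => g (m + Y.s + Y.s))] at q2
  rw [← hβ, ← hI, ← hZ]
  have e6 : Ex Y x N (fun m w => F w * g m) - 2 * Ex Y x N (fun m w => F w * g (m + Y.s)) +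
      Ex Y x N (fun m w => F w * g (m + Y.s + Y.s)) =
      (Ex Y x N (fun m w => F w * g m) - Ex Y x N (fun m w => F w * g (m + Y.s))) -
      (Ex Y x N (fun m w => F w * g (m + Y.s)) -
        Ex Y x N (fun m w => F w * g (m + Y.s + Y.s))) := by ring
  rw [e6, q1, q2]
  rw [abs_le] at q3 q4 hε1 hε2 ⊢
  have e7 : (4 + 2 * Y.C / κ) * β + (Y.C * (Y.C + κ * Y.s) / κ ^ 2 +
      2 * Y.C ^ 2 * (1 + Y.s) / κ ^ 2 +
      Y.C * (2 * Y.C / κ ^ 2 + 2 * Y.C * (Y.C + κ * Y.s) / κ ^ 3)) * I +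
      (Y.C / κ + Y.C ^ 2 / κ ^ 2) * η * Z =
      4 * β + (2 * Y.C / κ * β + (2 * Y.C ^ 2 * (1 + Y.s) / κ ^ 2 +
        Y.C * (2 * Y.C / κ ^ 2 + 2 * Y.C * (Y.C + κ * Y.s) / κ ^ 3)) * I +
        Y.C ^ 2 / κ ^ 2 * η * Z) +
      (Y.C * (Y.C + κ * Y.s) / κ ^ 2 * I + Y.C / κ * η * Z) := by ring
  rw [e7]
  constructor <;> linarith [q3.1, q3.2, q4.1, q4.2, hε1.1, hε1.2, hε2.1, hε2.2]

end Pool.Agent.K1H48.SO
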