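import Pool.Agent.R965.HP.HexCyc
import Pool.Agent.R131.LS.Tr

/-!
# The numbers of the moves of a walk in a domain
-/

set_option autoImplicit false

namespace Pool.Agent.K1H48.SO

open Finset TH966.AK Pool.Agent.R131.LS
open Pool.Agent.R965.HP (HexPair hexPair_iff Nb nb_iff)
open scoped Classical

variable {D : Set P} {p q : P}

/-- the ways to replace two consecutive edges by the four other edges of a hexagon, inside `D` -/
def upS (D : Set (ℤ × ℤ)) (l : List (ℤ × ℤ)) : Set (List (ℤ × ℤ) × List (ℤ × ℤ)) :=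
  {u | HexPair u.1 u.2 ∧ u.1 <:+: l ∧ ∀ v ∈ u.2, v ∈ D ∧ (v ∈ u.1 ∨ v ∉ l)}

/-- the ways to replace four consecutive edges by the two other edges of a hexagon, inside `D` -/
def dnS (D : Set (ℤ × ℤ)) (l : List (ℤ × ℤ)) : Set (List (ℤ × ℤ) × List (ℤ × ℤ)) :=
  {u | HexPair u.1 u.2 ∧ u.2 <:+: l ∧ ∀ v ∈ u.1, v ∈ D ∧ (v ∈ u.2 ∨ v ∉ l)}

theorem hexPair_map {f : P → P} (hf : Function.Injective f)
    (hA : ∀ a b, Hex.A a b → Hex.A (f a) (f b)) {U U' : List (ℤ × ℤ)} (h : HexPair U U') :
    HexPair (U.map f) (U'.map f) := by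
  obtain ⟨p, q, r, x, y, z, rfl, rfl, h1, h2, h3⟩ := h
  refine ⟨f p, f q, f r, f x, f y, f z, rfl, rfl, ?_, ?_, ?_⟩
  · rw [List.isChain_map]
    exact h1.imp fun {a b} hab => (nb_iff _ _).2 (hA a b ((nb_iff _ _).1 hab))
  · rw [List.isChain_map]
    exact h2.imp fun {a b} hab => (nb_iff _ _).2 (hA a b ((nb_iff _ _).1 hab))
  · have := h3.map hf
    simpa using this

theorem map_pi_ps (p : P) (l : List P) : (l.map (ps p)).map (pi p) = l := by
  rw [List.map_map]
  have e : pi p ∘ ps p = id := by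
    funext x
    exact pi_ps p x
  rw [e, List.map_id]

theorem map_ps_pi (p : P) (l : List P) : (l.map (pi p)).map (ps p) = l := by
  rw [List.map_map]
  have e : ps p ∘ pi p = id := by
    funext x
    exact ps_pi p x
  rw [e, List.map_id]

theorem map_inj2 (v : P) : Function.Injective (fun u : List P × List P =>
    (u.1.map (pi v), u.2.map (pi v))) := by
  rintro ⟨U, U'⟩ ⟨V, V'⟩ h1
  simp only [Prod.mk.injEq] at h1
  exact Prod.ext (List.map_injective_iff.2 (pi_inj v) h1.1)
    (List.map_injective_iff.2 (pi_inj v) h1.2)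

theorem mem_map_pi {v x : P} {w : List P} : pi v x ∈ w.map (pi v) ↔ x ∈ w := by
  rw [List.mem_map]
  constructor
  · rintro ⟨y, hy, h⟩
    rwa [← pi_inj v h]
  · exact fun h => ⟨x, h, rfl⟩

theorem upS_card {w : List P} (hw : ∀ x ∈ w, pi p x ∈ D) :
    (upS D (w.map (pi p))).ncard = ((Yp D p q).S w).card := by
  have e : upS D (w.map (pi p)) = (fun u : List P × List P =>
      (u.1.map (pi p), u.2.map (pi p))) ''
        (((ruleD Hex.rule (Dp D p)).S w : Finset _) : Set (List P × List P)) := by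
    ext u
    constructor
    · rintro ⟨h1, h2, h3⟩
      refine ⟨(u.1.map (ps p), u.2.map (ps p)), ?_,
        Prod.ext (map_pi_ps p u.1) (map_pi_ps p u.2)⟩
      rw [Finset.mem_coe, Rule.mem_S]
      have h4 : u.1.map (ps p) <:+: w := by
        have := h2.map (ps p)
        rwa [map_ps_pi] at this
      refine ⟨⟨(hexPair_iff _ _).1 (hexPair_map (ps_inj p) (fun a b h => A_ps h) h1),
        fun x hx => hw x (h4.subset hx), ?_⟩, h4, ?_⟩
      · intro x hx
        rw [List.mem_map] at hx
        obtain ⟨y, hy, rfl⟩ := hx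
        unfold Dp
        rw [pi_ps]
        exact (h3 y hy).1
      · intro x hx hx' hxw
        rw [List.mem_map] at hx
        obtain ⟨y, hy, rfl⟩ := hx
        rcases (h3 y hy).2 with h5 | h5
        · exact hx' (List.mem_map_of_mem h5)
        · apply h5
          rw [List.mem_map]
          exact ⟨_, hxw, pi_ps p y⟩
    · rintro ⟨⟨U, U'⟩, hu, rfl⟩
      rw [Finset.mem_coe, Rule.mem_S] at hu
      obtain ⟨⟨h1, h2, h3⟩, h4, h5⟩ := hu
      refine ⟨hexPair_map (pi_inj p) (fun a b h => A_pi h) ((hexPair_iff _ _).2 h1),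
        h4.map _, ?_⟩
      intro v hv
      rw [List.mem_map] at hv
      obtain ⟨x, hx, rfl⟩ := hv
      refine ⟨h3 x hx, ?_⟩
      by_cases hxU : x ∈ U
      · exact Or.inl (List.mem_map_of_mem hxU)
      · refine Or.inr fun hc => h5 x hx hxU ?_
        exact mem_map_pi.1 hc
  rw [e, Set.ncard_image_of_injective _ (map_inj2 p), Set.ncard_coe_finset]
  rfl

theorem dnS_card {w : List P} (hw : ∀ x ∈ w, pi p x ∈ D) :
    (dnS D (w.map (pi p))).ncard = ((Yp D p q).B w).card := by
  have e : dnS D (w.map (pi p)) = (fun u : List P × List P =>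
      (u.1.map (pi p), u.2.map (pi p))) ''
        (((ruleD Hex.rule (Dp D p)).B w : Finset _) : Set (List P × List P)) := by
    ext u
    constructor
    · rintro ⟨h1, h2, h3⟩
      refine ⟨(u.1.map (ps p), u.2.map (ps p)), ?_,
        Prod.ext (map_pi_ps p u.1) (map_pi_ps p u.2)⟩
      rw [Finset.mem_coe, Rule.mem_B]
      have h4 : u.2.map (ps p) <:+: w := by
        have := h2.map (ps p)
        rwa [map_ps_pi] at this
      refine ⟨⟨(hexPair_iff _ _).1 (hexPair_map (ps_inj p) (fun a b h => A_ps h) h1), ?_,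
        fun x hx => hw x (h4.subset hx)⟩, h4, ?_⟩
      · intro x hx
        rw [List.mem_map] at hx
        obtain ⟨y, hy, rfl⟩ := hx
        unfold Dp
        rw [pi_ps]
        exact (h3 y hy).1
      · intro x hx hx' hxw
        rw [List.mem_map] at hx
        obtain ⟨y, hy, rfl⟩ := hx
        rcases (h3 y hy).2 with h5 | h5
        · exact hx' (List.mem_map_of_mem h5)
        · apply h5
          rw [List.mem_map]
          exact ⟨_, hxw, pi_ps p y⟩
    · rintro ⟨⟨U, U'⟩, hu, rfl⟩
      rw [Finset.mem_coe, Rule.mem_B] at hu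
      obtain ⟨⟨h1, h2, h3⟩, h4, h5⟩ := hu
      refine ⟨hexPair_map (pi_inj p) (fun a b h => A_pi h) ((hexPair_iff _ _).2 h1),
        h4.map _, ?_⟩
      intro v hv
      rw [List.mem_map] at hv
      obtain ⟨x, hx, rfl⟩ := hv
      refine ⟨h2 x hx, ?_⟩
      by_cases hxU : x ∈ U'
      · exact Or.inl (List.mem_map_of_mem hxU)
      · refine Or.inr fun hc => h5 x hx hxU ?_
        exact mem_map_pi.1 hc
  rw [e, Set.ncard_image_of_injective _ (map_inj2 p), Set.ncard_coe_finset]
  rfl

end Pool.Agent.K1H48.SO
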