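import Pool.Agent.K1H48.SO.Gauss
import Pool.Agent.K1H48.SO.UpDn
import Pool.Agent.R131.LT.Fin

/-!
# Gaussian concentration of the balance of the moves: auxiliary results
-/

set_option autoImplicit false

namespace Pool.Agent.K1H48.SO

open Finset TH966.AK Pool.Agent.R131.LS Pool.Agent.R131.LT
open Pool.Agent.W832.HR (Traj)
open scoped Classical

theorem bad_gauss (k n1 : ℕ) {C0 θ B c1 δ Z Eb s : ℝ} (hθ0 : 0 < θ) (hθ1 : θ < 1) (hC0 : 0 ≤ C0)
    (hc1 : 0 < c1) (hδ : 0 < δ) (hZ : δ ^ k ≤ Z) (hn : c1 / δ ≤ n1) (_hs : 0 ≤ s)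
    (hs2 : c1 * s ^ 2 ≤ c1 / δ) (hB0 : 0 ≤ B) (hB : (n1 : ℝ) ^ k * Real.sqrt θ ^ n1 ≤ B)
    (hEb : Eb ≤ C0 * θ ^ n1 / (1 - θ)) :
    Eb ≤ C0 * B / (1 - θ) / c1 ^ k *
      Real.exp (-(-Real.log (Real.sqrt θ) * c1 * s ^ 2)) * Z := by
  have hr := Real.sqrt_pos.2 hθ0
  have hr1 : Real.sqrt θ < 1 := by
    rw [Real.sqrt_lt' one_pos, one_pow]
    exact hθ1
  obtain ⟨t, ht⟩ : ∃ t : ℝ, t = Real.sqrt θ := ⟨_, rfl⟩
  have htt : θ = t * t := by rw [ht, Real.mul_self_sqrt hθ0.le]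
  rw [← ht] at hr hr1 hB ⊢
  have h1 : θ ^ n1 = t ^ n1 * t ^ n1 := by rw [htt, mul_pow]
  have hp : 0 < t ^ n1 := by positivity
  have hn' : c1 ≤ n1 * δ := by
    rw [div_le_iff₀ hδ] at hn
    exact hn
  have h2 : c1 ^ k * t ^ n1 ≤ B * Z := by
    have h3 : c1 ^ k ≤ (n1 * δ) ^ k := pow_le_pow_left₀ hc1.le hn' k
    calc c1 ^ k * t ^ n1 ≤ (n1 * δ) ^ k * t ^ n1 := mul_le_mul_of_nonneg_right h3 hp.le
      _ = ((n1 : ℝ) ^ k * t ^ n1) * δ ^ k := by rw [mul_pow]; ring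
      _ ≤ B * δ ^ k := mul_le_mul_of_nonneg_right hB (by positivity)
      _ ≤ B * Z := mul_le_mul_of_nonneg_left hZ hB0
  have h3 : t ^ n1 ≤ B * Z / c1 ^ k := by
    rw [le_div_iff₀ (by positivity)]
    linarith
  have h4 : t ^ n1 ≤ Real.exp (-(-Real.log t * c1 * s ^ 2)) := by
    have e : t ^ n1 = Real.exp (n1 * Real.log t) := by
      rw [Real.exp_nat_mul, Real.exp_log hr]
    rw [e]
    refine Real.exp_le_exp.2 ?_
    have hlog : Real.log t < 0 := Real.log_neg hr hr1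
    have h5 : c1 * s ^ 2 ≤ n1 := hs2.trans hn
    nlinarith
  have hθ2 : 0 < 1 - θ := by linarith
  have hZ0 : 0 ≤ Z := le_trans (by positivity) hZ
  refine hEb.trans ?_
  rw [h1]
  calc C0 * (t ^ n1 * t ^ n1) / (1 - θ) = C0 / (1 - θ) * (t ^ n1 * t ^ n1) := by ring
    _ ≤ C0 / (1 - θ) * (B * Z / c1 ^ k * Real.exp (-(-Real.log t * c1 * s ^ 2))) := by
        refine mul_le_mul_of_nonneg_left ?_ (by positivity)
        exact mul_le_mul h3 h4 hp.le (by positivity)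
    _ = _ := by ring

/-- the relative difference of the weighted numbers of moves is larger than `t / √(l + 1)`, with `l`
the number of steps -/
noncomputable def offB (x : ℝ) (D : Set (ℤ × ℤ)) (t : ℝ) (l : List (ℤ × ℤ)) : ℝ :=
  if |x ^ 2 * ((upS D l).ncard : ℝ) - ((dnS D l).ncard : ℝ)| ≤
    t / Real.sqrt (((l.length - 1 : ℕ) : ℝ) + 1) * ((dnS D l).ncard : ℝ) ∧
      0 < (dnS D l).ncard then 0 else 1

theorem off_le {D : Set P} {p q : P} (hp : p ∈ D) (F : Finset P) (hF : (F : Set P) = D)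
    {x κ : ℝ} (hx0 : 0 < x) (hκ : 0 < κ) (s t : ℝ) (hst : s ≤ t) :
    ∑ᶠ l ∈ Traj D p q, x ^ (l.length - 1) * offB x D t l ≤
      Ex (Yp D p q) x F.card (bd (Yp D p q) κ) +
      Ex (Yp D p q) x F.card (fun m w => if s ≤ |vv (Yp D p q) x κ m w| then 1 else 0) := by
  rw [sumx_eq hp F hF x (fun _ l => offB x D t l), ← Ex_add]
  refine Ex_mono hx0 fun m w hw => ?_
  obtain ⟨h1, h2⟩ := (mem_Yp hp).1 hw
  have hw' : ∀ v ∈ w, pi p v ∈ D := fun v hv => h2.2.2.2.2 _ (List.mem_map_of_mem hv)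
  have hbd0 : 0 ≤ bd (Yp D p q) κ m w := by
    unfold bd
    split_ifs <;> norm_num
  have hoff1 : offB x D t (w.map (pi p)) ≤ 1 := by
    unfold offB
    split_ifs <;> norm_num
  by_cases hb : (((Yp D p q).B w).card : ℝ) < κ * ((m : ℝ) + 1)
  · have e1 : bd (Yp D p q) κ m w = 1 := by
      unfold bd
      rw [if_pos hb]
    rw [e1]
    have : (0 : ℝ) ≤ if s ≤ |vv (Yp D p q) x κ m w| then 1 else 0 := by
      split_ifs <;> norm_num
    linarith
  by_cases hv : s ≤ |vv (Yp D p q) x κ m w|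
  · rw [if_pos hv]
    linarith
  have hb' := not_lt.1 hb
  have hm0 : (0 : ℝ) < (m : ℝ) + 1 := by positivity
  have hB : 0 < (((Yp D p q).B w).card : ℝ) := lt_of_lt_of_le (by positivity) hb'
  have e0 : offB x D t (w.map (pi p)) = 0 := by
    unfold offB
    rw [upS_card (q := q) hw', dnS_card (q := q) hw', List.length_map, h1, Nat.add_sub_cancel,
      if_pos]
    refine ⟨?_, by exact_mod_cast hB⟩
    have hv' := (not_le.1 hv).le
    have hph : ph (Yp D p q) κ m w = 1 / (((Yp D p q).B w).card : ℝ) := by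
      unfold ph
      rw [max_eq_left hb']
    unfold vv uu at hv'
    have hsq : 0 < Real.sqrt ((m : ℝ) + 1) := Real.sqrt_pos.2 hm0
    rw [abs_mul, abs_mul, hph, abs_of_pos hsq,
      abs_of_pos (show 0 < 1 / (((Yp D p q).B w).card : ℝ) by positivity)] at hv'
    have hdd : dd (Yp D p q) x w = x ^ 2 * (((Yp D p q).S w).card : ℝ) -
        (((Yp D p q).B w).card : ℝ) := rfl
    rw [hdd] at hv'
    obtain ⟨b, hbdef⟩ : ∃ b : ℝ, b = (((Yp D p q).B w).card : ℝ) := ⟨_, rfl⟩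
    obtain ⟨y, hy⟩ : ∃ y : ℝ, y = |x ^ 2 * (((Yp D p q).S w).card : ℝ) -
      (((Yp D p q).B w).card : ℝ)| := ⟨_, rfl⟩
    obtain ⟨r, hr⟩ : ∃ r : ℝ, r = Real.sqrt ((m : ℝ) + 1) := ⟨_, rfl⟩
    rw [← hy, ← hr, ← hbdef] at hv'
    rw [← hy, ← hr, ← hbdef]
    rw [← hbdef] at hB
    rw [← hr] at hsq
    have h5 : r * (y * (1 / b)) ≤ t := hv'.trans hst
    have h6 : r * (y * (1 / b)) = r * y / b := by ring
    rw [h6, div_le_iff₀ hB] at h5
    rw [div_mul_eq_mul_div, le_div_iff₀ hsq]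
    linarith
  rw [e0]
  have : (0 : ℝ) ≤ if s ≤ |vv (Yp D p q) x κ m w| then 1 else 0 := by
    split_ifs <;> norm_num
  linarith

end Pool.Agent.K1H48.SO
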