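import Pool.Agent.K1H48.SO.Dom
import Pool.Agent.K1H48.SO.GaussNum

/-!
# Gaussian concentration of the balance of the moves, in closed domains
-/

set_option autoImplicit false

namespace Pool.Agent.K1H48.SO

open Finset TH966.AK Pool.Agent.R131.LS Pool.Agent.R131.LT
open Pool.Agent.Y981.QB
open Pool.Agent.W832.HR (Nbr Traj xc Z emb lv HD Hd Bd)
open scoped Classical ENNReal

theorem dom_gauss (W : Set ℂ) (hW : IsOpen W) (hc : IsConnected W)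
    (a b : ℂ) (hab : a ≠ b) (ε ε' : ℝ) (hε : ε = 1 ∨ ε = -1) (hε' : ε' = 1 ∨ ε' = -1) (r : ℝ)
    (hr : 0 < r) (ha : HD a ε r ⊆ W) (hb : HD b ε' r ⊆ W) (M : ℝ) :
    ∃ K : Set ℂ, K ⊆ W ∧ IsCompact K ∧ ∃ C : ℝ, 1 ≤ C ∧ ∀ δ : ℝ, 0 < δ → C * δ ≤ 1 →
      ∀ (D : Set P) (p q : P), Bd ε p → Bd ε' q →
      C * ‖(δ : ℂ) * emb p - a‖ ≤ 1 → C * ‖(δ : ℂ) * emb q - b‖ ≤ 1 →
      (∀ v : P, (δ : ℂ) * emb v ∈ K → v ∈ D) → Hd δ ε r p ⊆ D → Hd δ ε' r q ⊆ D →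
      (∀ v ∈ D, ‖(δ : ℂ) * emb v‖ ≤ M) → Closed D → ∀ x : ℝ, xr ≤ x → x ≤ 544 / 1000 →
      (Traj D p q).Finite ∧ 0 < Zx x D p q ∧
      ∀ s : ℝ, 0 ≤ s → s ^ 2 * δ ≤ 1 →
        Mx x D p q (offB x D (s / 4)) ≤ C * Real.exp (-(s ^ 2 / C)) := by
  obtain ⟨K, hK, hKc, C₁, hC₁, h⟩ := Pool.Agent.Y981.Sup.low W hW hc a b hab ε ε' hε hε' r hr ha hb
  obtain ⟨C₃, hC₃, hcard⟩ := domain_card M
  obtain ⟨C0', hC0'⟩ := Hex.poor
  obtain ⟨C0, hC0⟩ : ∃ C0 : ℝ, C0 = |C0'| := ⟨_, rfl⟩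
  have hC00 : 0 ≤ C0 := by rw [hC0]; exact abs_nonneg _
  have hab' : 0 < ‖a - b‖ := norm_pos_iff.2 (sub_ne_zero.2 hab)
  obtain ⟨CC, hCC⟩ : ∃ c : ℝ, c = (Hex.rule.CC : ℝ) := ⟨_, rfl⟩
  have hCC0 : 0 ≤ CC := by rw [hCC]; exact Nat.cast_nonneg _
  obtain ⟨θ, hθ⟩ : ∃ θ : ℝ, θ = 544 / 1000 * (459 / 250) := ⟨_, rfl⟩
  have hθ0 : 0 ≤ θ := by rw [hθ]; norm_num
  have hθpos : 0 < θ := by rw [hθ]; norm_num
  have hθ1 : θ < 1 := by rw [hθ]; norm_num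
  obtain ⟨B, hB0, hB⟩ := absorb C₁ (Real.sqrt_nonneg θ) (by
    rw [Real.sqrt_lt' one_pos, one_pow]
    exact hθ1)
  obtain ⟨c1, hc1⟩ : ∃ c1 : ℝ, c1 = ‖a - b‖ / 2 := ⟨_, rfl⟩
  have hc1pos : 0 < c1 := by rw [hc1]; positivity
  obtain ⟨κ, hκ⟩ : ∃ κ : ℝ, κ = 1 / (2 * ((10000 : ℕ) : ℝ)) := ⟨_, rfl⟩
  have hκ0 : 0 < κ := by rw [hκ]; norm_num
  obtain ⟨A, hA⟩ : ∃ A : ℝ, A = kA CC κ ((2 : ℕ) : ℝ) := ⟨_, rfl⟩
  have hA0 : 0 ≤ A := by rw [hA]; exact kA_nonneg hCC0 hκ0 (Nat.cast_nonneg _)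
  have hθ2 : 0 < 1 - θ := by linarith
  obtain ⟨ℓ, hℓ⟩ : ∃ ℓ : ℝ, ℓ = - Real.log (Real.sqrt θ) := ⟨_, rfl⟩
  have hℓ0 : 0 < ℓ := by
    rw [hℓ, neg_pos]
    exact Real.log_neg (Real.sqrt_pos.2 hθpos) (by
      rw [Real.sqrt_lt' one_pos, one_pow]
      exact hθ1)
  obtain ⟨c3, hc3⟩ : ∃ c3 : ℝ, c3 = min (1 / 4) c1 := ⟨_, rfl⟩
  have hc30 : 0 < c3 := by rw [hc3]; exact lt_min (by norm_num) hc1pos
  have hc34 : c3 ≤ 1 / 4 := by rw [hc3]; exact min_le_left _ _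
  have hc3c : c3 ^ 2 ≤ c1 := by
    have h1 : c3 ≤ c1 := by rw [hc3]; exact min_le_right _ _
    nlinarith
  obtain ⟨G1, hG1⟩ : ∃ G1 : ℝ, G1 = C0 * B / (1 - θ) / c1 ^ C₁ := ⟨_, rfl⟩
  obtain ⟨G2, hG2⟩ : ∃ G2 : ℝ, G2 = 2 * Real.exp (A ^ 2 / 2) := ⟨_, rfl⟩
  obtain ⟨G3, hG3⟩ : ∃ G3 : ℝ, G3 = 1 / (ℓ * c1) := ⟨_, rfl⟩
  obtain ⟨G4, hG4⟩ : ∃ G4 : ℝ, G4 = 2 * (1 + A) ^ 2 / c3 ^ 2 := ⟨_, rfl⟩
  have g1 : 0 ≤ G1 := by rw [hG1]; positivity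
  have g2 : 0 ≤ G2 := by rw [hG2]; positivity
  have g3 : 0 ≤ G3 := by rw [hG3]; positivity
  have g4 : 0 ≤ G4 := by rw [hG4]; positivity
  obtain ⟨G, hG⟩ : ∃ G : ℝ, G = G1 + G2 + G3 + G4 := ⟨_, rfl⟩
  have hG0 : 0 ≤ G := by rw [hG]; positivity
  have hdiv : 0 < 32 / ‖a - b‖ := by positivity
  have hdiv1 : 0 < 1 / c1 := by positivity
  obtain ⟨C, hCdef⟩ : ∃ C : ℝ, C = C₁ + 100 + 32 / ‖a - b‖ + G + 1 / c1 := ⟨_, rfl⟩
  have hC1r : (9 : ℝ) ≤ C₁ := by exact_mod_cast hC₁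
  have hC100 : 100 ≤ C := by rw [hCdef]; linarith
  have hCC1 : (C₁ : ℝ) ≤ C := by rw [hCdef]; linarith
  have hCab : 32 / ‖a - b‖ ≤ C := by rw [hCdef]; linarith
  have hCG : G ≤ C := by rw [hCdef]; linarith
  have hCc : 1 / c1 ≤ C := by rw [hCdef]; linarith
  refine ⟨K, hK, hKc, C, by linarith, ?_⟩
  intro δ hδ hCδ D p q hp hq hpa hqb hKD hpD hqD hDM hcl x hx hx'
  have hx0 : 0 < x := lt_of_lt_of_le xr_pos hx
  have hx1 : x ≤ 1 := by linarith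
  have hδ1 : δ ≤ 1 / 100 := by
    by_contra hcon
    have : 1 / 100 < δ := not_le.1 hcon
    nlinarith
  have hmono : ∀ x : ℝ, 0 ≤ x → C * x ≤ 1 → C₁ * x ≤ 1 := fun x hx h1 =>
    (mul_le_mul_of_nonneg_right hCC1 hx).trans h1
  obtain ⟨hpq, hlow⟩ := h δ hδ (hmono δ hδ.le hCδ) D p q hp hq (hmono _ (norm_nonneg _) hpa)
    (hmono _ (norm_nonneg _) hqb) hKD hpD hqD
  obtain ⟨D', hD', hDc⟩ := hcard δ hδ (by linarith) D hDM
  have hpm : p ∈ D := hpD (by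
    show ‖(δ : ℂ) * emb p - δ * emb p‖ < r ∧ 0 ≤ ε * (lv (emb p) - lv (emb p))
    simp [hr])
  have hfin : (Traj D p q).Finite := by
    rw [traj_eq, ← coe_TT hpm D' hD']
    exact Finset.finite_toSet _
  have hZlow : δ ^ C₁ ≤ Zx x D p q := by
    have h1 := hlow D (Set.Subset.refl D)
    rw [Z_eq hpm D' hD'] at h1
    have h2 : δ ^ C₁ ≤ Zr D p q := by
      refine (ENNReal.ofReal_le_ofReal_iff ?_).1 h1
      unfold Zr
      exact finsum_nonneg fun l => finsum_nonneg fun _ => by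
        have := xr_pos
        positivity
    refine h2.trans ?_
    unfold Zr Zx
    rw [finsum_mem_eq_finite_toFinset_sum _ hfin, finsum_mem_eq_finite_toFinset_sum _ hfin]
    exact Finset.sum_le_sum fun l _ => pow_le_pow_left₀ xr_pos.le hx _
  have hZ : 0 < Zx x D p q := lt_of_lt_of_le (by positivity) hZlow
  have hgood := good_Yx (q := q) hpm D' hD' hx0 hx1
  -- the walks are long
  have hdL : c1 / δ ≤ dst p q := by
    rw [hc1]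
    exact far hδ (by
      have := mul_le_mul_of_nonneg_right hCab hab'.le
      rw [div_mul_cancel₀ _ hab'.ne'] at this
      linarith) (by linarith) hpa hqb
  have hlong : ∀ m, ∀ w ∈ (Yp D p q).K m, c1 / δ ≤ m := by
    intro m w hw
    obtain ⟨h1, h2⟩ := (mem_Yp hpm).1 hw
    refine hdL.trans (sw_far (l := w.map (pi p)) (n := m) ?_ h2.2.1).1
    refine ⟨by rw [List.length_map, h1], h2.1, h2.2.2.2.1, h2.2.2.1⟩
  obtain ⟨n1, hn1⟩ : ∃ n1 : ℕ, n1 = ⌈c1 / δ⌉₊ := ⟨_, rfl⟩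
  have hcd : 0 < c1 / δ := by positivity
  have hn1c : c1 / δ ≤ n1 := by rw [hn1]; exact Nat.le_ceil _
  have hn1p : 0 < (n1 : ℝ) := lt_of_lt_of_le hcd hn1c
  have hn1' : 1 ≤ n1 := by exact_mod_cast hn1p
  have hKn : ∀ m, m < n1 → (Yp D p q).K m = ∅ := by
    intro m hm
    rw [Finset.eq_empty_iff_forall_notMem]
    intro w hw
    have h1 := hlong m w hw
    have h2 : n1 ≤ m := by
      rw [hn1]
      exact Nat.ceil_le.2 h1
    omega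
  have h0 : Dp D p 0 := by
    unfold Dp
    rwa [pi_zero]
  have hclD : Cl D := by
    intro v hv
    obtain ⟨u, u', h1, h2, h3, h4⟩ := hcl v hv
    rw [nbr_eq] at h2 h3
    exact ⟨u, u', h1, h2, h3, h4⟩
  have hbad : Ex (Yp D p q) x D'.card (bd (Yp D p q) κ) ≤ C0 * θ ^ n1 / (1 - θ) := by
    have hxθ : x * (459 / 250) ≤ θ := by
      rw [hθ]
      exact mul_le_mul_of_nonneg_right hx' (by norm_num)
    have h1 : Ex (Yp D p q) x D'.card (bd (Yp D p q) κ) ≤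
        C0 * (x * (459 / 250)) ^ n1 / (1 - x * (459 / 250)) := by
      rw [hκ]
      refine bad_le Hex.rule (ps p q) hx0 D'.card h0
        (fun U U' hT hx => closed hclD p U U' hT hx) (by norm_num) (by norm_num)
        (lt_of_le_of_lt hxθ hθ1) hC00 (fun n => (hC0' n).trans ?_) n1 hn1' hKn
      rw [hC0]
      exact mul_le_mul_of_nonneg_right (le_abs_self _) (by positivity)
    refine h1.trans (div_le_div₀ (by positivity) ?_ hθ2 (by linarith))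
    exact mul_le_mul_of_nonneg_left (pow_le_pow_left₀ (by positivity) hxθ _) hC00
  refine ⟨hfin, hZ, ?_⟩
  intro s hs0 hsδ
  have hCpos : 0 < C := by linarith
  have hs2 : c1 * s ^ 2 ≤ c1 / δ := by
    rw [le_div_iff₀ hδ]
    nlinarith
  have ht := tail hgood (κ := κ) (s := c3 * s) hκ0 (by positivity) (fun m w hw => by
    have h1 := hlong m w hw
    have h2 : (c3 * s) ^ 2 ≤ c1 * s ^ 2 := by
      rw [mul_pow]
      exact mul_le_mul_of_nonneg_right hc3c (sq_nonneg s)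
    linarith)
  rw [← Zx_eq hpm D' hD', s_eq, C_eq, ← hCC, ← hA, ← hG2] at ht
  have hb := bad_gauss C₁ n1 hθpos hθ1 hC00 hc1pos hδ hZlow hn1c hs0 hs2 hB0 (hB n1) hbad
  rw [← hG1, ← hℓ] at hb
  have hoff := off_le (q := q) hpm D' hD' hx0 hκ0 (c3 * s) (s / 4) (by nlinarith)
  have hM : Mx x D p q (offB x D (s / 4)) =
      (∑ᶠ l ∈ Traj D p q, x ^ (l.length - 1) * offB x D (s / 4) l) / Zx x D p q := rfl
  rw [hM, div_le_iff₀ hZ]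
  refine hoff.trans ((add_le_add hb ht).trans ?_)
  have hCG' : G1 + G2 ≤ C := by rw [hG] at hCG; linarith
  have k1 : Real.exp (-(ℓ * c1 * s ^ 2)) ≤ Real.exp (-(s ^ 2 / C)) := by
    refine Real.exp_le_exp.2 (neg_le_neg ?_)
    rw [div_le_iff₀ hCpos]
    have h1 : G3 ≤ C := by rw [hG] at hCG; linarith
    rw [hG3, div_le_iff₀ (by positivity)] at h1
    nlinarith [sq_nonneg s]
  have k2 : Real.exp (-((c3 * s) ^ 2 / (2 * (1 + A) ^ 2))) ≤ Real.exp (-(s ^ 2 / C)) := by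
    refine Real.exp_le_exp.2 (neg_le_neg ?_)
    have h1 : G4 ≤ C := by rw [hG] at hCG; linarith
    rw [hG4, div_le_iff₀ (by positivity)] at h1
    rw [div_le_div_iff₀ hCpos (by positivity)]
    nlinarith [sq_nonneg s]
  have hE := Real.exp_pos (-(s ^ 2 / C))
  calc G1 * Real.exp (-(ℓ * c1 * s ^ 2)) * Zx x D p q +
        G2 * Real.exp (-((c3 * s) ^ 2 / (2 * (1 + A) ^ 2))) * Zx x D p q
      ≤ G1 * Real.exp (-(s ^ 2 / C)) * Zx x D p q + G2 * Real.exp (-(s ^ 2 / C)) * Zx x D p q :=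
        add_le_add (mul_le_mul_of_nonneg_right (mul_le_mul_of_nonneg_left k1 g1) hZ.le)
          (mul_le_mul_of_nonneg_right (mul_le_mul_of_nonneg_left k2 g2) hZ.le)
    _ = (G1 + G2) * Real.exp (-(s ^ 2 / C)) * Zx x D p q := by ring
    _ ≤ C * Real.exp (-(s ^ 2 / C)) * Zx x D p q :=
        mul_le_mul_of_nonneg_right (mul_le_mul_of_nonneg_right hCG' hE.le) hZ.le

end Pool.Agent.K1H48.SO
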