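import Pool.Agent.K1H48.SO.Gc
import Pool.Agent.R131.LT.Fin

/-!
# The number of steps of the path of the O(0) model: second differences
-/

set_option autoImplicit false

namespace Pool.Agent.K1H48.SO

open Finset TH966.AK Pool.Agent.R131.LS Pool.Agent.R131.LT
open Pool.Agent.Y981.QB
open Pool.Agent.W832.HR (Nbr Traj xc Z emb lv HD Hd Bd)
open scoped Classical ENNReal

theorem dom_second (W : Set ℂ) (hW : IsOpen W) (hc : IsConnected W)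
    (a b : ℂ) (hab : a ≠ b) (ε ε' : ℝ) (hε : ε = 1 ∨ ε = -1) (hε' : ε' = 1 ∨ ε' = -1) (r : ℝ)
    (hr : 0 < r) (ha : HD a ε r ⊆ W) (hb : HD b ε' r ⊆ W) (M : ℝ) :
    ∃ K : Set ℂ, K ⊆ W ∧ IsCompact K ∧ ∃ C : ℝ, 1 ≤ C ∧ ∀ δ : ℝ, 0 < δ → C * δ ≤ 1 →
      ∀ (D : Set P) (p q : P), Bd ε p → Bd ε' q →
      C * ‖(δ : ℂ) * emb p - a‖ ≤ 1 → C * ‖(δ : ℂ) * emb q - b‖ ≤ 1 →
      (∀ v : P, (δ : ℂ) * emb v ∈ K → v ∈ D) → Hd δ ε r p ⊆ D → Hd δ ε' r q ⊆ D →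
      (∀ v ∈ D, ‖(δ : ℂ) * emb v‖ ≤ M) → Closed D → ∀ x : ℝ, xr ≤ x → x ≤ 544 / 1000 →
      (Traj D p q).Finite ∧ 0 < Zx x D p q ∧
      (0 < Mx x D p q (fun l => 1 / (((l.length - 1 : ℕ) : ℝ) + 1)) ∧
        Mx x D p q (fun l => 1 / (((l.length - 1 : ℕ) : ℝ) + 1)) ≤ C * δ) ∧
      ∀ (g : ℕ → ℝ), (∀ n, 0 ≤ g n ∧ g n ≤ 1) →
        |Mx x D p q (fun l => g (l.length - 1)) -
          2 * Mx x D p q (fun l => g (l.length - 1 + 2)) +
          Mx x D p q (fun l => g (l.length - 1 + 4))| ≤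
        C * Mx x D p q (fun l => 1 / (((l.length - 1 : ℕ) : ℝ) + 1)) := by
  obtain ⟨K, hK, hKc, C₁, hC₁, h⟩ := Pool.Agent.Y981.Sup.low W hW hc a b hab ε ε' hε hε' r hr ha hb
  obtain ⟨C₃, hC₃, hcard⟩ := domain_card M
  obtain ⟨C0', hC0'⟩ := Hex.poor
  obtain ⟨C0, hC0⟩ : ∃ C0 : ℝ, C0 = |C0'| := ⟨_, rfl⟩
  have hC00 : 0 ≤ C0 := by rw [hC0]; exact abs_nonneg _
  have hab' : 0 < ‖a - b‖ := norm_pos_iff.2 (sub_ne_zero.2 hab)
  obtain ⟨CC, hCC⟩ : ∃ c : ℝ, c = (Hex.rule.CC : ℝ) := ⟨_, rfl⟩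
  have hCC0 : 0 ≤ CC := by rw [hCC]; exact Nat.cast_nonneg _
  obtain ⟨θ, hθ⟩ : ∃ θ : ℝ, θ = 544 / 1000 * (459 / 250) := ⟨_, rfl⟩
  have hθ0 : 0 ≤ θ := by rw [hθ]; norm_num
  have hθ1 : θ < 1 := by rw [hθ]; norm_num
  obtain ⟨B, hB0, hB⟩ := absorb (C₁ + 1 + 1) hθ0 hθ1
  obtain ⟨c1, hc1⟩ : ∃ c1 : ℝ, c1 = ‖a - b‖ / 2 := ⟨_, rfl⟩
  have hc1pos : 0 < c1 := by rw [hc1]; positivity
  obtain ⟨κ, hκ⟩ : ∃ κ : ℝ, κ = 1 / (2 * ((10000 : ℕ) : ℝ)) := ⟨_, rfl⟩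
  have hκ0 : 0 < κ := by rw [hκ]; norm_num
  obtain ⟨A1, hA1⟩ : ∃ A1 : ℝ, A1 = C0 * B / (1 - θ) / c1 ^ (C₁ + 1 + 1) * C₃ := ⟨_, rfl⟩
  obtain ⟨A2, hA2⟩ : ∃ A2 : ℝ, A2 = 4 + 2 * CC / κ := ⟨_, rfl⟩
  obtain ⟨A3, hA3⟩ : ∃ A3 : ℝ, A3 = CC * (CC + κ * ((2 : ℕ) : ℝ)) / κ ^ 2 +
    2 * CC ^ 2 * (1 + ((2 : ℕ) : ℝ)) / κ ^ 2 +
    CC * (2 * CC / κ ^ 2 + 2 * CC * (CC + κ * ((2 : ℕ) : ℝ)) / κ ^ 3) := ⟨_, rfl⟩
  have hθ2 : 0 < 1 - θ := by linarith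
  have g1 : 0 ≤ A1 := by rw [hA1]; positivity
  have g2 : 0 ≤ A2 := by rw [hA2]; positivity
  have g3 : 0 ≤ A3 := by rw [hA3]; positivity
  obtain ⟨G, hG⟩ : ∃ G : ℝ, G = A2 * A1 + A3 := ⟨_, rfl⟩
  have hG0 : 0 ≤ G := by rw [hG]; positivity
  have hdiv : 0 < 32 / ‖a - b‖ := by positivity
  have hdiv1 : 0 < 1 / c1 := by positivity
  obtain ⟨C, hCdef⟩ : ∃ C : ℝ, C = C₁ + 100 + 32 / ‖a - b‖ + G + 1 / c1 := ⟨_, rfl⟩
  have hC1r : (9 : ℝ) ≤ C₁ := by exact_mod_cast hC₁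
  have hC100 : 100 ≤ C := by rw [hCdef]; linarith
  have hCC1 : (C₁ : ℝ) ≤ C := by rw [hCdef]; linarith
  have hCab : 32 / ‖a - b‖ ≤ C := by rw [hCdef]; linarith
  have hCG : G ≤ C := by rw [hCdef]; linarith
  have hCc : 1 / c1 ≤ C := by rw [hCdef]; linarith
  refine ⟨K, hK, hKc, C, by linarith, ?_⟩
  intro δ hδ hCδ D p q hp hq hpa hqb hKD hpD hqD hDM hcl x hx hx'
  have hx0 : 0 < x := lt_of_lt_of_le xr_pos hx
  have hx1 : x ≤ 1 := by linarith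
  have hδ1 : δ ≤ 1 / 100 := by
    by_contra hcon
    have : 1 / 100 < δ := not_le.1 hcon
    nlinarith
  have hmono : ∀ x : ℝ, 0 ≤ x → C * x ≤ 1 → C₁ * x ≤ 1 := fun x hx h1 =>
    (mul_le_mul_of_nonneg_right hCC1 hx).trans h1
  obtain ⟨hpq, hlow⟩ := h δ hδ (hmono δ hδ.le hCδ) D p q hp hq (hmono _ (norm_nonneg _) hpa)
    (hmono _ (norm_nonneg _) hqb) hKD hpD hqD
  obtain ⟨D', hD', hDc⟩ := hcard δ hδ (by linarith) D hDM
  have hpm : p ∈ D := hpD (by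
    show ‖(δ : ℂ) * emb p - δ * emb p‖ < r ∧ 0 ≤ ε * (lv (emb p) - lv (emb p))
    simp [hr])
  have hfin : (Traj D p q).Finite := by
    rw [traj_eq, ← coe_TT hpm D' hD']
    exact Finset.finite_toSet _
  have hZlow : δ ^ C₁ ≤ Zx x D p q := by
    have h1 := hlow D (Set.Subset.refl D)
    rw [Z_eq hpm D' hD'] at h1
    have h2 : δ ^ C₁ ≤ Zr D p q := by
      refine (ENNReal.ofReal_le_ofReal_iff ?_).1 h1
      unfold Zr
      exact finsum_nonneg fun l => finsum_nonneg fun _ => by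
        have := xr_pos
        positivity
    refine h2.trans ?_
    unfold Zr Zx
    rw [finsum_mem_eq_finite_toFinset_sum _ hfin, finsum_mem_eq_finite_toFinset_sum _ hfin]
    exact Finset.sum_le_sum fun l _ => pow_le_pow_left₀ xr_pos.le hx _
  have hZ : 0 < Zx x D p q := lt_of_lt_of_le (by positivity) hZlow
  have hgood := good_Yx (q := q) hpm D' hD' hx0 hx1
  -- the walks are long
  have hdL : c1 / δ ≤ dst p q := by
    rw [hc1]
    exact far hδ (by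
      have := mul_le_mul_of_nonneg_right hCab hab'.le
      rw [div_mul_cancel₀ _ hab'.ne'] at this
      linarith) (by linarith) hpa hqb
  have hlong : ∀ m, ∀ w ∈ (Yp D p q).K m, c1 / δ ≤ m := by
    intro m w hw
    obtain ⟨h1, h2⟩ := (mem_Yp hpm).1 hw
    refine hdL.trans (sw_far (l := w.map (pi p)) (n := m) ?_ h2.2.1).1
    refine ⟨by rw [List.length_map, h1], h2.1, h2.2.2.2.1, h2.2.2.1⟩
  obtain ⟨n1, hn1⟩ : ∃ n1 : ℕ, n1 = ⌈c1 / δ⌉₊ := ⟨_, rfl⟩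
  have hcd : 0 < c1 / δ := by positivity
  have hn1c : c1 / δ ≤ n1 := by rw [hn1]; exact Nat.le_ceil _
  have hn1p : 0 < (n1 : ℝ) := lt_of_lt_of_le hcd hn1c
  have hn1' : 1 ≤ n1 := by exact_mod_cast hn1p
  have hKn : ∀ m, m < n1 → (Yp D p q).K m = ∅ := by
    intro m hm
    rw [Finset.eq_empty_iff_forall_notMem]
    intro w hw
    have h1 := hlong m w hw
    have h2 : n1 ≤ m := by
      rw [hn1]
      exact Nat.ceil_le.2 h1
    omega
  have h0 : Dp D p 0 := by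
    unfold Dp
    rwa [pi_zero]
  have hclD : Cl D := by
    intro v hv
    obtain ⟨u, u', h1, h2, h3, h4⟩ := hcl v hv
    rw [nbr_eq] at h2 h3
    exact ⟨u, u', h1, h2, h3, h4⟩
  have hbad : Ex (Yp D p q) x D'.card (bd (Yp D p q) κ) ≤ C0 * θ ^ n1 / (1 - θ) := by
    have hxθ : x * (459 / 250) ≤ θ := by
      rw [hθ]
      exact mul_le_mul_of_nonneg_right hx' (by norm_num)
    have h1 : Ex (Yp D p q) x D'.card (bd (Yp D p q) κ) ≤
        C0 * (x * (459 / 250)) ^ n1 / (1 - x * (459 / 250)) := by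
      rw [hκ]
      refine bad_le Hex.rule (ps p q) hx0 D'.card h0
        (fun U U' hT hx => closed hclD p U U' hT hx) (by norm_num) (by norm_num)
        (lt_of_le_of_lt hxθ hθ1) hC00 (fun n => (hC0' n).trans ?_) n1 hn1' hKn
      rw [hC0]
      exact mul_le_mul_of_nonneg_right (le_abs_self _) (by positivity)
    refine h1.trans (div_le_div₀ (by positivity) ?_ hθ2 (by linarith))
    exact mul_le_mul_of_nonneg_left (pow_le_pow_left₀ (by positivity) hxθ _) hC00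
  -- the mean of the inverse length
  obtain ⟨R1, hR1⟩ : ∃ R1 : ℝ, R1 = Ex (Yp D p q) x D'.card (fun m _ => 1 / ((m : ℝ) + 1)) :=
    ⟨_, rfl⟩
  obtain ⟨R, hR⟩ : ∃ R : ℝ, R = Mx x D p q (fun l => 1 / (((l.length - 1 : ℕ) : ℝ) + 1)) :=
    ⟨_, rfl⟩
  have hRR : R1 = R * Zx x D p q := by
    rw [hR, hR1]
    unfold Mx
    rw [div_mul_cancel₀ _ hZ.ne', sumx_eq hpm D' hD' x (fun m _ => 1 / ((m : ℝ) + 1))]
  have hRlow : δ ^ 2 / C₃ ≤ R := by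
    have h1 : δ ^ 2 / C₃ * Zx x D p q ≤ R1 := by
      rw [Zx_eq hpm D' hD', hR1, ← Ex_mul]
      refine Ex_mono hx0 fun m w hw => ?_
      have h2 : ((m : ℝ) + 1) ≤ C₃ * (1 / δ) ^ 2 := by
        refine le_trans ?_ hDc
        exact_mod_cast K_card hpm D' hD' hw
      rw [mul_one, div_le_div_iff₀ (by linarith) (by positivity)]
      have h3 : δ ^ 2 * ((m : ℝ) + 1) ≤ δ ^ 2 * (C₃ * (1 / δ) ^ 2) :=
        mul_le_mul_of_nonneg_left h2 (by positivity)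
      have h4 : δ ^ 2 * (C₃ * (1 / δ) ^ 2) = C₃ := by
        field_simp
      linarith
    rw [hRR] at h1
    exact le_of_mul_le_mul_right h1 hZ
  have hRup : R ≤ 1 / c1 * δ := by
    have h1 : R1 ≤ 1 / c1 * δ * Zx x D p q := by
      rw [Zx_eq hpm D' hD', hR1, ← Ex_mul]
      refine Ex_mono hx0 fun m w hw => ?_
      have h2 := hlong m w hw
      have h3 : 1 / c1 * δ = 1 / (c1 / δ) := by
        field_simp
      rw [mul_one, h3]
      exact one_div_le_one_div_of_le hcd (by linarith)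
    rw [hRR] at h1
    exact le_of_mul_le_mul_right h1 hZ
  have hR0 : 0 < R := lt_of_lt_of_le (by positivity) hRlow
  have hR1' : R ≤ 1 := by
    refine hRup.trans ?_
    exact (mul_le_mul_of_nonneg_right hCc hδ.le).trans hCδ
  refine ⟨hfin, hZ, ⟨by rw [← hR]; exact hR0, by
    rw [← hR]; exact hRup.trans (mul_le_mul_of_nonneg_right hCc hδ.le)⟩, ?_⟩
  intro g hg
  rw [← hR]
  have hm := gc_second hgood (κ := κ) hκ0 g hg
  rw [s_eq, C_eq, ← hCC, ← hR1, hRR] at hm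
  have e1 : Mx x D p q (fun l => g (l.length - 1)) =
      Ex (Yp D p q) x D'.card (fun m _ => g m) / Zx x D p q := by
    unfold Mx
    rw [sumx_eq hpm D' hD' x (fun m _ => g m)]
  have e2 : Mx x D p q (fun l => g (l.length - 1 + 2)) =
      Ex (Yp D p q) x D'.card (fun m _ => g (m + 2)) / Zx x D p q := by
    unfold Mx
    rw [sumx_eq hpm D' hD' x (fun m _ => g (m + 2))]
  have e3 : Mx x D p q (fun l => g (l.length - 1 + 4)) =
      Ex (Yp D p q) x D'.card (fun m _ => g (m + 2 + 2)) / Zx x D p q := by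
    unfold Mx
    rw [sumx_eq hpm D' hD' x (fun m _ => g (m + 4))]
  have e4 : Ex (Yp D p q) x D'.card (fun m _ => g m) / Zx x D p q -
      2 * (Ex (Yp D p q) x D'.card (fun m _ => g (m + 2)) / Zx x D p q) +
      Ex (Yp D p q) x D'.card (fun m _ => g (m + 2 + 2)) / Zx x D p q =
      (Ex (Yp D p q) x D'.card (fun m _ => g m) -
        2 * Ex (Yp D p q) x D'.card (fun m _ => g (m + 2)) +
        Ex (Yp D p q) x D'.card (fun m _ => g (m + 2 + 2))) / Zx x D p q := by ring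
  rw [e1, e2, e3, e4, abs_div, abs_of_pos hZ, div_le_iff₀ hZ]
  refine hm.trans ?_
  have b1 := bad_num (C₁ + 1) n1 (ζ := δ) (Z := δ * Zx x D p q) hC00 hB0 hc1pos hδ le_rfl
    (mul_pos hδ hZ) (by
      rw [pow_succ, mul_comm]
      exact mul_le_mul_of_nonneg_left hZlow hδ.le) hθ0 hθ2 hn1c (hB n1)
  have b2 : C0 * B / (1 - θ) / c1 ^ (C₁ + 1 + 1) * δ * (δ * Zx x D p q) ≤
      A1 * (R * Zx x D p q) := by
    rw [div_le_iff₀ (by linarith)] at hRlow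
    have h1 : C0 * B / (1 - θ) / c1 ^ (C₁ + 1 + 1) * δ * (δ * Zx x D p q) =
        C0 * B / (1 - θ) / c1 ^ (C₁ + 1 + 1) * Zx x D p q * δ ^ 2 := by ring
    have h2 : A1 * (R * Zx x D p q) =
        C0 * B / (1 - θ) / c1 ^ (C₁ + 1 + 1) * Zx x D p q * (R * C₃) := by rw [hA1]; ring
    rw [h1, h2]
    exact mul_le_mul_of_nonneg_left hRlow (by positivity)
  have b3 : Ex (Yp D p q) x D'.card (bd (Yp D p q) κ) ≤ A1 * (R * Zx x D p q) :=
    (hbad.trans b1).trans b2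
  rw [← hA2, ← hA3]
  calc A2 * Ex (Yp D p q) x D'.card (bd (Yp D p q) κ) + A3 * (R * Zx x D p q)
      ≤ A2 * (A1 * (R * Zx x D p q)) + A3 * (R * Zx x D p q) :=
        add_le_add (mul_le_mul_of_nonneg_left b3 g2) le_rfl
    _ = G * (R * Zx x D p q) := by rw [hG]; ring
    _ ≤ C * (R * Zx x D p q) := mul_le_mul_of_nonneg_right hCG (by positivity)
    _ = _ := by ring

end Pool.Agent.K1H48.SO
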