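import Pool.Agent.K1H48.SO.Gc
import Mathlib

/-!
# Geometric weights: Gaussian concentration of the balance of the moves
-/

set_option autoImplicit false

namespace Pool.Agent.K1H48.SO

open Finset TH966.AK Pool.Agent.R131.LS
open scoped Classical

theorem exp_sub_one (y : ℝ) : |Real.exp y - 1| ≤ |y| * Real.exp |y| := by
  rcases le_total 0 y with h | h
  · rw [abs_of_nonneg h]
    have h1 := Real.add_one_le_exp (-y)
    have h2 : 1 ≤ Real.exp y := Real.one_le_exp h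
    rw [abs_of_nonneg (by linarith)]
    have h3 : (-y + 1) * Real.exp y ≤ Real.exp (-y) * Real.exp y :=
      mul_le_mul_of_nonneg_right h1 (Real.exp_pos _).le
    rw [← Real.exp_add, neg_add_cancel, Real.exp_zero] at h3
    linarith
  · rw [abs_of_nonpos h]
    have h1 := Real.add_one_le_exp y
    have h2 : Real.exp y ≤ 1 := Real.exp_le_one_iff.2 h
    have h3 : 1 ≤ Real.exp (-y) := Real.one_le_exp (by linarith)
    rw [abs_of_nonpos (by linarith)]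
    have h4 : -y * 1 ≤ -y * Real.exp (-y) := mul_le_mul_of_nonneg_left h3 (by linarith)
    linarith

theorem key_num {ρ φ v v' l c1 c2 κ P' : ℝ} (hρ : 1 ≤ ρ) (hκ : 0 < κ) (hc1 : 0 ≤ c1)
    (hc2 : 0 ≤ c2) (hφ : 0 < φ) (hφ1 : φ ≤ 1 / (κ * ρ ^ 2)) (hd : |P' - φ * ρ| ≤ c2 / ρ ^ 3)
    (hv : |v' - v| ≤ c1 / ρ) (hl : |l| ≤ ρ) :
    |P' * Real.exp (l * v') - φ * ρ * Real.exp (l * v)| ≤
      Real.exp c1 * (c2 / ρ ^ 3 + |l| * c1 / (κ * ρ ^ 2)) * Real.exp (l * v) := by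
  have hρ0 : 0 < ρ := by linarith
  obtain ⟨y, hy⟩ : ∃ y : ℝ, y = l * (v' - v) := ⟨_, rfl⟩
  have hy1 : |y| ≤ |l| * (c1 / ρ) := by
    rw [hy, abs_mul]
    exact mul_le_mul_of_nonneg_left hv (abs_nonneg _)
  have hy2 : |y| ≤ c1 := by
    refine hy1.trans ?_
    calc |l| * (c1 / ρ) ≤ ρ * (c1 / ρ) := mul_le_mul_of_nonneg_right hl (by positivity)
      _ = c1 := by field_simp
  have e1 : Real.exp (l * v') = Real.exp (l * v) * Real.exp y := by
    rw [← Real.exp_add, hy]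
    congr 1
    ring
  have h1 : Real.exp y ≤ Real.exp c1 := Real.exp_le_exp.2 ((le_abs_self _).trans hy2)
  have h2 : |Real.exp y - 1| ≤ |l| * (c1 / ρ) * Real.exp c1 := by
    refine (exp_sub_one y).trans ?_
    exact mul_le_mul hy1 (Real.exp_le_exp.2 hy2) (Real.exp_pos _).le (by positivity)
  have e2 : P' * Real.exp (l * v') - φ * ρ * Real.exp (l * v) =
      ((P' - φ * ρ) * Real.exp y + φ * ρ * (Real.exp y - 1)) * Real.exp (l * v) := by
    rw [e1]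
    ring
  rw [e2, abs_mul, abs_of_pos (Real.exp_pos (l * v))]
  refine mul_le_mul_of_nonneg_right ?_ (Real.exp_pos _).le
  refine (abs_add_le _ _).trans ?_
  rw [abs_mul, abs_mul, abs_of_pos (Real.exp_pos y), abs_of_pos (show 0 < φ * ρ by positivity)]
  have k1 : |P' - φ * ρ| * Real.exp y ≤ c2 / ρ ^ 3 * Real.exp c1 :=
    mul_le_mul hd h1 (Real.exp_pos _).le (by positivity)
  have k2 : φ * ρ * |Real.exp y - 1| ≤ 1 / (κ * ρ ^ 2) * ρ * (|l| * (c1 / ρ) * Real.exp c1) :=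
    mul_le_mul (mul_le_mul_of_nonneg_right hφ1 hρ0.le) h2 (abs_nonneg _) (by positivity)
  refine (add_le_add k1 k2).trans (le_of_eq ?_)
  field_simp

variable {α σ : Type} {Y : Sys α σ} {x : ℝ} {N : ℕ}

/-- the normalized balance -/
noncomputable def vv (Y : Sys α σ) (x κ : ℝ) (m : ℕ) (w : α) : ℝ :=
  Real.sqrt ((m : ℝ) + 1) * uu Y x κ m w

theorem uu_ins (H : Good Y x N) {κ : ℝ} (hκ : 0 < κ) {m : ℕ} {w : α} {q : σ}
    (hw : w ∈ Y.K m) (hq : q ∈ Y.S w) :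
    |uu Y x κ (m + Y.s) (Y.ins w q) - uu Y x κ m w| ≤
      (2 * Y.C / κ + Y.C * (Y.C + κ * Y.s) / κ ^ 2) / ((m : ℝ) + 1) := by
  have hC : (0 : ℝ) ≤ Y.C := Nat.cast_nonneg _
  have hs : (0 : ℝ) ≤ Y.s := Nat.cast_nonneg _
  have ha0 : 0 < (m : ℝ) + 1 := by positivity
  have d1 := dd_ins H hw hq
  have d2 := dd_le H hw
  have p1 := ph_ins (Y := Y) hκ hw hq
  have p4 := ph_le (Y := Y) hκ (m + Y.s) (Y.ins w q)
  have p5 := ph_pos (Y := Y) hκ (m + Y.s) (Y.ins w q)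
  have p6 : ph Y κ (m + Y.s) (Y.ins w q) ≤ 1 / (κ * ((m : ℝ) + 1)) := by
    refine p4.trans (one_div_le_one_div_of_le (by positivity) ?_)
    push_cast
    nlinarith
  have e : uu Y x κ (m + Y.s) (Y.ins w q) - uu Y x κ m w =
      (dd Y x (Y.ins w q) - dd Y x w) * ph Y κ (m + Y.s) (Y.ins w q) +
      dd Y x w * (ph Y κ (m + Y.s) (Y.ins w q) - ph Y κ m w) := by
    unfold uu
    ring
  rw [e]
  refine (abs_add_le _ _).trans ?_
  rw [abs_mul, abs_mul, abs_of_pos p5, abs_sub_comm (dd Y x (Y.ins w q))]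
  have k1 : |dd Y x w - dd Y x (Y.ins w q)| * ph Y κ (m + Y.s) (Y.ins w q) ≤
      2 * Y.C * (1 / (κ * ((m : ℝ) + 1))) := mul_le_mul d1 p6 p5.le (by positivity)
  have k2 : |dd Y x w| * |ph Y κ (m + Y.s) (Y.ins w q) - ph Y κ m w| ≤
      (Y.C * (m + 1)) * ((Y.C + κ * Y.s) / (κ ^ 2 * ((m : ℝ) + 1) ^ 2)) :=
    mul_le_mul d2 p1 (abs_nonneg _) (by positivity)
  refine (add_le_add k1 k2).trans (le_of_eq ?_)
  field_simp

theorem rho (m s : ℕ) : 1 ≤ Real.sqrt ((m : ℝ) + 1) ∧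
    Real.sqrt ((m : ℝ) + 1) ≤ Real.sqrt (((m + s : ℕ) : ℝ) + 1) ∧
    Real.sqrt (((m + s : ℕ) : ℝ) + 1) ≤ (1 + s) * Real.sqrt ((m : ℝ) + 1) ∧
    Real.sqrt (((m + s : ℕ) : ℝ) + 1) - Real.sqrt ((m : ℝ) + 1) ≤
      s / Real.sqrt ((m : ℝ) + 1) := by
  have hm : (0 : ℝ) ≤ m := Nat.cast_nonneg _
  have hs : (0 : ℝ) ≤ s := Nat.cast_nonneg _
  have h1 : 1 ≤ Real.sqrt ((m : ℝ) + 1) := by
    rw [Real.one_le_sqrt]
    linarith
  have h2 : Real.sqrt ((m : ℝ) + 1) ≤ Real.sqrt (((m + s : ℕ) : ℝ) + 1) := by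
    refine Real.sqrt_le_sqrt ?_
    push_cast
    linarith
  have q1 := Real.sq_sqrt (show (0 : ℝ) ≤ (m : ℝ) + 1 by positivity)
  have q2 := Real.sq_sqrt (show (0 : ℝ) ≤ ((m + s : ℕ) : ℝ) + 1 by positivity)
  push_cast at q2 h2 ⊢
  obtain ⟨a, ha⟩ : ∃ a : ℝ, a = Real.sqrt ((m : ℝ) + 1) := ⟨_, rfl⟩
  obtain ⟨b, hb⟩ : ∃ b : ℝ, b = Real.sqrt ((m : ℝ) + s + 1) := ⟨_, rfl⟩
  rw [← ha] at h1 h2 q1 ⊢
  rw [← hb] at h2 q2 ⊢
  refine ⟨h1, h2, ?_, ?_⟩
  · have h3 : b ^ 2 ≤ ((1 + s) * a) ^ 2 := by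
      rw [mul_pow, q1, q2]
      nlinarith [mul_nonneg hs hm, mul_nonneg (sq_nonneg (s : ℝ)) hm, sq_nonneg (s : ℝ)]
    exact (pow_le_pow_iff_left₀ (by linarith) (by positivity) (by norm_num)).1 h3
  · rw [le_div_iff₀ (by linarith)]
    have h3 : (b - a) * (b + a) = s := by
      have : (b - a) * (b + a) = b ^ 2 - a ^ 2 := by ring
      rw [this, q1, q2]
      ring
    nlinarith

/-- the constants -/
noncomputable def k0 (C κ s : ℝ) : ℝ := 2 * C / κ + C * (C + κ * s) / κ ^ 2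
/-- the constants -/
noncomputable def k1 (C κ s : ℝ) : ℝ := (1 + s) * k0 C κ s + s * C / κ
/-- the constants -/
noncomputable def k2 (C κ s : ℝ) : ℝ := (1 + s) * (C + κ * s) / κ ^ 2 + s / κ
/-- the constants -/
noncomputable def kA (C κ s : ℝ) : ℝ := C * Real.exp (k1 C κ s) * (k2 C κ s + k1 C κ s / κ)

theorem k0_nonneg {C κ s : ℝ} (hC : 0 ≤ C) (hκ : 0 < κ) (hs : 0 ≤ s) : 0 ≤ k0 C κ s := by
  unfold k0; positivity

theorem k1_nonneg {C κ s : ℝ} (hC : 0 ≤ C) (hκ : 0 < κ) (hs : 0 ≤ s) : 0 ≤ k1 C κ s := by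
  unfold k1
  have := k0_nonneg hC hκ hs
  positivity

theorem k2_nonneg {C κ s : ℝ} (hC : 0 ≤ C) (hκ : 0 < κ) (hs : 0 ≤ s) : 0 ≤ k2 C κ s := by
  unfold k2; positivity

theorem kA_nonneg {C κ s : ℝ} (hC : 0 ≤ C) (hκ : 0 < κ) (hs : 0 ≤ s) : 0 ≤ kA C κ s := by
  unfold kA
  have h1 := k1_nonneg hC hκ hs
  have h2 := k2_nonneg hC hκ hs
  positivity

theorem vv_ins (H : Good Y x N) {κ : ℝ} (hκ : 0 < κ) {m : ℕ} {w : α} {q : σ}
    (hw : w ∈ Y.K m) (hq : q ∈ Y.S w) :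
    |vv Y x κ (m + Y.s) (Y.ins w q) - vv Y x κ m w| ≤
      k1 Y.C κ Y.s / Real.sqrt ((m : ℝ) + 1) := by
  have hC : (0 : ℝ) ≤ Y.C := Nat.cast_nonneg _
  have hs : (0 : ℝ) ≤ Y.s := Nat.cast_nonneg _
  obtain ⟨r1, r2, r3, r4⟩ := rho m Y.s
  have h1 := uu_ins H hκ hw hq
  have h2 := uu_le H hκ hw
  have q1 := Real.sq_sqrt (show (0 : ℝ) ≤ (m : ℝ) + 1 by positivity)
  have hk0 := k0_nonneg hC hκ hs
  have e0 : 2 * (Y.C : ℝ) / κ + Y.C * (Y.C + κ * Y.s) / κ ^ 2 = k0 Y.C κ Y.s := rfl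
  rw [e0, ← q1] at h1
  unfold vv
  obtain ⟨a, ha⟩ : ∃ a : ℝ, a = Real.sqrt ((m : ℝ) + 1) := ⟨_, rfl⟩
  obtain ⟨b, hb⟩ : ∃ b : ℝ, b = Real.sqrt (((m + Y.s : ℕ) : ℝ) + 1) := ⟨_, rfl⟩
  rw [← ha] at r1 r2 r3 r4 h1 ⊢
  rw [← hb] at r2 r3 r4 ⊢
  have ha0 : 0 < a := by linarith
  have e : b * uu Y x κ (m + Y.s) (Y.ins w q) - a * uu Y x κ m w =
      b * (uu Y x κ (m + Y.s) (Y.ins w q) - uu Y x κ m w) + (b - a) * uu Y x κ m w := by ring
  rw [e]
  refine (abs_add_le _ _).trans ?_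
  rw [abs_mul, abs_mul, abs_of_pos (show 0 < b by linarith),
    abs_of_nonneg (show 0 ≤ b - a by linarith)]
  have j1 : b * |uu Y x κ (m + Y.s) (Y.ins w q) - uu Y x κ m w| ≤
      ((1 + Y.s) * a) * (k0 Y.C κ Y.s / a ^ 2) :=
    mul_le_mul r3 h1 (abs_nonneg _) (by positivity)
  have j2 : (b - a) * |uu Y x κ m w| ≤ (Y.s / a) * (Y.C / κ) :=
    mul_le_mul r4 h2 (abs_nonneg _) (by positivity)
  refine (add_le_add j1 j2).trans (le_of_eq ?_)
  unfold k1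
  field_simp

theorem phr_ins {κ : ℝ} (hκ : 0 < κ) {m : ℕ} {w : α} {q : σ}
    (hw : w ∈ Y.K m) (hq : q ∈ Y.S w) :
    |ph Y κ (m + Y.s) (Y.ins w q) * Real.sqrt (((m + Y.s : ℕ) : ℝ) + 1) -
      ph Y κ m w * Real.sqrt ((m : ℝ) + 1)| ≤
      k2 Y.C κ Y.s / Real.sqrt ((m : ℝ) + 1) ^ 3 := by
  have hC : (0 : ℝ) ≤ Y.C := Nat.cast_nonneg _
  have hs : (0 : ℝ) ≤ Y.s := Nat.cast_nonneg _
  obtain ⟨r1, r2, r3, r4⟩ := rho m Y.s
  have p1 := ph_ins (Y := Y) hκ hw hq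
  have p2 := ph_le (Y := Y) hκ m w
  have p3 := ph_pos (Y := Y) hκ m w
  have q1 := Real.sq_sqrt (show (0 : ℝ) ≤ (m : ℝ) + 1 by positivity)
  rw [← q1] at p1 p2
  obtain ⟨a, ha⟩ : ∃ a : ℝ, a = Real.sqrt ((m : ℝ) + 1) := ⟨_, rfl⟩
  obtain ⟨b, hb⟩ : ∃ b : ℝ, b = Real.sqrt (((m + Y.s : ℕ) : ℝ) + 1) := ⟨_, rfl⟩
  rw [← ha] at r1 r2 r3 r4 p1 p2 ⊢
  rw [← hb] at r2 r3 r4 ⊢
  have ha0 : 0 < a := by linarith
  have e : ph Y κ (m + Y.s) (Y.ins w q) * b - ph Y κ m w * a =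
      (ph Y κ (m + Y.s) (Y.ins w q) - ph Y κ m w) * b + ph Y κ m w * (b - a) := by ring
  rw [e]
  refine (abs_add_le _ _).trans ?_
  rw [abs_mul, abs_mul, abs_of_pos (show 0 < b by linarith),
    abs_of_nonneg (show 0 ≤ b - a by linarith), abs_of_pos p3]
  have j1 : |ph Y κ (m + Y.s) (Y.ins w q) - ph Y κ m w| * b ≤
      (Y.C + κ * Y.s) / (κ ^ 2 * (a ^ 2) ^ 2) * ((1 + Y.s) * a) :=
    mul_le_mul p1 r3 (by linarith) (by positivity)
  have j2 : ph Y κ m w * (b - a) ≤ 1 / (κ * a ^ 2) * (Y.s / a) :=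
    mul_le_mul p2 r4 (by linarith) (by positivity)
  refine (add_le_add j1 j2).trans (le_of_eq ?_)
  unfold k2
  field_simp

/-- **integration by parts for exponentials** -/
theorem mom (H : Good Y x N) {κ l : ℝ} (hκ : 0 < κ)
    (hl : ∀ m, ∀ w ∈ Y.K m, l ^ 2 ≤ (m : ℝ) + 1) :
    |Ex Y x N (fun m w => vv Y x κ m w * Real.exp (l * vv Y x κ m w))| ≤
      kA Y.C κ Y.s * (1 + |l|) * Ex Y x N (fun m w => Real.exp (l * vv Y x κ m w)) := by
  have hx0 := H.x0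
  have hC : (0 : ℝ) ≤ Y.C := Nat.cast_nonneg _
  have hs : (0 : ℝ) ≤ Y.s := Nat.cast_nonneg _
  have hp0 : 0 ≤ x ^ Y.s := by positivity
  have hp1 : x ^ Y.s ≤ 1 := pow_le_one₀ hx0.le H.x1
  have hk1 := k1_nonneg hC hκ hs
  have hk2 := k2_nonneg hC hκ hs
  have a3 := T_eq H κ (fun m w => Real.sqrt ((m : ℝ) + 1) * Real.exp (l * vv Y x κ m w))
  have e1 : Ex Y x N (fun m w => vv Y x κ m w * Real.exp (l * vv Y x κ m w)) =
      - Ex Y x N (fun m w => x ^ Y.s * ∑ q ∈ Y.S w,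
        (ph Y κ (m + Y.s) (Y.ins w q) * Real.sqrt (((m + Y.s : ℕ) : ℝ) + 1) *
          Real.exp (l * vv Y x κ (m + Y.s) (Y.ins w q)) -
        ph Y κ m w * Real.sqrt ((m : ℝ) + 1) * Real.exp (l * vv Y x κ m w))) := by
    have e2 : Ex Y x N (fun m w => vv Y x κ m w * Real.exp (l * vv Y x κ m w)) =
        Ex Y x N (fun m w => x ^ Y.s * ((Y.S w).card : ℝ) * (ph Y κ m w *
          Real.sqrt ((m : ℝ) + 1) * Real.exp (l * vv Y x κ m w))) -
        Ex Y x N (fun m w => ((Y.B w).card : ℝ) * ph Y κ m w *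
          (Real.sqrt ((m : ℝ) + 1) * Real.exp (l * vv Y x κ m w))) := by
      rw [← Ex_sub]
      congr 1
      funext m w
      conv_lhs =>
        lhs
        unfold vv uu dd
      ring
    rw [e2, a3, ← Ex_sub]
    have e3 : ∀ φ : ℕ → α → ℝ, - Ex Y x N φ = Ex Y x N (fun m w => (-1) * φ m w) := by
      intro φ
      rw [Ex_mul]
      ring
    rw [e3]
    congr 1
    funext m w
    rw [Finset.sum_sub_distrib, Finset.sum_const, nsmul_eq_mul]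
    have e4 : ∑ q ∈ Y.S w, ph Y κ (m + Y.s) (Y.ins w q) *
        (Real.sqrt (((m + Y.s : ℕ) : ℝ) + 1) *
          Real.exp (l * vv Y x κ (m + Y.s) (Y.ins w q))) =
        ∑ q ∈ Y.S w, ph Y κ (m + Y.s) (Y.ins w q) *
        Real.sqrt (((m + Y.s : ℕ) : ℝ) + 1) *
          Real.exp (l * vv Y x κ (m + Y.s) (Y.ins w q)) :=
      Finset.sum_congr rfl fun q _ => by ring
    rw [e4]
    ring
  rw [e1, abs_neg, ← Ex_mul]
  refine (Ex_abs hx0 _).trans (Ex_mono hx0 fun m w hw => ?_)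
  rw [abs_mul, abs_of_nonneg hp0]
  obtain ⟨r1, r2, r3, r4⟩ := rho m Y.s
  have q1 := Real.sq_sqrt (show (0 : ℝ) ≤ (m : ℝ) + 1 by positivity)
  have hla : |l| ≤ Real.sqrt ((m : ℝ) + 1) := by
    rw [← Real.sqrt_sq_eq_abs]
    exact Real.sqrt_le_sqrt (hl m w hw)
  have h2 : ∀ q ∈ Y.S w, |ph Y κ (m + Y.s) (Y.ins w q) * Real.sqrt (((m + Y.s : ℕ) : ℝ) + 1) *
          Real.exp (l * vv Y x κ (m + Y.s) (Y.ins w q)) -
        ph Y κ m w * Real.sqrt ((m : ℝ) + 1) * Real.exp (l * vv Y x κ m w)| ≤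
      Real.exp (k1 Y.C κ Y.s) * (k2 Y.C κ Y.s / Real.sqrt ((m : ℝ) + 1) ^ 3 +
        |l| * k1 Y.C κ Y.s / (κ * Real.sqrt ((m : ℝ) + 1) ^ 2)) *
        Real.exp (l * vv Y x κ m w) := by
    intro q hq
    refine key_num r1 hκ hk1 hk2 (ph_pos hκ m w) ?_ (phr_ins hκ hw hq) (vv_ins H hκ hw hq) hla
    rw [q1]
    exact ph_le hκ m w
  have h3 : ((Y.S w).card : ℝ) ≤ Y.C * (m + 1) := by exact_mod_cast Y.S_le m w hw
  obtain ⟨a, ha⟩ : ∃ a : ℝ, a = Real.sqrt ((m : ℝ) + 1) := ⟨_, rfl⟩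
  rw [← ha] at r1 q1
  have ha0 : 0 < a := by linarith
  refine (mul_le_of_le_one_left (abs_nonneg _) hp1).trans ?_
  refine (abs_sum_le_sum_abs _ _).trans ((sum_le_card_nsmul _ _ _ h2).trans ?_)
  rw [nsmul_eq_mul, ← ha]
  have hE := Real.exp_pos (l * vv Y x κ m w)
  have hE1 := Real.exp_pos (k1 Y.C κ Y.s)
  refine (mul_le_mul_of_nonneg_right h3 (by positivity)).trans ?_
  rw [← q1]
  have e5 : (Y.C : ℝ) * a ^ 2 * (Real.exp (k1 Y.C κ Y.s) * (k2 Y.C κ Y.s / a ^ 3 +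
      |l| * k1 Y.C κ Y.s / (κ * a ^ 2)) * Real.exp (l * vv Y x κ m w)) =
      Y.C * Real.exp (k1 Y.C κ Y.s) * Real.exp (l * vv Y x κ m w) *
        (k2 Y.C κ Y.s * (1 / a) + |l| * (k1 Y.C κ Y.s / κ)) := by
    field_simp
  have e6 : kA Y.C κ Y.s * (1 + |l|) * Real.exp (l * vv Y x κ m w) =
      Y.C * Real.exp (k1 Y.C κ Y.s) * Real.exp (l * vv Y x κ m w) *
        ((k2 Y.C κ Y.s + k1 Y.C κ Y.s / κ) * (1 + |l|)) := by
    unfold kA
    ring
  rw [e5, e6]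
  refine mul_le_mul_of_nonneg_left ?_ (by positivity)
  have h5 : 1 / a ≤ 1 := by
    rw [div_le_one ha0]
    exact r1
  have h6 : k2 Y.C κ Y.s * (1 / a) ≤ k2 Y.C κ Y.s := mul_le_of_le_one_right hk2 h5
  have h7 : 0 ≤ k1 Y.C κ Y.s / κ := by positivity
  have h8 : 0 ≤ k2 Y.C κ Y.s * |l| := by positivity
  nlinarith [abs_nonneg l]

theorem expmom (H : Good Y x N) {κ Λ : ℝ} (hκ : 0 < κ) (hΛ : 0 ≤ Λ)
    (hl : ∀ m, ∀ w ∈ Y.K m, Λ ^ 2 ≤ (m : ℝ) + 1) (e : ℝ) (he : e = 1 ∨ e = -1) :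
    Ex Y x N (fun m w => Real.exp (Λ * (e * vv Y x κ m w))) ≤
      Real.exp (kA Y.C κ Y.s * (Λ + Λ ^ 2 / 2)) * Ex Y x N (fun _ _ => 1) := by
  have hx0 := H.x0
  have hC : (0 : ℝ) ≤ Y.C := Nat.cast_nonneg _
  have hs : (0 : ℝ) ≤ Y.s := Nat.cast_nonneg _
  obtain ⟨A, hA⟩ : ∃ A : ℝ, A = kA Y.C κ Y.s := ⟨_, rfl⟩
  have hA0 : 0 ≤ A := by rw [hA]; exact kA_nonneg hC hκ hs
  have hd : ∀ l : ℝ, HasDerivAt (fun l : ℝ => Ex Y x N (fun m w => Real.exp (l * (e * vv Y x κ m w))))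
      (Ex Y x N (fun m w => (e * vv Y x κ m w) * Real.exp (l * (e * vv Y x κ m w)))) l := by
    intro l
    unfold Ex
    refine HasDerivAt.fun_sum fun m _ => ?_
    refine HasDerivAt.const_mul _ ?_
    refine HasDerivAt.fun_sum fun w _ => ?_
    have h1 : HasDerivAt (fun l : ℝ => l * (e * vv Y x κ m w)) (e * vv Y x κ m w) l := by
      simpa using (hasDerivAt_id l).mul_const (e * vv Y x κ m w)
    exact h1.exp.congr_deriv (mul_comm _ _)
  obtain ⟨h, hh⟩ : ∃ h : ℝ → ℝ, h = fun l =>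
    Ex Y x N (fun m w => Real.exp (l * (e * vv Y x κ m w))) *
      Real.exp (-(A * (l + l ^ 2 / 2))) := ⟨_, rfl⟩
  have hdh : ∀ l : ℝ, HasDerivAt h
      (Ex Y x N (fun m w => (e * vv Y x κ m w) * Real.exp (l * (e * vv Y x κ m w))) *
        Real.exp (-(A * (l + l ^ 2 / 2))) +
       Ex Y x N (fun m w => Real.exp (l * (e * vv Y x κ m w))) *
        (Real.exp (-(A * (l + l ^ 2 / 2))) * (-(A * (1 + l))))) l := by
    intro l
    rw [hh]
    refine (hd l).mul ?_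
    have h1 : HasDerivAt (fun l : ℝ => -(A * (l + l ^ 2 / 2))) (-(A * (1 + l))) l := by
      have h2 : HasDerivAt (fun l : ℝ => l + l ^ 2 / 2) (1 + l) l := by
        have h3 := (hasDerivAt_id l).add (((hasDerivAt_id l).pow 2).div_const 2)
        have e3 : (1 : ℝ) + (2 : ℕ) * id l ^ (2 - 1) * 1 / 2 = 1 + l := by
          simp
        rw [e3] at h3
        exact h3
      exact (h2.const_mul A).neg
    exact h1.exp
  have hanti : AntitoneOn h (Set.Icc 0 Λ) := by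
    refine antitoneOn_of_deriv_nonpos (convex_Icc 0 Λ) (fun l _ => (hdh l).continuousAt.continuousWithinAt)
      (fun l _ => (hdh l).differentiableAt.differentiableWithinAt) ?_
    intro l hl'
    rw [interior_Icc] at hl'
    rw [(hdh l).deriv]
    have hl0 : 0 < l := hl'.1
    have hlL : l < Λ := hl'.2
    have h1 : Ex Y x N (fun m w => (e * vv Y x κ m w) * Real.exp (l * (e * vv Y x κ m w))) ≤
        A * (1 + l) * Ex Y x N (fun m w => Real.exp (l * (e * vv Y x κ m w))) := by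
      have h2 := mom H (κ := κ) (l := l * e) hκ (fun m w hw => by
        refine le_trans ?_ (hl m w hw)
        have e2 : e ^ 2 = 1 := by rcases he with h | h <;> rw [h] <;> norm_num
        rw [mul_pow, e2, mul_one]
        exact pow_le_pow_left₀ hl0.le hlL.le 2)
      have e1 : |l * e| = l := by
        rcases he with h | h <;> rw [h]
        · rw [mul_one, abs_of_pos hl0]
        · rw [mul_neg_one, abs_neg, abs_of_pos hl0]
      rw [e1, ← hA] at h2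
      have e3 : Ex Y x N (fun m w => Real.exp (l * e * vv Y x κ m w)) =
          Ex Y x N (fun m w => Real.exp (l * (e * vv Y x κ m w))) := by
        congr 1
        funext m w
        rw [mul_assoc]
      have e4 : Ex Y x N (fun m w => (e * vv Y x κ m w) * Real.exp (l * (e * vv Y x κ m w))) =
          e * Ex Y x N (fun m w => vv Y x κ m w * Real.exp (l * e * vv Y x κ m w)) := by
        rw [← Ex_mul]
        congr 1
        funext m w
        rw [mul_assoc l e, mul_assoc e]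
      rw [e3] at h2
      rw [e4]
      refine le_trans (le_abs_self _) ?_
      rw [abs_mul]
      have e5 : |e| = 1 := by rcases he with h | h <;> rw [h] <;> simp
      rw [e5, one_mul]
      exact h2
    have h3 := Real.exp_pos (-(A * (l + l ^ 2 / 2)))
    have h4 := mul_le_mul_of_nonneg_right h1 h3.le
    linarith
  have h1 := hanti (Set.left_mem_Icc.2 hΛ) (Set.right_mem_Icc.2 hΛ) hΛ
  rw [hh] at h1
  simp only [zero_mul, Real.exp_zero] at h1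
  have e1 : -(A * (0 + 0 ^ 2 / 2)) = (0 : ℝ) := by ring
  rw [e1, Real.exp_zero, mul_one, Real.exp_neg, ← div_eq_mul_inv,
    div_le_iff₀ (Real.exp_pos _)] at h1
  rw [← hA]
  linarith

/-- **Gaussian tails of the normalized balance** -/
theorem tail (H : Good Y x N) {κ s : ℝ} (hκ : 0 < κ) (hs0 : 0 ≤ s)
    (hl : ∀ m, ∀ w ∈ Y.K m, s ^ 2 ≤ (m : ℝ) + 1) :
    Ex Y x N (fun m w => if s ≤ |vv Y x κ m w| then 1 else 0) ≤
      2 * Real.exp (kA Y.C κ Y.s ^ 2 / 2) *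
        Real.exp (-(s ^ 2 / (2 * (1 + kA Y.C κ Y.s) ^ 2))) * Ex Y x N (fun _ _ => 1) := by
  have hx0 := H.x0
  have hC : (0 : ℝ) ≤ Y.C := Nat.cast_nonneg _
  have hs : (0 : ℝ) ≤ Y.s := Nat.cast_nonneg _
  obtain ⟨A, hA⟩ : ∃ A : ℝ, A = kA Y.C κ Y.s := ⟨_, rfl⟩
  have hA0 : 0 ≤ A := by rw [hA]; exact kA_nonneg hC hκ hs
  rw [← hA]
  obtain ⟨l, hldef⟩ : ∃ l : ℝ, l = s / (1 + A) := ⟨_, rfl⟩
  have hA1 : 0 < 1 + A := by linarith
  have hl0 : 0 ≤ l := by rw [hldef]; positivity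
  have hls : l ≤ s := by
    rw [hldef]
    exact div_le_self hs0 (by linarith)
  have hsl : s = l * (1 + A) := by
    rw [hldef]
    field_simp
  have hl2 : ∀ m, ∀ w ∈ Y.K m, l ^ 2 ≤ (m : ℝ) + 1 := fun m w hw =>
    (pow_le_pow_left₀ hl0 hls 2).trans (hl m w hw)
  have t1 := expmom H hκ hl0 hl2 1 (Or.inl rfl)
  have t2 := expmom H hκ hl0 hl2 (-1) (Or.inr rfl)
  rw [← hA] at t1 t2
  have t3 : Ex Y x N (fun m w => if s ≤ |vv Y x κ m w| then (1 : ℝ) else 0) ≤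
      Real.exp (-(l * s)) * (Ex Y x N (fun m w => Real.exp (l * (1 * vv Y x κ m w))) +
        Ex Y x N (fun m w => Real.exp (l * (-1 * vv Y x κ m w)))) := by
    rw [← Ex_add, ← Ex_mul]
    refine Ex_mono hx0 fun m w _ => ?_
    have p1 := Real.exp_pos (l * (1 * vv Y x κ m w))
    have p2 := Real.exp_pos (l * (-1 * vv Y x κ m w))
    have p3 := Real.exp_pos (-(l * s))
    split_ifs with hif
    · have h1 : Real.exp (l * s) ≤ Real.exp (l * (1 * vv Y x κ m w)) +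
          Real.exp (l * (-1 * vv Y x κ m w)) := by
        rcases le_total 0 (vv Y x κ m w) with h | h
        · rw [abs_of_nonneg h] at hif
          have : Real.exp (l * s) ≤ Real.exp (l * (1 * vv Y x κ m w)) := by
            rw [one_mul]
            exact Real.exp_le_exp.2 (mul_le_mul_of_nonneg_left hif hl0)
          linarith
        · rw [abs_of_nonpos h] at hif
          have : Real.exp (l * s) ≤ Real.exp (l * (-1 * vv Y x κ m w)) := by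
            rw [neg_one_mul]
            exact Real.exp_le_exp.2 (mul_le_mul_of_nonneg_left hif hl0)
          linarith
      calc (1 : ℝ) = Real.exp (-(l * s)) * Real.exp (l * s) := by
            rw [← Real.exp_add, neg_add_cancel, Real.exp_zero]
        _ ≤ _ := mul_le_mul_of_nonneg_left h1 p3.le
    · positivity
  have hE0 : 0 ≤ Ex Y x N (fun _ _ => 1) := Ex_nonneg hx0 fun _ _ _ => zero_le_one
  refine t3.trans ?_
  have t4 : Real.exp (-(l * s)) * (Ex Y x N (fun m w => Real.exp (l * (1 * vv Y x κ m w))) +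
        Ex Y x N (fun m w => Real.exp (l * (-1 * vv Y x κ m w)))) ≤
      Real.exp (-(l * s)) * (2 * (Real.exp (A * (l + l ^ 2 / 2)) * Ex Y x N (fun _ _ => 1))) :=
    mul_le_mul_of_nonneg_left (by linarith) (Real.exp_pos _).le
  refine t4.trans ?_
  have e1 : Real.exp (-(l * s)) * (2 * (Real.exp (A * (l + l ^ 2 / 2)) *
      Ex Y x N (fun _ _ => 1))) =
      2 * Real.exp (-(l * s) + A * (l + l ^ 2 / 2)) * Ex Y x N (fun _ _ => 1) := by
    rw [Real.exp_add]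
    ring
  have e2 : 2 * Real.exp (A ^ 2 / 2) * Real.exp (-(s ^ 2 / (2 * (1 + A) ^ 2))) =
      2 * Real.exp (A ^ 2 / 2 + -(s ^ 2 / (2 * (1 + A) ^ 2))) := by
    rw [Real.exp_add]
    ring
  rw [e1, e2]
  refine mul_le_mul_of_nonneg_right ?_ hE0
  refine mul_le_mul_of_nonneg_left (Real.exp_le_exp.2 ?_) (by norm_num)
  have e3 : s ^ 2 / (2 * (1 + A) ^ 2) = l ^ 2 / 2 := by
    rw [hsl]
    field_simp
  rw [e3, hsl]
  nlinarith [sq_nonneg (A - l), mul_nonneg hA0 (sq_nonneg l)]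

end Pool.Agent.K1H48.SO
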