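import Pool.Agent.K1H48.SO.GaussNum

/-!
# Gaussian concentration of the balance of the moves: comparison of events
-/

set_option autoImplicit false

namespace Pool.Agent.K1H48.SO

open Finset TH966.AK Pool.Agent.R131.LS Pool.Agent.R131.LT
open Pool.Agent.W832.HR (Traj)
open scoped Classical

theorem Mx_mono {x : ℝ} (hx : 0 < x) {D : Set P} {p q : P} (h : (Traj D p q).Finite)
    {F G : List P → ℝ} (hFG : ∀ l ∈ Traj D p q, F l ≤ G l) : Mx x D p q F ≤ Mx x D p q G := by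
  rw [Mx_eq x h, Mx_eq x h]
  refine div_le_div_of_nonneg_right ?_ (Finset.sum_nonneg fun l _ => by positivity)
  refine Finset.sum_le_sum fun l hl => ?_
  exact mul_le_mul_of_nonneg_left (hFG l (h.mem_toFinset.1 hl)) (by positivity)

theorem off_x {x : ℝ} {D : Set (ℤ × ℤ)} {s : ℝ} (hs : 0 ≤ s) (l : List (ℤ × ℤ)) :
    (if |x ^ 2 * ((upS D l).ncard : ℝ) - ((dnS D l).ncard : ℝ)| ≤
      s / Real.sqrt (((l.length - 1 : ℕ) : ℝ) + 1) * ((dnS D l).ncard : ℝ) ∧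
      0 < (dnS D l).ncard then (0 : ℝ) else 1) ≤ offB x D (s / 4) l := by
  unfold offB
  by_cases h : |x ^ 2 * ((upS D l).ncard : ℝ) - ((dnS D l).ncard : ℝ)| ≤
      s / 4 / Real.sqrt (((l.length - 1 : ℕ) : ℝ) + 1) * ((dnS D l).ncard : ℝ) ∧
      0 < (dnS D l).ncard
  · rw [if_pos h, if_pos]
    refine ⟨h.1.trans ?_, h.2⟩
    refine mul_le_mul_of_nonneg_right ?_ (Nat.cast_nonneg _)
    exact div_le_div_of_nonneg_right (by linarith) (Real.sqrt_nonneg _)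
  · rw [if_neg h]
    split_ifs <;> norm_num

theorem off_c {D : Set (ℤ × ℤ)} {s : ℝ} (_hs : 0 ≤ s) (l : List (ℤ × ℤ)) :
    (if |((upS D l).ncard : ℝ) - (2 + Real.sqrt 2) * ((dnS D l).ncard : ℝ)| ≤
      s / Real.sqrt (((l.length - 1 : ℕ) : ℝ) + 1) * ((dnS D l).ncard : ℝ) ∧
      0 < (dnS D l).ncard then (0 : ℝ) else 1) ≤ offB xr D (s / 4) l := by
  unfold offB
  by_cases h : |xr ^ 2 * ((upS D l).ncard : ℝ) - ((dnS D l).ncard : ℝ)| ≤
      s / 4 / Real.sqrt (((l.length - 1 : ℕ) : ℝ) + 1) * ((dnS D l).ncard : ℝ) ∧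
      0 < (dnS D l).ncard
  · rw [if_pos h, if_pos]
    refine ⟨?_, h.2⟩
    have h2 : Real.sqrt 2 ≤ 2 := by
      rw [Real.sqrt_le_left (by norm_num)]
      norm_num
    have h20 : 0 ≤ Real.sqrt 2 := Real.sqrt_nonneg _
    have hx : xr ^ 2 = 1 / (2 + Real.sqrt 2) := by
      unfold xr
      rw [div_pow, one_pow, Real.sq_sqrt (by positivity)]
    have h1 := h.1
    rw [hx] at h1
    obtain ⟨u, hu⟩ : ∃ u : ℝ, u = ((upS D l).ncard : ℝ) := ⟨_, rfl⟩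
    obtain ⟨d, hd⟩ : ∃ d : ℝ, d = ((dnS D l).ncard : ℝ) := ⟨_, rfl⟩
    obtain ⟨r, hr⟩ : ∃ r : ℝ, r = Real.sqrt (((l.length - 1 : ℕ) : ℝ) + 1) := ⟨_, rfl⟩
    have hd0 : 0 ≤ d := by rw [hd]; exact Nat.cast_nonneg _
    have hr0 : 0 ≤ r := by rw [hr]; exact Real.sqrt_nonneg _
    rw [← hu, ← hd, ← hr] at h1 ⊢
    have e : u - (2 + Real.sqrt 2) * d = (2 + Real.sqrt 2) * (1 / (2 + Real.sqrt 2) * u - d) := by
      field_simp
    rw [e, abs_mul, abs_of_pos (show 0 < 2 + Real.sqrt 2 by positivity)]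
    calc (2 + Real.sqrt 2) * |1 / (2 + Real.sqrt 2) * u - d|
        ≤ 4 * (s / 4 / r * d) := mul_le_mul (by linarith) h1 (abs_nonneg _) (by norm_num)
      _ = s / r * d := by ring
  · rw [if_neg h]
    split_ifs <;> norm_num

end Pool.Agent.K1H48.SO
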