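import Pool.Agent.R131.LS.Main

/-!
# Geometric weights: second differences of the law of the size
-/

set_option autoImplicit false

namespace Pool.Agent.K1H48.SO

open Finset TH966.AK Pool.Agent.R131.LS
open scoped Classical

variable {α σ : Type} {Y : Sys α σ} {x : ℝ} {N : ℕ}

theorem T_eq (H : Good Y x N) (κ : ℝ) (ψ : ℕ → α → ℝ) :
    Ex Y x N (fun m w => ((Y.B w).card : ℝ) * ph Y κ m w * ψ m w) =
      Ex Y x N (fun m w => x ^ Y.s * ∑ q ∈ Y.S w, ph Y κ (m + Y.s) (Y.ins w q) *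
        ψ (m + Y.s) (Y.ins w q)) := by
  rw [Ex_mul, ← exch H (fun m _ w => ph Y κ m w * ψ m w)]
  congr 1
  funext m w
  rw [sum_const, nsmul_eq_mul]
  ring

theorem T_near (hx0 : 0 < x) {κ : ℝ} (hκ : 0 < κ) (ψ : ℕ → α → ℝ) {A : ℝ}
    (hψ : ∀ m, ∀ w ∈ Y.K m, |ψ m w| ≤ A) :
    |Ex Y x N ψ - Ex Y x N (fun m w => ((Y.B w).card : ℝ) * ph Y κ m w * ψ m w)| ≤
      A * Ex Y x N (bd Y κ) := by
  rw [← Ex_sub, ← Ex_mul]
  refine (Ex_abs hx0 _).trans (Ex_mono hx0 fun m w hw => ?_)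
  have e : ψ m w - ((Y.B w).card : ℝ) * ph Y κ m w * ψ m w =
      ψ m w * (1 - ((Y.B w).card : ℝ) * ph Y κ m w) := by ring
  rw [e, abs_mul]
  have h6 := ph_mul (Y := Y) hκ m w
  have h7 := hψ m w hw
  exact mul_le_mul h7 h6 (abs_nonneg _) ((abs_nonneg _).trans h7)

/-- the quotient `(x^s |S| - |B|) / |B|`, truncated -/
noncomputable def uu (Y : Sys α σ) (x κ : ℝ) (m : ℕ) (w : α) : ℝ := dd Y x w * ph Y κ m w

theorem uu_le (H : Good Y x N) {κ : ℝ} (hκ : 0 < κ) {m : ℕ} {w : α} (hw : w ∈ Y.K m) :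
    |uu Y x κ m w| ≤ Y.C / κ := by
  have h1 := dd_le H hw
  have h2 := ph_le (Y := Y) hκ m w
  have h3 := ph_pos (Y := Y) hκ m w
  have ha0 : 0 < (m : ℝ) + 1 := by positivity
  unfold uu
  rw [abs_mul, abs_of_pos h3]
  calc |dd Y x w| * ph Y κ m w ≤ (Y.C * (m + 1)) * (1 / (κ * ((m : ℝ) + 1))) :=
        mul_le_mul h1 h2 h3.le (by positivity)
    _ = Y.C / κ := by field_simp

theorem uu_sq (H : Good Y x N) {κ : ℝ} (hκ : 0 < κ) :
    Ex Y x N (fun m w => uu Y x κ m w ^ 2) ≤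
      2 * Y.C ^ 2 * (1 + Y.s) / κ ^ 2 * Ex Y x N (fun m _ => 1 / ((m : ℝ) + 1)) := by
  have h1 := second H
  have h2 : Ex Y x N (fun m w => uu Y x κ m w ^ 2) ≤
      1 / κ ^ 2 * Ex Y x N (fun m w => dd Y x w ^ 2 * (1 / ((m : ℝ) + 1) ^ 2)) := by
    rw [← Ex_mul]
    refine Ex_mono H.x0 fun m w _ => ?_
    have h2 := ph_le (Y := Y) hκ m w
    have h3 := ph_pos (Y := Y) hκ m w
    have ha0 : 0 < (m : ℝ) + 1 := by positivity
    unfold uu
    rw [mul_pow]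
    have h4 : ph Y κ m w ^ 2 ≤ (1 / (κ * ((m : ℝ) + 1))) ^ 2 := pow_le_pow_left₀ h3.le h2 2
    calc dd Y x w ^ 2 * ph Y κ m w ^ 2 ≤ dd Y x w ^ 2 * (1 / (κ * ((m : ℝ) + 1))) ^ 2 :=
          mul_le_mul_of_nonneg_left h4 (sq_nonneg _)
      _ = _ := by field_simp
  refine h2.trans ((mul_le_mul_of_nonneg_left h1 (by positivity)).trans (le_of_eq ?_))
  ring

/-- the change of `ph * uu` -/
theorem phuu_ins (H : Good Y x N) {κ : ℝ} (hκ : 0 < κ) {m : ℕ} {w : α} {q : σ}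
    (hw : w ∈ Y.K m) (hq : q ∈ Y.S w) :
    |ph Y κ (m + Y.s) (Y.ins w q) * uu Y x κ (m + Y.s) (Y.ins w q) -
      ph Y κ m w * uu Y x κ m w| ≤
      (2 * Y.C / κ ^ 2 + 2 * Y.C * (Y.C + κ * Y.s) / κ ^ 3) / ((m : ℝ) + 1) ^ 2 := by
  have hC : (0 : ℝ) ≤ Y.C := Nat.cast_nonneg _
  have hs : (0 : ℝ) ≤ Y.s := Nat.cast_nonneg _
  have ha0 : 0 < (m : ℝ) + 1 := by positivity
  have d1 := dd_ins H hw hq
  have d2 := dd_le H hw
  have p1 := ph_ins (Y := Y) hκ hw hq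
  have p2 := ph_le (Y := Y) hκ m w
  have p3 := ph_pos (Y := Y) hκ m w
  have p4 := ph_le (Y := Y) hκ (m + Y.s) (Y.ins w q)
  have p5 := ph_pos (Y := Y) hκ (m + Y.s) (Y.ins w q)
  have p6 : ph Y κ (m + Y.s) (Y.ins w q) ≤ 1 / (κ * ((m : ℝ) + 1)) := by
    refine p4.trans (one_div_le_one_div_of_le (by positivity) ?_)
    push_cast
    nlinarith
  obtain ⟨φ, hφ⟩ : ∃ φ : ℝ, φ = ph Y κ m w := ⟨_, rfl⟩
  obtain ⟨φ', hφ'⟩ : ∃ φ' : ℝ, φ' = ph Y κ (m + Y.s) (Y.ins w q) := ⟨_, rfl⟩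
  obtain ⟨z, hz⟩ : ∃ z : ℝ, z = dd Y x w := ⟨_, rfl⟩
  obtain ⟨z', hz'⟩ : ∃ z' : ℝ, z' = dd Y x (Y.ins w q) := ⟨_, rfl⟩
  unfold uu
  rw [← hφ, ← hφ', ← hz, ← hz']
  rw [← hφ, ← hφ'] at p1
  rw [← hφ] at p2 p3
  rw [← hφ'] at p5 p6
  rw [← hz, ← hz'] at d1
  rw [← hz] at d2
  obtain ⟨b, hb⟩ : ∃ b : ℝ, b = 1 / (κ * ((m : ℝ) + 1)) := ⟨_, rfl⟩
  rw [← hb] at p2 p6
  have hb0 : 0 < b := by rw [hb]; positivity
  have e : φ' * (z' * φ') - φ * (z * φ) = (z' - z) * φ' ^ 2 + z * ((φ' - φ) * (φ' + φ)) := by ring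
  rw [e]
  refine (abs_add_le _ _).trans ?_
  rw [abs_mul, abs_mul z, abs_mul (φ' - φ), abs_of_pos (show 0 < φ' + φ by linarith),
    abs_of_nonneg (sq_nonneg φ'), abs_sub_comm z']
  have k1 : |z - z'| * φ' ^ 2 ≤ 2 * Y.C * b ^ 2 :=
    mul_le_mul d1 (pow_le_pow_left₀ p5.le p6 2) (sq_nonneg _) (by positivity)
  have k2 : |z| * (|φ' - φ| * (φ' + φ)) ≤ (Y.C * (m + 1)) *
      ((Y.C + κ * Y.s) / (κ ^ 2 * ((m : ℝ) + 1) ^ 2) * (2 * b)) := by
    refine mul_le_mul d2 (mul_le_mul p1 (by linarith) (by linarith) (by positivity))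
      (by positivity) (by positivity)
  refine (add_le_add k1 k2).trans (le_of_eq ?_)
  rw [hb]
  field_simp

set_option maxHeartbeats 1000000 in
/-- **second differences of the law of the size** -/
theorem gc_second (H : Good Y x N) {κ : ℝ} (hκ : 0 < κ) (g : ℕ → ℝ)
    (hg : ∀ m, 0 ≤ g m ∧ g m ≤ 1) :
    |Ex Y x N (fun m _ => g m) - 2 * Ex Y x N (fun m _ => g (m + Y.s)) +
      Ex Y x N (fun m _ => g (m + Y.s + Y.s))| ≤
      (4 + 2 * Y.C / κ) * Ex Y x N (bd Y κ) +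
      (Y.C * (Y.C + κ * Y.s) / κ ^ 2 + 2 * Y.C ^ 2 * (1 + Y.s) / κ ^ 2 +
        Y.C * (2 * Y.C / κ ^ 2 + 2 * Y.C * (Y.C + κ * Y.s) / κ ^ 3)) *
        Ex Y x N (fun m _ => 1 / ((m : ℝ) + 1)) := by
  have hx0 := H.x0
  have hC : (0 : ℝ) ≤ Y.C := Nat.cast_nonneg _
  have hs : (0 : ℝ) ≤ Y.s := Nat.cast_nonneg _
  have hp0 : 0 ≤ x ^ Y.s := by positivity
  have hp1 : x ^ Y.s ≤ 1 := pow_le_one₀ hx0.le H.x1
  obtain ⟨β, hβ⟩ : ∃ β : ℝ, β = Ex Y x N (bd Y κ) := ⟨_, rfl⟩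
  obtain ⟨I, hI⟩ : ∃ I : ℝ, I = Ex Y x N (fun m _ => 1 / ((m : ℝ) + 1)) := ⟨_, rfl⟩
  obtain ⟨ee, hee⟩ : ∃ ee : ℕ → α → ℝ, ee = fun m w => x ^ Y.s * ∑ q ∈ Y.S w,
    (ph Y κ (m + Y.s) (Y.ins w q) - ph Y κ m w) := ⟨_, rfl⟩
  obtain ⟨rr, hrr⟩ : ∃ rr : ℕ → α → ℝ, rr = fun m w => x ^ Y.s * ∑ q ∈ Y.S w,
    (ph Y κ (m + Y.s) (Y.ins w q) * uu Y x κ (m + Y.s) (Y.ins w q) -
      ph Y κ m w * uu Y x κ m w) := ⟨_, rfl⟩
  -- sizes of the error functions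
  have heb : ∀ m, ∀ w ∈ Y.K m, |ee m w| ≤ Y.C * (Y.C + κ * Y.s) / κ ^ 2 * (1 / ((m : ℝ) + 1)) := by
    intro m w hw
    have ha0 : 0 < (m : ℝ) + 1 := by positivity
    rw [hee]
    simp only
    rw [abs_mul, abs_of_nonneg hp0]
    have h1 : |∑ q ∈ Y.S w, (ph Y κ (m + Y.s) (Y.ins w q) - ph Y κ m w)| ≤
        Y.C * (Y.C + κ * Y.s) / κ ^ 2 * (1 / ((m : ℝ) + 1)) := by
      refine (abs_sum_le_sum_abs _ _).trans ((sum_le_card_nsmul _ _ _
        (fun q hq => ph_ins (Y := Y) hκ hw hq)).trans ?_)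
      rw [nsmul_eq_mul]
      have h3 : ((Y.S w).card : ℝ) ≤ Y.C * (m + 1) := by exact_mod_cast Y.S_le m w hw
      refine (mul_le_mul_of_nonneg_right h3 (by positivity)).trans (le_of_eq ?_)
      field_simp
    exact (mul_le_of_le_one_left (abs_nonneg _) hp1).trans h1
  have hrb : ∀ m, ∀ w ∈ Y.K m, |rr m w| ≤
      Y.C * (2 * Y.C / κ ^ 2 + 2 * Y.C * (Y.C + κ * Y.s) / κ ^ 3) * (1 / ((m : ℝ) + 1)) := by
    intro m w hw
    have ha0 : 0 < (m : ℝ) + 1 := by positivity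
    rw [hrr]
    simp only
    rw [abs_mul, abs_of_nonneg hp0]
    have h1 : |∑ q ∈ Y.S w, (ph Y κ (m + Y.s) (Y.ins w q) *
        uu Y x κ (m + Y.s) (Y.ins w q) - ph Y κ m w * uu Y x κ m w)| ≤
        Y.C * (2 * Y.C / κ ^ 2 + 2 * Y.C * (Y.C + κ * Y.s) / κ ^ 3) * (1 / ((m : ℝ) + 1)) := by
      refine (abs_sum_le_sum_abs _ _).trans ((sum_le_card_nsmul _ _ _
        (fun q hq => phuu_ins H hκ hw hq)).trans ?_)
      rw [nsmul_eq_mul]
      have h3 : ((Y.S w).card : ℝ) ≤ Y.C * (m + 1) := by exact_mod_cast Y.S_le m w hw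
      refine (mul_le_mul_of_nonneg_right h3 (by positivity)).trans (le_of_eq ?_)
      field_simp
    exact (mul_le_of_le_one_left (abs_nonneg _) hp1).trans h1
  -- one step for functions of the size
  have s1 : ∀ h : ℕ → ℝ, (∀ m, 0 ≤ h m ∧ h m ≤ 1) → ∃ ε : ℝ, |ε| ≤ 2 * β ∧
      Ex Y x N (fun m _ => h m) - Ex Y x N (fun m _ => h (m + Y.s)) =
      Ex Y x N (fun m w => (uu Y x κ m w + ee m w) * h (m + Y.s)) + ε := by
    intro h hh
    have a1 := T_near (Y := Y) (N := N) hx0 hκ (fun m _ => h m) (A := 1) (fun m w _ => by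
      rw [abs_of_nonneg (hh m).1]; exact (hh m).2)
    have a2 := T_near (Y := Y) (N := N) hx0 hκ (fun m _ => h (m + Y.s)) (A := 1) (fun m w _ => by
      rw [abs_of_nonneg (hh _).1]; exact (hh _).2)
    rw [← hβ, one_mul] at a1 a2
    have a3 := T_eq H κ (fun m _ => h m)
    have a4 : Ex Y x N (fun m w => x ^ Y.s * ∑ q ∈ Y.S w, ph Y κ (m + Y.s) (Y.ins w q) *
        h (m + Y.s)) - Ex Y x N (fun m w => ((Y.B w).card : ℝ) * ph Y κ m w * h (m + Y.s)) =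
        Ex Y x N (fun m w => (uu Y x κ m w + ee m w) * h (m + Y.s)) := by
      rw [← Ex_sub]
      congr 1
      funext m w
      rw [hee]
      simp only
      rw [← Finset.sum_mul, Finset.sum_sub_distrib, Finset.sum_const, nsmul_eq_mul]
      unfold uu dd
      ring
    refine ⟨(Ex Y x N (fun m _ => h m) -
      Ex Y x N (fun m w => ((Y.B w).card : ℝ) * ph Y κ m w * h m)) -
      (Ex Y x N (fun m _ => h (m + Y.s)) -
      Ex Y x N (fun m w => ((Y.B w).card : ℝ) * ph Y κ m w * h (m + Y.s))), ?_, ?_⟩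
    · refine (abs_sub _ _).trans ?_
      linarith
    · rw [← a4, ← a3]
      ring
  obtain ⟨ε1, hε1, q1⟩ := s1 g hg
  obtain ⟨ε2, hε2, q2⟩ := s1 (fun m => g (m + Y.s)) (fun m => hg _)
  -- the error function
  have q3 : |Ex Y x N (fun m w => ee m w * g (m + Y.s)) -
      Ex Y x N (fun m w => ee m w * g (m + Y.s + Y.s))| ≤
      Y.C * (Y.C + κ * Y.s) / κ ^ 2 * I := by
    rw [← Ex_sub, hI, ← Ex_mul]
    refine (Ex_abs hx0 _).trans (Ex_mono hx0 fun m w hw => ?_)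
    rw [← mul_sub, abs_mul]
    have h1 : |g (m + Y.s) - g (m + Y.s + Y.s)| ≤ 1 := by
      have := hg (m + Y.s)
      have := hg (m + Y.s + Y.s)
      rw [abs_le]
      constructor <;> linarith
    calc |ee m w| * |g (m + Y.s) - g (m + Y.s + Y.s)| ≤
          (Y.C * (Y.C + κ * Y.s) / κ ^ 2 * (1 / ((m : ℝ) + 1))) * 1 :=
          mul_le_mul (heb m w hw) h1 (abs_nonneg _) (by positivity)
      _ = _ := mul_one _
  -- one step for `uu`
  have q4 : |Ex Y x N (fun m w => uu Y x κ m w * g (m + Y.s)) -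
      Ex Y x N (fun m w => uu Y x κ m w * g (m + Y.s + Y.s))| ≤
      2 * Y.C / κ * β + (2 * Y.C ^ 2 * (1 + Y.s) / κ ^ 2 +
        Y.C * (2 * Y.C / κ ^ 2 + 2 * Y.C * (Y.C + κ * Y.s) / κ ^ 3)) * I := by
    have a1 := T_near (Y := Y) (N := N) hx0 hκ (fun m w => uu Y x κ m w * g (m + Y.s))
      (A := Y.C / κ) (fun m w hw => by
      rw [abs_mul, abs_of_nonneg (hg _).1]
      calc |uu Y x κ m w| * g (m + Y.s) ≤ Y.C / κ * 1 :=
            mul_le_mul (uu_le H hκ hw) (hg _).2 (hg _).1 (by positivity)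
        _ = _ := mul_one _)
    rw [← hβ] at a1
    have a3 := T_eq H κ (fun m w => uu Y x κ m w * g (m + Y.s))
    have a4 : Ex Y x N (fun m w => x ^ Y.s * ∑ q ∈ Y.S w, ph Y κ (m + Y.s) (Y.ins w q) *
        (uu Y x κ (m + Y.s) (Y.ins w q) * g (m + Y.s + Y.s))) -
        Ex Y x N (fun m w => uu Y x κ m w * g (m + Y.s + Y.s)) =
        Ex Y x N (fun m w => uu Y x κ m w ^ 2 * g (m + Y.s + Y.s)) +
        Ex Y x N (fun m w => (((Y.B w).card : ℝ) * ph Y κ m w - 1) *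
          (uu Y x κ m w * g (m + Y.s + Y.s))) +
        Ex Y x N (fun m w => rr m w * g (m + Y.s + Y.s)) := by
      rw [← Ex_sub, ← Ex_add, ← Ex_add]
      congr 1
      funext m w
      have e1 : ∑ q ∈ Y.S w, ph Y κ (m + Y.s) (Y.ins w q) *
          (uu Y x κ (m + Y.s) (Y.ins w q) * g (m + Y.s + Y.s)) =
          (∑ q ∈ Y.S w, ph Y κ (m + Y.s) (Y.ins w q) * uu Y x κ (m + Y.s) (Y.ins w q)) *
          g (m + Y.s + Y.s) := by
        rw [Finset.sum_mul]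
        exact Finset.sum_congr rfl fun q _ => by ring
      rw [e1, hrr]
      simp only
      rw [Finset.sum_sub_distrib, Finset.sum_const, nsmul_eq_mul]
      have e2 : uu Y x κ m w ^ 2 = (x ^ Y.s * ((Y.S w).card : ℝ) - ((Y.B w).card : ℝ)) *
        ph Y κ m w * uu Y x κ m w := by
        unfold uu dd
        ring
      rw [e2]
      ring
    have b1 : |Ex Y x N (fun m w => uu Y x κ m w ^ 2 * g (m + Y.s + Y.s))| ≤
        2 * Y.C ^ 2 * (1 + Y.s) / κ ^ 2 * I := by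
      refine le_trans ?_ (le_trans (uu_sq H hκ) (le_of_eq (by rw [hI])))
      refine (Ex_abs hx0 _).trans (Ex_mono hx0 fun m w _ => ?_)
      rw [abs_mul, abs_of_nonneg (sq_nonneg _), abs_of_nonneg (hg _).1]
      exact mul_le_of_le_one_right (sq_nonneg _) (hg _).2
    have b2 : |Ex Y x N (fun m w => (((Y.B w).card : ℝ) * ph Y κ m w - 1) *
          (uu Y x κ m w * g (m + Y.s + Y.s)))| ≤ Y.C / κ * β := by
      rw [hβ, ← Ex_mul]
      refine (Ex_abs hx0 _).trans (Ex_mono hx0 fun m w hw => ?_)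
      have h6 := ph_mul (Y := Y) hκ m w
      rw [abs_mul, abs_mul, abs_sub_comm, abs_of_nonneg (hg _).1]
      have h7 : |uu Y x κ m w| * g (m + Y.s + Y.s) ≤ Y.C / κ * 1 :=
        mul_le_mul (uu_le H hκ hw) (hg _).2 (hg _).1 (by positivity)
      calc |1 - ((Y.B w).card : ℝ) * ph Y κ m w| * (|uu Y x κ m w| * g (m + Y.s + Y.s)) ≤
            bd Y κ m w * (Y.C / κ * 1) :=
            mul_le_mul h6 h7 (mul_nonneg (abs_nonneg _) (hg _).1) ((abs_nonneg _).trans h6)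
        _ = _ := by ring
    have b3 : |Ex Y x N (fun m w => rr m w * g (m + Y.s + Y.s))| ≤
        Y.C * (2 * Y.C / κ ^ 2 + 2 * Y.C * (Y.C + κ * Y.s) / κ ^ 3) * I := by
      rw [hI, ← Ex_mul]
      refine (Ex_abs hx0 _).trans (Ex_mono hx0 fun m w hw => ?_)
      rw [abs_mul, abs_of_nonneg (hg _).1]
      exact (mul_le_of_le_one_right (abs_nonneg _) (hg _).2).trans (hrb m w hw)
    have e3 : Ex Y x N (fun m w => uu Y x κ m w * g (m + Y.s)) -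
        Ex Y x N (fun m w => uu Y x κ m w * g (m + Y.s + Y.s)) =
        (Ex Y x N (fun m w => uu Y x κ m w * g (m + Y.s)) -
          Ex Y x N (fun m w => ((Y.B w).card : ℝ) * ph Y κ m w *
            (uu Y x κ m w * g (m + Y.s)))) +
        (Ex Y x N (fun m w => uu Y x κ m w ^ 2 * g (m + Y.s + Y.s)) +
        Ex Y x N (fun m w => (((Y.B w).card : ℝ) * ph Y κ m w - 1) *
          (uu Y x κ m w * g (m + Y.s + Y.s))) +
        Ex Y x N (fun m w => rr m w * g (m + Y.s + Y.s))) := by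
      rw [← a4, ← a3]
      ring
    rw [e3]
    refine (abs_add_le _ _).trans ?_
    have b4 := (abs_add_le (Ex Y x N (fun m w => uu Y x κ m w ^ 2 * g (m + Y.s + Y.s)) +
        Ex Y x N (fun m w => (((Y.B w).card : ℝ) * ph Y κ m w - 1) *
          (uu Y x κ m w * g (m + Y.s + Y.s))))
        (Ex Y x N (fun m w => rr m w * g (m + Y.s + Y.s))))
    have b5 := (abs_add_le (Ex Y x N (fun m w => uu Y x κ m w ^ 2 * g (m + Y.s + Y.s)))
        (Ex Y x N (fun m w => (((Y.B w).card : ℝ) * ph Y κ m w - 1) *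
          (uu Y x κ m w * g (m + Y.s + Y.s)))))
    have e5 : 2 * Y.C / κ * β = Y.C / κ * β + Y.C / κ * β := by ring
    rw [e5, add_mul]
    linarith
  have q5 : ∀ h : ℕ → ℝ, Ex Y x N (fun m w => (uu Y x κ m w + ee m w) * h m) =
      Ex Y x N (fun m w => uu Y x κ m w * h m) + Ex Y x N (fun m w => ee m w * h m) := by
    intro h
    rw [← Ex_add]
    congr 1
    funext m w
    ring
  rw [q5 (fun m => g (m + Y.s))] at q1
  rw [q5 (fun m => g (m + Y.s + Y.s))] at q2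
  rw [← hβ, ← hI]
  have e6 : Ex Y x N (fun m _ => g m) - 2 * Ex Y x N (fun m _ => g (m + Y.s)) +
      Ex Y x N (fun m _ => g (m + Y.s + Y.s)) =
      (Ex Y x N (fun m _ => g m) - Ex Y x N (fun m _ => g (m + Y.s))) -
      (Ex Y x N (fun m _ => g (m + Y.s)) - Ex Y x N (fun m _ => g (m + Y.s + Y.s))) := by ring
  rw [e6, q1, q2]
  rw [abs_le] at q3 q4 hε1 hε2 ⊢
  have e7 : (4 + 2 * Y.C / κ) * β + (Y.C * (Y.C + κ * Y.s) / κ ^ 2 +
      2 * Y.C ^ 2 * (1 + Y.s) / κ ^ 2 +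
      Y.C * (2 * Y.C / κ ^ 2 + 2 * Y.C * (Y.C + κ * Y.s) / κ ^ 3)) * I =
      4 * β + (2 * Y.C / κ * β + (2 * Y.C ^ 2 * (1 + Y.s) / κ ^ 2 +
        Y.C * (2 * Y.C / κ ^ 2 + 2 * Y.C * (Y.C + κ * Y.s) / κ ^ 3)) * I) +
      Y.C * (Y.C + κ * Y.s) / κ ^ 2 * I := by ring
  rw [e7]
  constructor <;> linarith [q3.1, q3.2, q4.1, q4.2, hε1.1, hε1.2, hε2.1, hε2.2]

end Pool.Agent.K1H48.SO
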