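import Pool.Agent.K1H48.SO.Second

/-!
# Second differences for weights which are not too small
-/

set_option autoImplicit false

namespace Pool.Agent.K1H48.SO

open Finset TH966.AK H726.GB Filter Topology
open scoped Classical

noncomputable section

variable {α σ : Type} {Y : Sys α σ}

/-- assumptions about the numbers of objects -/
structure Gs (Y : Sys α σ) (μ K : ℝ) : Prop where
  h0 : Y.n0 = 0
  hμ : 1 ≤ μ
  hK : 0 ≤ K
  hB : ∀ n w, w ∈ Y.K n → (Y.B w).card ≤ Y.C * (n + 1)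
  low : ∀ n : ℕ, μ ^ n ≤ ((Y.K n).card : ℝ)
  up : ∀ n : ℕ, 2 ≤ n → ((Y.K n).card : ℝ) ≤ μ ^ n * Real.exp (K * Real.log n ^ 2)
  poor : ∃ (M0 : ℕ) (ρ C0 : ℝ), 0 ≤ ρ ∧ ρ < μ ∧ ∀ n : ℕ,
      (((Y.K n).filter (fun w => M0 * (Y.B w).card ≤ n)).card : ℝ) ≤ C0 * ρ ^ n

theorem ev_sm (C : ℝ) {r s : ℝ} (hr : 0 < r) (hrs : r < s) (k : ℕ) :
    ∀ᶠ n : ℕ in atTop, C * r ^ n ≤ s ^ n / n ^ k := by
  have hs : 0 < s := hr.trans hrs
  have h1 := tendsto_pow_const_mul_const_pow_of_lt_one k (div_pos hr hs).le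
    ((div_lt_one hs).2 hrs)
  have h2 := h1.const_mul C
  rw [mul_zero] at h2
  filter_upwards [h2.eventually (gt_mem_nhds one_pos), eventually_ge_atTop 1] with n hn hn1
  have hn0 : (0 : ℝ) < n := by exact_mod_cast hn1
  rw [le_div_iff₀ (by positivity)]
  rw [div_pow] at hn
  have h3 : C * ((n : ℝ) ^ k * (r ^ n / s ^ n)) * s ^ n < 1 * s ^ n :=
    mul_lt_mul_of_pos_right hn (by positivity)
  have h4 : C * ((n : ℝ) ^ k * (r ^ n / s ^ n)) * s ^ n = C * r ^ n * n ^ k := by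
    field_simp
  linarith

set_option maxHeartbeats 2000000 in
theorem growth_second {μ K : ℝ} (G : Gs Y μ K) :
    ∃ (R c₁ : ℝ) (n₀ : ℕ), 0 < R ∧ 0 < c₁ ∧ 2 ≤ n₀ ∧ ∀ n : ℕ, n₀ ≤ n →
    ∀ f : α → ℝ, Y.Wt f → (∀ w, f w ≤ 1) →
      Real.exp (-(c₁ * n)) * ((Y.K n).card : ℝ) ≤ Y.af f n →
    |Y.af f (n + Y.s) / Y.af f n - μ ^ Y.s| ≤
      R * Real.sqrt ((Real.log n ^ 2 + Real.log ((Y.K n).card / Y.af f n)) / n) ∧
    |Y.af f (n + Y.s + Y.s) * Y.af f n - Y.af f (n + Y.s) ^ 2| ≤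
      R * Y.af f n ^ 2 * ((Real.log n ^ 2 + Real.log ((Y.K n).card / Y.af f n)) / n) := by
  obtain ⟨M0, ρ, C0, hρ0, hρμ, hpoor⟩ := G.poor
  obtain ⟨R, hR, hratio⟩ := second_ratio (Y := Y) G.h0 G.hμ G.hB M0
  have hmu := G.hμ
  have hK := G.hK
  obtain ⟨B, hB⟩ : ∃ B : ℝ, B = 1 + ((Y.K 0).card : ℝ) + ((Y.K 1).card : ℝ) := ⟨_, rfl⟩
  have hc0 : (0 : ℝ) ≤ ((Y.K 0).card : ℝ) := Nat.cast_nonneg _
  have hc1 : (0 : ℝ) ≤ ((Y.K 1).card : ℝ) := Nat.cast_nonneg _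
  have hB1 : 1 ≤ B := by linarith
  have hlB : 0 ≤ Real.log B := Real.log_nonneg hB1
  have hl2 : 0 < Real.log 2 := Real.log_pos (by norm_num)
  obtain ⟨ρ1, hρ1⟩ : ∃ ρ1 : ℝ, ρ1 = (2 * ρ + μ) / 3 := ⟨_, rfl⟩
  obtain ⟨ρ2, hρ2⟩ : ∃ ρ2 : ℝ, ρ2 = (ρ + 2 * μ) / 3 := ⟨_, rfl⟩
  have h01 : 0 < ρ1 := by rw [hρ1]; linarith
  have h12 : ρ1 < ρ2 := by rw [hρ1, hρ2]; linarith
  have hρρ1 : ρ ≤ ρ1 := by rw [hρ1]; linarith
  have h2μ : ρ2 < μ := by rw [hρ2]; linarith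
  have h02 : 0 < ρ2 := h01.trans h12
  have hμ0 : 0 < μ := by linarith
  obtain ⟨c₁, hc₁⟩ : ∃ c₁ : ℝ, c₁ = Real.log (μ / ρ2) := ⟨_, rfl⟩
  have hc₁0 : 0 < c₁ := by
    rw [hc₁]
    exact Real.log_pos ((one_lt_div h02).2 h2μ)
  obtain ⟨K2, hK2⟩ : ∃ K2 : ℝ, K2 = 1 + Real.log B / Real.log 2 ^ 2 + 4 * K +
      3 / Real.log 2 := ⟨_, rfl⟩
  have hK21 : 1 ≤ K2 := by
    rw [hK2]
    have : 0 ≤ Real.log B / Real.log 2 ^ 2 := by positivity
    have : 0 ≤ 3 / Real.log 2 := by positivity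
    linarith
  have ev1 := ev_sm |C0| h01 h12 3
  have ev2 := ev_sm (|C0| * ρ1 ^ Y.s) h01 h12 2
  have ev3 := ev_sm (|C0| * ρ1 ^ (Y.s + Y.s)) h01 h12 1
  obtain ⟨N1, hN1⟩ := eventually_atTop.1 (ev1.and (ev2.and ev3))
  refine ⟨R * K2, c₁, max N1 (4 * Y.C * M0 + Y.s + 2), by positivity, hc₁0, by
    have := le_max_right N1 (4 * Y.C * M0 + Y.s + 2); omega, ?_⟩
  intro n hn f hf hf1 hmean
  have hnN1 : N1 ≤ n := (le_max_left _ _).trans hn
  have hnM : 4 * Y.C * M0 + Y.s + 2 ≤ n := (le_max_right _ _).trans hn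
  obtain ⟨e1, e2, e3⟩ := hN1 n hnN1
  have hn2 : 2 ≤ n := by omega
  have hn' : (2 : ℝ) ≤ n := by exact_mod_cast hn2
  have hn0 : (0 : ℝ) < n := by linarith
  have hlowall : ∀ j, μ ^ j ≤ ((Y.K j).card : ℝ) := G.low
  have hNn : (0 : ℝ) < (Y.K n).card := lt_of_lt_of_le (by positivity) (hlowall n)
  obtain ⟨Z0, hZ⟩ : ∃ Z0 : ℝ, Z0 = Y.af f n := ⟨_, rfl⟩
  rw [← hZ] at hmean ⊢
  have hZ0 : 0 < Z0 := lt_of_lt_of_le (mul_pos (Real.exp_pos _) hNn) hmean
  have hZlow : ρ2 ^ n ≤ Z0 := by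
    have h2 : Real.exp (-(c₁ * n)) = (ρ2 / μ) ^ n := by
      rw [hc₁, mul_comm, ← mul_neg, ← Real.log_inv, mul_comm, Real.exp_mul,
        Real.exp_log (by positivity), Real.rpow_natCast, inv_div]
    have h3 : ρ2 ^ n = (ρ2 / μ) ^ n * μ ^ n := by
      rw [div_pow]
      field_simp
    rw [h3, ← h2]
    exact (mul_le_mul_of_nonneg_left (hlowall n) (Real.exp_pos _).le).trans hmean
  have hafle : ∀ j, Y.af f j ≤ (Y.K j).card := by
    intro j
    calc Y.af f j ≤ ∑ _w ∈ Y.K j, (1 : ℝ) := Finset.sum_le_sum fun w _ => hf1 _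
      _ = (Y.K j).card := by simp
  have hL0 : 0 ≤ Real.log ((2 * n : ℕ) : ℝ) := by
    apply Real.log_nonneg; push_cast; linarith
  have hHj : ∀ j ≤ 2 * n, Y.af f j ≤
      (B * Real.exp (K * Real.log ((2 * n : ℕ) : ℝ) ^ 2)) * μ ^ j := by
    intro j hj
    refine (hafle j).trans ?_
    have hex : 1 ≤ Real.exp (K * Real.log ((2 * n : ℕ) : ℝ) ^ 2) :=
      Real.one_le_exp (by positivity)
    have hmj : 1 ≤ μ ^ j := one_le_pow₀ hmu
    have hBe : B ≤ B * Real.exp (K * Real.log ((2 * n : ℕ) : ℝ) ^ 2) * μ ^ j := by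
      calc B = B * 1 * 1 := by ring
        _ ≤ _ := by gcongr
    rcases Nat.lt_or_ge j 2 with hj2 | hj2
    · refine le_trans ?_ hBe
      rcases Nat.lt_or_ge j 1 with hj1 | hj1
      · have : j = 0 := by omega
        subst this
        linarith
      · have : j = 1 := by omega
        subst this
        linarith
    · refine (G.up j hj2).trans ?_
      have hj' : (2 : ℝ) ≤ j := by exact_mod_cast hj2
      have h3 : Real.log j ≤ Real.log ((2 * n : ℕ) : ℝ) :=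
        Real.log_le_log (by linarith) (by exact_mod_cast hj)
      have h4 : 0 ≤ Real.log (j : ℝ) := Real.log_nonneg (by linarith)
      calc μ ^ j * Real.exp (K * Real.log j ^ 2)
          ≤ μ ^ j * Real.exp (K * Real.log ((2 * n : ℕ) : ℝ) ^ 2) := by gcongr
        _ = 1 * Real.exp (K * Real.log ((2 * n : ℕ) : ℝ) ^ 2) * μ ^ j := by ring
        _ ≤ _ := by gcongr
  have hsmall : ∀ T : Finset α, ∑ w ∈ T, f w ≤ T.card := by
    intro T
    calc ∑ w ∈ T, f w ≤ ∑ _w ∈ T, (1 : ℝ) := Finset.sum_le_sum fun w _ => hf1 _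
      _ = T.card := by simp
  have hpoor' : ∀ j, (((Y.K j).filter (fun w => M0 * (Y.B w).card ≤ j)).card : ℝ) ≤
      |C0| * ρ1 ^ j := by
    intro j
    refine (hpoor j).trans ?_
    have h1 : ρ ^ j ≤ ρ1 ^ j := pow_le_pow_left₀ hρ0 hρρ1 j
    have h2 : 0 ≤ ρ ^ j := by positivity
    calc C0 * ρ ^ j ≤ |C0| * ρ ^ j := mul_le_mul_of_nonneg_right (le_abs_self _) h2
      _ ≤ _ := mul_le_mul_of_nonneg_left h1 (abs_nonneg _)
  have hp1 : ∑ w ∈ (Y.K n).filter (fun w => M0 * (Y.B w).card ≤ n), f w ≤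
      Y.af f n / n ^ 3 := by
    rw [← hZ]
    refine (hsmall _).trans ((hpoor' n).trans (e1.trans ?_))
    exact div_le_div_of_nonneg_right hZlow (by positivity)
  have hzero : ∀ k : ℕ, ((((Y.K (n + k)).filter (fun w => (Y.B w).card = 0)).card : ℕ) : ℝ) ≤
      |C0| * ρ1 ^ (n + k) := by
    intro k
    have hsub : (Y.K (n + k)).filter (fun w => (Y.B w).card = 0) ⊆
        (Y.K (n + k)).filter (fun w => M0 * (Y.B w).card ≤ n + k) := by
      intro w hw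
      rw [mem_filter] at hw ⊢
      refine ⟨hw.1, ?_⟩
      have h1 : (Y.B w).card = 0 := hw.2
      rw [h1]
      omega
    have h1 : (((Y.K (n + k)).filter (fun w => (Y.B w).card = 0)).card : ℝ) ≤
        ((Y.K (n + k)).filter (fun w => M0 * (Y.B w).card ≤ n + k)).card := by
      exact_mod_cast Finset.card_le_card hsub
    exact h1.trans (hpoor' _)
  have hp2 : ∑ w ∈ (Y.K (n + Y.s)).filter (fun w => (Y.B w).card = 0), f w ≤
      Y.af f n / n ^ 2 := by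
    rw [← hZ]
    refine (hsmall _).trans ((hzero _).trans ?_)
    have h2 : |C0| * ρ1 ^ (n + Y.s) = |C0| * ρ1 ^ Y.s * ρ1 ^ n := by
      rw [pow_add]; ring
    rw [h2]
    exact e2.trans (div_le_div_of_nonneg_right hZlow (by positivity))
  have hp3 : ∑ w ∈ (Y.K (n + Y.s + Y.s)).filter (fun w => (Y.B w).card = 0), f w ≤
      Y.af f n / n := by
    rw [← hZ, add_assoc]
    refine (hsmall _).trans ((hzero _).trans ?_)
    have h2 : |C0| * ρ1 ^ (n + (Y.s + Y.s)) = |C0| * ρ1 ^ (Y.s + Y.s) * ρ1 ^ n := by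
      rw [pow_add]; ring
    rw [pow_one] at e3
    rw [h2]
    exact e3.trans (div_le_div_of_nonneg_right hZlow hn0.le)
  obtain ⟨hm1, hm2⟩ := hratio f hf _ n hn2 (by omega) hHj (by rw [← hZ]; exact hZ0) hp1 hp2 hp3
  rw [← hZ] at hm1 hm2
  -- logarithms
  have hlogn : Real.log 2 ≤ Real.log n := Real.log_le_log (by norm_num) hn'
  have hlog0 : 0 < Real.log n := by linarith
  have hL2 : Real.log ((2 * n : ℕ) : ℝ) ≤ 2 * Real.log n := by
    push_cast
    rw [Real.log_mul (by norm_num) (by positivity)]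
    linarith
  have hℓ : 0 ≤ Real.log ((Y.K n).card / Z0) := by
    apply Real.log_nonneg
    rw [one_le_div hZ0, hZ]
    exact hafle n
  have hmun : 0 < μ ^ n := by positivity
  have h1 : Real.log (B * Real.exp (K * Real.log ((2 * n : ℕ) : ℝ) ^ 2) * μ ^ n / Z0) ≤
      Real.log B + K * (2 * Real.log n) ^ 2 + Real.log ((Y.K n).card / Z0) := by
    have h2 : B * Real.exp (K * Real.log ((2 * n : ℕ) : ℝ) ^ 2) * μ ^ n / Z0 ≤
        B * Real.exp (K * (2 * Real.log n) ^ 2) * ((Y.K n).card / Z0) := by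
      rw [← mul_div_assoc]
      apply div_le_div_of_nonneg_right _ hZ0.le
      have := hlowall n
      gcongr
    refine (Real.log_le_log (by positivity) h2).trans (le_of_eq ?_)
    rw [Real.log_mul (by positivity) (by positivity), Real.log_mul (by positivity) (by positivity),
      Real.log_exp]
  have h3 : Real.log B ≤ Real.log B / Real.log 2 ^ 2 * Real.log n ^ 2 := by
    rw [div_mul_eq_mul_div, le_div_iff₀ (by positivity)]
    exact mul_le_mul_of_nonneg_left (pow_le_pow_left₀ hl2.le hlogn 2) hlB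
  have h4 : 3 * Real.log n ≤ 3 / Real.log 2 * Real.log n ^ 2 := by
    rw [div_mul_eq_mul_div, le_div_iff₀ hl2]
    nlinarith
  have h5 : Real.log ((Y.K n).card / Z0) ≤ K2 * Real.log ((Y.K n).card / Z0) :=
    le_mul_of_one_le_left hℓ hK21
  have h6 : 0 ≤ Real.log (n : ℝ) ^ 2 := by positivity
  have e6 : K2 * (Real.log n ^ 2 + Real.log ((Y.K n).card / Z0)) =
      Real.log n ^ 2 + Real.log B / Real.log 2 ^ 2 * Real.log n ^ 2 +
      4 * K * Real.log n ^ 2 + 3 / Real.log 2 * Real.log n ^ 2 +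
      K2 * Real.log ((Y.K n).card / Z0) := by
    rw [mul_add]
    congr 1
    rw [hK2]
    ring
  have e7 : K * (2 * Real.log (n : ℝ)) ^ 2 = 4 * K * Real.log n ^ 2 := by ring
  rw [e7] at h1
  have hfin : (Real.log (B * Real.exp (K * Real.log ((2 * n : ℕ) : ℝ) ^ 2) * μ ^ n / Z0) +
      3 * Real.log n) / n ≤
      K2 * ((Real.log n ^ 2 + Real.log ((Y.K n).card / Z0)) / n) := by
    rw [← mul_div_assoc]
    apply div_le_div_of_nonneg_right _ hn0.le
    rw [e6]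
    linarith
  have hq0 : 0 ≤ (Real.log n ^ 2 + Real.log ((Y.K n).card / Z0)) / n := by positivity
  constructor
  · refine hm1.trans ?_
    rw [mul_assoc R K2]
    apply mul_le_mul_of_nonneg_left _ hR.le
    have h8 : Real.sqrt K2 ≤ K2 := by
      rw [Real.sqrt_le_left (by linarith)]
      nlinarith
    calc Real.sqrt _ ≤ Real.sqrt (K2 * ((Real.log n ^ 2 + Real.log ((Y.K n).card / Z0)) / n)) :=
          Real.sqrt_le_sqrt hfin
      _ = Real.sqrt K2 * Real.sqrt ((Real.log n ^ 2 + Real.log ((Y.K n).card / Z0)) / n) :=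
          Real.sqrt_mul (by linarith) _
      _ ≤ _ := mul_le_mul_of_nonneg_right h8 (Real.sqrt_nonneg _)
  · refine hm2.trans ?_
    calc R * Z0 ^ 2 * _ ≤ R * Z0 ^ 2 *
          (K2 * ((Real.log n ^ 2 + Real.log ((Y.K n).card / Z0)) / n)) :=
          mul_le_mul_of_nonneg_left hfin (by positivity)
      _ = _ := by ring

theorem log_sm (R : ℝ) (hR : 0 < R) (ε : ℝ) (hε : 0 < ε) : ∀ᶠ n : ℕ in atTop,
    R * Real.sqrt (Real.log n ^ 2 / n) ≤ ε := by
  have h1 : Tendsto (fun x : ℝ => Real.log x / x ^ (1 / 4 : ℝ)) atTop (𝓝 0) :=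
    (isLittleO_log_rpow_atTop (by norm_num)).tendsto_div_nhds_zero
  have h2 : Tendsto (fun n : ℕ => Real.log n / (n : ℝ) ^ (1 / 4 : ℝ)) atTop (𝓝 0) :=
    h1.comp tendsto_natCast_atTop_atTop
  have h3 : Tendsto (fun n : ℕ => R * (Real.log n / (n : ℝ) ^ (1 / 4 : ℝ))) atTop (𝓝 0) := by
    have := h2.const_mul R
    rwa [mul_zero] at this
  filter_upwards [h3.eventually (gt_mem_nhds hε),
    eventually_ge_atTop 1] with n hn hn1
  have hn' : (1 : ℝ) ≤ n := by exact_mod_cast hn1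
  refine le_trans (mul_le_mul_of_nonneg_left ?_ hR.le) hn.le
  have hl : 0 ≤ Real.log (n : ℝ) := Real.log_nonneg hn'
  rw [Real.sqrt_le_left (by positivity), div_pow]
  apply div_le_div_of_nonneg_left (by positivity) (by positivity)
  rw [← Real.rpow_natCast, ← Real.rpow_mul (by linarith)]
  calc (n : ℝ) ^ ((1 / 4 : ℝ) * ((2 : ℕ) : ℝ)) ≤ (n : ℝ) ^ (1 : ℝ) := by
        apply Real.rpow_le_rpow_of_exponent_le hn'
        norm_num
    _ = n := Real.rpow_one _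

/-- the form for weights whose total is at least `exp (- K' log² n)` times the number of objects -/
theorem second_log {μ K : ℝ} (G : Gs Y μ K) (K' : ℝ) (hK' : 0 ≤ K') :
    ∃ (R : ℝ) (n₀ : ℕ), 0 < R ∧ 2 ≤ n₀ ∧ ∀ n : ℕ, n₀ ≤ n →
    ∀ f : α → ℝ, Y.Wt f → (∀ w, f w ≤ 1) →
      Real.exp (-(K' * Real.log n ^ 2)) * ((Y.K n).card : ℝ) ≤ Y.af f n →
    0 < Y.af f n ∧ 0 < Y.af f (n + Y.s) ∧
    |Y.af f (n + Y.s + Y.s) * Y.af f n / Y.af f (n + Y.s) ^ 2 - 1| ≤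
      R * (Real.log n ^ 2 / n) := by
  obtain ⟨R, c₁, n₀, hR, hc₁, hn₀, h⟩ := growth_second G
  have hmu := G.hμ
  obtain ⟨N1, hN1⟩ := eventually_atTop.1 ((log_sm (R * (1 + K')) (by positivity) (1 / 2)
    (by norm_num)).and ((log_sm (K' + 1) (by positivity) (min c₁ 1)
    (lt_min hc₁ one_pos)).and (eventually_ge_atTop n₀)))
  refine ⟨4 * (R * (1 + K')), max N1 n₀, by positivity, hn₀.trans (le_max_right _ _), ?_⟩
  intro n hn f hf hf1 hmean
  obtain ⟨q1, q2, q3⟩ := hN1 n ((le_max_left _ _).trans hn)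
  have hn2 : 2 ≤ n := hn₀.trans q3
  have hn' : (2 : ℝ) ≤ n := by exact_mod_cast hn2
  have hn0 : (0 : ℝ) < n := by linarith
  have hNn : (0 : ℝ) < (Y.K n).card := lt_of_lt_of_le (by positivity) (G.low n)
  have hZ0 : 0 < Y.af f n := lt_of_lt_of_le (mul_pos (Real.exp_pos _) hNn) hmean
  have hls : 0 ≤ Real.log (n : ℝ) ^ 2 / n := by positivity
  have hsq : Real.log (n : ℝ) ^ 2 / n ≤ Real.sqrt (Real.log n ^ 2 / n) ∧
      (K' * Real.log n ^ 2) ≤ c₁ * n := by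
    have h1 : (K' + 1) * Real.sqrt (Real.log n ^ 2 / n) ≤ 1 := q2.trans (min_le_right _ _)
    have h2 : (K' + 1) * Real.sqrt (Real.log n ^ 2 / n) ≤ c₁ := q2.trans (min_le_left _ _)
    have h3 : Real.sqrt (Real.log n ^ 2 / n) ≤ 1 := by
      have := Real.sqrt_nonneg (Real.log n ^ 2 / (n : ℝ))
      nlinarith
    have h4 : Real.log (n : ℝ) ^ 2 / n ≤ Real.sqrt (Real.log n ^ 2 / n) := by
      have h5 := Real.sq_sqrt hls
      have := Real.sqrt_nonneg (Real.log n ^ 2 / (n : ℝ))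
      nlinarith
    refine ⟨h4, ?_⟩
    have h6 : (K' + 1) * (Real.log (n : ℝ) ^ 2 / n) ≤ c₁ :=
      (mul_le_mul_of_nonneg_left h4 (by positivity)).trans h2
    have h7 : K' * Real.log (n : ℝ) ^ 2 ≤ (K' + 1) * (Real.log (n : ℝ) ^ 2 / n) * n := by
      have e : (K' + 1) * (Real.log (n : ℝ) ^ 2 / n) * n = (K' + 1) * Real.log n ^ 2 := by
        field_simp
      rw [e]
      have : 0 ≤ Real.log (n : ℝ) ^ 2 := by positivity
      nlinarith
    exact h7.trans (mul_le_mul_of_nonneg_right h6 hn0.le)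
  obtain ⟨m1, m2⟩ := h n q3 f hf hf1 (le_trans (by
    apply mul_le_mul_of_nonneg_right _ hNn.le
    rw [Real.exp_le_exp]
    linarith [hsq.2]) hmean)
  have hℓ : Real.log ((Y.K n).card / Y.af f n) ≤ K' * Real.log n ^ 2 := by
    rw [Real.log_le_iff_le_exp (by positivity), div_le_iff₀ hZ0]
    rw [Real.exp_neg, inv_mul_le_iff₀ (Real.exp_pos _)] at hmean
    exact hmean
  have hL : (Real.log n ^ 2 + Real.log ((Y.K n).card / Y.af f n)) / n ≤
      (1 + K') * (Real.log n ^ 2 / n) := by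
    rw [← mul_div_assoc]
    apply div_le_div_of_nonneg_right _ hn0.le
    linarith
  have m3 : |Y.af f (n + Y.s) / Y.af f n - μ ^ Y.s| ≤ 1 / 2 := by
    refine m1.trans (le_trans ?_ q1)
    rw [mul_assoc]
    apply mul_le_mul_of_nonneg_left _ hR.le
    calc Real.sqrt _ ≤ Real.sqrt ((1 + K') * (Real.log n ^ 2 / n)) := Real.sqrt_le_sqrt hL
      _ = Real.sqrt (1 + K') * Real.sqrt (Real.log n ^ 2 / n) := Real.sqrt_mul (by linarith) _
      _ ≤ (1 + K') * Real.sqrt (Real.log n ^ 2 / n) := by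
          apply mul_le_mul_of_nonneg_right _ (Real.sqrt_nonneg _)
          rw [Real.sqrt_le_left (by linarith)]
          nlinarith
  have m4 : 1 / 2 * Y.af f n ≤ Y.af f (n + Y.s) := by
    have h4 := (abs_le.1 m3).1
    have h5 : 1 ≤ μ ^ Y.s := one_le_pow₀ hmu
    have h6 : 1 / 2 ≤ Y.af f (n + Y.s) / Y.af f n := by linarith
    rwa [le_div_iff₀ hZ0] at h6
  have hy : 0 < Y.af f (n + Y.s) := lt_of_lt_of_le (by positivity) m4
  refine ⟨hZ0, hy, ?_⟩
  have e : Y.af f (n + Y.s + Y.s) * Y.af f n / Y.af f (n + Y.s) ^ 2 - 1 =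
      (Y.af f (n + Y.s + Y.s) * Y.af f n - Y.af f (n + Y.s) ^ 2) / Y.af f (n + Y.s) ^ 2 := by
    field_simp
  rw [e, abs_div, abs_of_pos (pow_pos hy 2), div_le_iff₀ (pow_pos hy 2)]
  refine m2.trans ?_
  have h9 : Y.af f n ^ 2 ≤ 4 * Y.af f (n + Y.s) ^ 2 := by nlinarith
  calc R * Y.af f n ^ 2 * ((Real.log n ^ 2 + Real.log ((Y.K n).card / Y.af f n)) / n)
      ≤ R * Y.af f n ^ 2 * ((1 + K') * (Real.log n ^ 2 / n)) :=
        mul_le_mul_of_nonneg_left hL (by positivity)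
    _ = Y.af f n ^ 2 * (R * (1 + K') * (Real.log n ^ 2 / n)) := by ring
    _ ≤ (4 * Y.af f (n + Y.s) ^ 2) * (R * (1 + K') * (Real.log n ^ 2 / n)) :=
        mul_le_mul_of_nonneg_right h9 (by positivity)
    _ = _ := by ring

end

end Pool.Agent.K1H48.SO
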