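import Pool.Agent.K1H48.SO.Growth
import Pool.Agent.H726.GB.SqSys
import Pool.Agent.H726.GB.RatioG
import Pool.Agent.H739K.All2
import Pool.Agent.TH508.LT.Fin2

/-!
# Second differences: walks on planar lattices and polygons on the square lattice
-/

set_option autoImplicit false

namespace Pool.Agent.K1H48.SO

open Finset TH966.AK H726.GB Filter Topology Pool.Agent.H976R2 Pool.Agent.H739K
open scoped Classical

noncomputable section

/-- from large `n` to all `n ≥ 2` -/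
theorem all_n {F G : ℕ → ℝ} (hG : ∀ n, 2 ≤ n → 0 < G n) {R : ℝ} {n₀ : ℕ}
    (h : ∀ n, n₀ ≤ n → F n ≤ R * G n) : ∃ K : ℝ, ∀ n, 2 ≤ n → F n ≤ K * G n := by
  refine ⟨|R| + ∑ i ∈ Finset.range n₀, |F i / G i|, fun n hn => ?_⟩
  have hg := hG n hn
  have hs : 0 ≤ ∑ i ∈ Finset.range n₀, |F i / G i| := Finset.sum_nonneg fun _ _ => abs_nonneg _
  rcases Nat.lt_or_ge n n₀ with h1 | h1
  · have h2 : |F n / G n| ≤ ∑ i ∈ Finset.range n₀, |F i / G i| :=
      Finset.single_le_sum (f := fun i => |F i / G i|) (fun _ _ => abs_nonneg _)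
        (Finset.mem_range.2 h1)
    have h3 : F n / G n ≤ |F n / G n| := le_abs_self _
    have h4 : F n = F n / G n * G n := by field_simp
    rw [h4]
    apply mul_le_mul_of_nonneg_right _ hg.le
    have := abs_nonneg R
    linarith
  · refine (h n h1).trans (mul_le_mul_of_nonneg_right ?_ hg.le)
    have := le_abs_self R
    linarith

theorem log_sq_pos {n : ℕ} (hn : 2 ≤ n) : 0 < Real.log n ^ 2 / (n : ℝ) := by
  have hn' : (2 : ℝ) ≤ n := by exact_mod_cast hn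
  have : 0 < Real.log (n : ℝ) := Real.log_pos (by linarith)
  positivity

variable {α σ : Type} {Y : Sys α σ}

/-- the unweighted case -/
theorem second_one {μ K : ℝ} (G : Gs Y μ K) :
    ∃ K' : ℝ, ∀ n : ℕ, 2 ≤ n →
      |((Y.K (n + Y.s + Y.s)).card : ℝ) * ((Y.K n).card : ℝ) / ((Y.K (n + Y.s)).card : ℝ) ^ 2 - 1| ≤
        K' * (Real.log n ^ 2 / n) := by
  obtain ⟨R, n₀, hR, hn₀, h⟩ := second_log G 0 le_rfl
  have e : ∀ j, Y.af (fun _ => (1 : ℝ)) j = ((Y.K j).card : ℝ) := by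
    intro j
    unfold Sys.af
    simp
  refine all_n (F := fun n => |((Y.K (n + Y.s + Y.s)).card : ℝ) * ((Y.K n).card : ℝ) /
    ((Y.K (n + Y.s)).card : ℝ) ^ 2 - 1|) (G := fun n => Real.log n ^ 2 / (n : ℝ))
    (fun n hn => log_sq_pos hn) (R := R) (n₀ := n₀) (fun n hn => ?_)
  have h1 := h n hn (fun _ => 1) ⟨fun _ _ _ => zero_le_one, fun _ _ _ _ _ => rfl⟩
    (fun _ => le_rfl) (by
      rw [e, zero_mul, neg_zero, Real.exp_zero, one_mul])
  have h2 := h1.2.2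
  rw [e, e, e] at h2
  exact h2

/-- systems of rules -/
theorem gs_of_gr {A : P → P → Prop} {Z : Rule A} {μ K : ℝ} (G : Gr Z μ K) : Gs Z.sys μ K := by
  refine ⟨rfl, G.hμ, G.hK, rule_B_le Z, G.low, G.up, ?_⟩
  obtain ⟨M0, ρ, C0, -, h1, h2, h3⟩ := G.poor
  exact ⟨M0, ρ, C0, h1, h2, h3⟩

/-- the square lattice -/
theorem gs_sq : ∃ K : ℝ, Gs sqSys H981.mu K := by
  obtain ⟨K, hK, hup⟩ := growth_sq
  obtain ⟨Cf, hCf, hfew⟩ := Few.few_card
  refine ⟨K, ⟨rfl, H981.one_le_mu, hK, sq_hB, low_sq, hup, 2001, 2.428,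
    Cf + ((SW 0).card : ℝ), by norm_num, ?_, ?_⟩⟩
  · have := BNDx.mu_ge
    linarith
  · intro n
    have hc0 : (0 : ℝ) ≤ ((SW 0).card : ℝ) := Nat.cast_nonneg _
    rcases Nat.eq_zero_or_pos n with rfl | hn
    · have h1 : ((sqSys.K 0).filter (fun w => 2001 * (sqSys.B w).card ≤ 0)).card ≤
          (SW 0).card := Finset.card_filter_le _ _
      have h2 : ((((sqSys.K 0).filter (fun w => 2001 * (sqSys.B w).card ≤ 0)).card : ℕ) : ℝ) ≤
          ((SW 0).card : ℝ) := by exact_mod_cast h1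
      rw [pow_zero, mul_one]
      linarith
    · have hn0 : (0 : ℝ) < n := by exact_mod_cast hn
      have hsub : (sqSys.K n).filter (fun w => 2001 * (sqSys.B w).card ≤ n) ⊆ few n := by
        intro w hw
        rw [mem_filter] at hw
        unfold few
        rw [mem_filter]
        refine ⟨hw.1, ?_⟩
        have h1 : 2001 * bc w ≤ n := by rw [← card_bmp]; exact hw.2
        have h2 : (2001 : ℝ) * bc w ≤ n := by exact_mod_cast h1
        rw [lt_div_iff₀ (by norm_num)]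
        rcases Nat.eq_zero_or_pos (bc w) with h3 | h3
        · rw [h3]; simpa using hn0
        · have : (0 : ℝ) < bc w := by exact_mod_cast h3
          linarith
      have h1 : ((((sqSys.K n).filter (fun w => 2001 * (sqSys.B w).card ≤ n)).card : ℕ) : ℝ) ≤
          ((few n).card : ℝ) := by exact_mod_cast Finset.card_le_card hsub
      refine h1.trans ((hfew n).trans ?_)
      have h3 : (0 : ℝ) < 2.428 ^ n := by positivity
      nlinarith

/-- the weight of polygons -/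
def pw (x : ℤ × ℤ) : ℝ := if (x.1 : ℝ) ^ 2 + (x.2 : ℝ) ^ 2 = 1 then 1 else 0

theorem pw_nonneg (x : ℤ × ℤ) : 0 ≤ pw x := by
  unfold pw
  split_ifs <;> norm_num

theorem pw_le_one (x : ℤ × ℤ) : pw x ≤ 1 := by
  unfold pw
  split_ifs <;> norm_num

theorem af_pw (n : ℕ) : sqSys.af (ew pw) n = ((KP n).card : ℝ) := by
  show ∑ w ∈ SW n, ew pw w = _
  unfold KP
  rw [Finset.card_filter]
  push_cast
  refine Finset.sum_congr rfl fun w _ => ?_
  unfold ew pw H976R2.sq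
  rfl

theorem poly_second : ∃ K : ℝ, ∀ n : ℕ, 2 ≤ n →
    |H981.PP (n + 2) * H981.PP n / H981.PP (n + 1) ^ 2 - 1| ≤ K * (Real.log n ^ 2 / n) := by
  obtain ⟨K, G⟩ := gs_sq
  obtain ⟨K1, hK1, hPP⟩ := Pool.Agent.TH508.LT.sq_PP2
  have hKn := G.hK
  have hmu1 : (1 : ℝ) ≤ H981.mu := H981.one_le_mu
  obtain ⟨R, n₀, hR, hn₀, h⟩ := second_log G (K + K1) (by positivity)
  refine all_n (F := fun n => |H981.PP (n + 2) * H981.PP n / H981.PP (n + 1) ^ 2 - 1|)
    (G := fun n => Real.log n ^ 2 / (n : ℝ))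
    (fun n hn => log_sq_pos hn) (R := 8 * R + 4) (n₀ := max n₀ 2) (fun n hn => ?_)
  have hn2 : 2 ≤ n := (le_max_right _ _).trans hn
  have hn' : (2 : ℝ) ≤ n := by exact_mod_cast hn2
  have hn0 : (0 : ℝ) < n := by linarith
  have hm : n₀ ≤ 2 * n - 1 := by
    have := (le_max_left n₀ 2).trans hn
    omega
  have c0 := card_KP_eq CONV_proof hn2
  have c1 := card_KP_eq CONV_proof (N := n + 1) (by omega)
  have c2 := card_KP_eq CONV_proof (N := n + 2) (by omega)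
  have hmn : ((2 * n - 1 : ℕ) : ℝ) = 2 * n - 1 := by
    rw [Nat.cast_sub (by omega)]
    push_cast
    ring
  have hlogm : Real.log n ≤ Real.log ((2 * n - 1 : ℕ) : ℝ) := by
    apply Real.log_le_log hn0
    rw [hmn]; linarith
  have hlog0 : 0 < Real.log (n : ℝ) := Real.log_pos (by linarith)
  have hlogm2 : Real.log ((2 * n - 1 : ℕ) : ℝ) ≤ 2 * Real.log n := by
    have h1 : Real.log ((2 * n - 1 : ℕ) : ℝ) ≤ Real.log (n * n) := by
      apply Real.log_le_log
      · rw [hmn]; linarith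
      · rw [hmn]; nlinarith
    rw [Real.log_mul hn0.ne' hn0.ne'] at h1
    linarith
  have q := h (2 * n - 1) hm (ew pw) (ew_Wt pw_nonneg) (fun w => pw_le_one _) (by
    rw [af_pw, c0]
    have u := G.up (2 * n - 1) (by omega)
    have l := (hPP n hn2).1
    have hP0 : 0 ≤ H981.PP n := le_trans (by positivity) l
    have hex : Real.exp (-(K1 * Real.log ((2 * n - 1 : ℕ) : ℝ) ^ 2)) ≤
        Real.exp (-(K1 * Real.log n ^ 2)) := by
      rw [Real.exp_le_exp, neg_le_neg_iff]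
      gcongr
    have hmuu : H981.mu ^ (2 * n - 1) ≤ H981.mu ^ (2 * n) :=
      pow_le_pow_right₀ hmu1 (by omega)
    calc Real.exp (-((K + K1) * Real.log ((2 * n - 1 : ℕ) : ℝ) ^ 2)) *
          ((sqSys.K (2 * n - 1)).card : ℝ)
        ≤ Real.exp (-((K + K1) * Real.log ((2 * n - 1 : ℕ) : ℝ) ^ 2)) *
          (H981.mu ^ (2 * n - 1) * Real.exp (K * Real.log ((2 * n - 1 : ℕ) : ℝ) ^ 2)) :=
          mul_le_mul_of_nonneg_left u (Real.exp_pos _).le
      _ = H981.mu ^ (2 * n - 1) * Real.exp (-(K1 * Real.log ((2 * n - 1 : ℕ) : ℝ) ^ 2)) := by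
          rw [mul_left_comm, ← Real.exp_add]
          congr 2
          ring
      _ ≤ H981.mu ^ (2 * n) * Real.exp (-(K1 * Real.log n ^ 2)) := by gcongr
      _ ≤ H981.PP n := l
      _ ≤ 4 * (n : ℝ) * H981.PP n := by nlinarith)
  obtain ⟨-, -, q⟩ := q
  have hs : sqSys.s = 2 := rfl
  rw [hs, af_pw, af_pw, af_pw, show 2 * n - 1 + 2 + 2 = 2 * (n + 2) - 1 by omega,
    show 2 * n - 1 + 2 = 2 * (n + 1) - 1 by omega, c0, c1, c2] at q
  have hP0 := PP_pos' hn2
  have hP1 := PP_pos' (N := n + 1) (by omega)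
  have hP2 := PP_pos' (N := n + 2) (by omega)
  obtain ⟨z, hz⟩ : ∃ z : ℝ, z = H981.PP (n + 2) * H981.PP n / H981.PP (n + 1) ^ 2 := ⟨_, rfl⟩
  have e1 : 4 * ((n + 2 : ℕ) : ℝ) * H981.PP (n + 2) * (4 * (n : ℝ) * H981.PP n) /
      (4 * ((n + 1 : ℕ) : ℝ) * H981.PP (n + 1)) ^ 2 = z * (n * (n + 2) / (n + 1) ^ 2) := by
    rw [hz]
    push_cast
    field_simp
  rw [e1] at q
  show |H981.PP (n + 2) * H981.PP n / H981.PP (n + 1) ^ 2 - 1| ≤ _
  rw [← hz]
  have e2 : z - 1 = (z * (n * (n + 2) / (n + 1) ^ 2) - 1) * ((n + 1) ^ 2 / (n * (n + 2))) +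
      1 / (n * (n + 2)) := by
    field_simp
    ring
  have k1 : ((n : ℝ) + 1) ^ 2 / (n * (n + 2)) ≤ 2 := by
    rw [div_le_iff₀ (by positivity)]
    nlinarith
  have k2 : Real.log ((2 * n - 1 : ℕ) : ℝ) ^ 2 / ((2 * n - 1 : ℕ) : ℝ) ≤
      4 * (Real.log n ^ 2 / n) := by
    have h1 : Real.log ((2 * n - 1 : ℕ) : ℝ) ^ 2 ≤ (2 * Real.log n) ^ 2 :=
      pow_le_pow_left₀ (by linarith) hlogm2 2
    calc Real.log ((2 * n - 1 : ℕ) : ℝ) ^ 2 / ((2 * n - 1 : ℕ) : ℝ)
        ≤ (2 * Real.log n) ^ 2 / n := by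
          apply div_le_div₀ (by positivity) h1 hn0
          rw [hmn]; linarith
      _ = _ := by ring
  have k3 : 1 / ((n : ℝ) * (n + 2)) ≤ 4 * (Real.log n ^ 2 / n) := by
    have h1 : (1 : ℝ) / 2 ≤ Real.log n := by
      have h1 : Real.log 2 ≤ Real.log n := Real.log_le_log (by norm_num) hn'
      have h2 := Real.log_two_gt_d9
      linarith
    have h2 : (1 : ℝ) / 4 ≤ Real.log n ^ 2 := by nlinarith
    rw [← mul_div_assoc, div_le_div_iff₀ (by positivity) hn0]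
    have h3 : (1 : ℝ) ≤ 4 * Real.log n ^ 2 := by linarith
    have h4 : (n : ℝ) ≤ n * (n + 2) := by nlinarith
    calc 1 * (n : ℝ) ≤ 1 * (n * (n + 2)) := by linarith
      _ ≤ 4 * Real.log n ^ 2 * (n * (n + 2)) := by gcongr
  rw [e2]
  refine (abs_add_le _ _).trans ?_
  rw [abs_mul, abs_of_nonneg (show (0 : ℝ) ≤ ((n : ℝ) + 1) ^ 2 / (n * (n + 2)) by positivity),
    abs_of_nonneg (show (0 : ℝ) ≤ 1 / ((n : ℝ) * (n + 2)) by positivity)]
  calc |z * (n * (n + 2) / (n + 1) ^ 2) - 1| * (((n : ℝ) + 1) ^ 2 / (n * (n + 2))) +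
        1 / (n * (n + 2))
      ≤ (R * (4 * (Real.log n ^ 2 / n))) * 2 + 4 * (Real.log n ^ 2 / n) := by
        refine add_le_add (mul_le_mul (q.trans ?_) k1 (by positivity) (by positivity)) k3
        exact mul_le_mul_of_nonneg_left k2 hR.le
    _ = _ := by ring

end

end Pool.Agent.K1H48.SO
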