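import Pool.Agent.K1H48.SO.Univ
import Pool.Agent.H726.GB.Gen
import Pool.Agent.R131.LT.Fin

/-!
# All pairs of patterns with the same ends, for walks in domains of the honeycomb lattice
-/

set_option autoImplicit false

namespace Pool.Agent.K1H48.SO

open Finset TH966.AK Pool.Agent.R131.LS Pool.Agent.R131.LT
open H726.GB (Pr Rl sz sz_le)
open Pool.Agent.W832.HR (Traj)
open scoped Classical

theorem Pr_map {A : P → P → Prop} {f : P → P} (hf : Function.Injective f)
    (hA : ∀ a b, A a b → A (f a) (f b)) {U U' : List P} (h : Pr A U U') :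
    Pr A (U.map f) (U'.map f) := by
  obtain ⟨h1, h2, h3, h4, h5, h6, h7, h8⟩ := h
  refine ⟨by simpa using h1, by simpa using h2, ?_, ?_, ?_, ?_, ?_, ?_⟩
  · rw [List.head?_map, List.head?_map, h3]
  · rw [List.getLast?_map, List.getLast?_map, h4]
  · exact h5.map hf
  · exact h6.map hf
  · rw [List.isChain_map]
    exact h7.imp fun p q hpq => hA p q hpq
  · rw [List.isChain_map]
    exact h8.imp fun p q hpq => hA p q hpq

theorem hex_shift {x : P} (hx : Even (x.1 + x.2)) {p q : P} (h : Hex.A p q) :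
    Hex.A (x + p) (x + q) := by
  rw [Hex.A_iff] at h ⊢
  rw [Int.even_iff] at hx
  simp only [Prod.fst_add, Prod.snd_add]
  omega

/-- the translated pattern, seen from `p` -/
def tp (p : P) (U : List P) (x : P) : List P := (U.map (x + ·)).map (ps p)

theorem mem_tp {p x v : P} {U : List P} : v ∈ tp p U x ↔ ∃ y ∈ U, v = ps p (x + y) := by
  unfold tp
  rw [List.map_map, List.mem_map]
  constructor
  · rintro ⟨y, hy, rfl⟩
    exact ⟨y, hy, rfl⟩
  · rintro ⟨y, hy, rfl⟩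
    exact ⟨y, hy, rfl⟩

theorem Pr_tp {p x : P} (hx : Even (x.1 + x.2)) {U U' : List P} (h : Pr Hex.A U U') :
    Pr Hex.A (tp p U x) (tp p U' x) :=
  Pr_map (ps_inj p) (fun _ _ h => A_ps h)
    (Pr_map (add_right_injective x) (fun _ _ h => hex_shift hx h) h)

theorem sg_abs (p : P) (a b : ℤ) : |sg p * (a - p.2) - sg p * (b - p.2)| = |a - b| := by
  rcases sg_cases p with ⟨-, h⟩ | ⟨-, h⟩ <;> rw [h]
  · congr 1; ring
  · rw [abs_sub_comm a b]
    congr 1
    ring

/-- the rule of all translates of a pair of patterns, in the domain -/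
def rlP (D : Set P) (p : P) (U U' : List P) (h : Pr Hex.A U U') (hl : U.length ≤ U'.length) :
    Rl (AD Hex.A (Dp D p)) where
  T V V' := (∃ x : P, Even (x.1 + x.2) ∧ V = tp p U x ∧ V' = tp p U' x) ∧
    (∀ v ∈ V, Dp D p v) ∧ ∀ v ∈ V', Dp D p v
  ρ := 2 * sz (U ++ U')
  k := U.length
  s := U'.length - U.length
  step := fun p q h => Hex.A_step h.1
  pair := by
    rintro _ _ ⟨⟨x, hx, rfl, rfl⟩, hV, hV'⟩
    obtain ⟨h1, h2, h3, h4, h5, h6, h7, h8⟩ := Pr_tp (p := p) hx h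
    exact ⟨h1, h2, h3, h4, h5, h6, chain_AD h7 hV, chain_AD h8 hV'⟩
  len := by
    rintro _ _ ⟨⟨x, hx, rfl, rfl⟩, -, -⟩
    unfold tp
    simp only [List.length_map]
    exact ⟨trivial, by omega⟩
  loc := by
    rintro _ _ ⟨⟨x, hx, rfl, rfl⟩, -, -⟩ y hy z hz
    have hy' : ∃ y' ∈ U ++ U', y = ps p (x + y') := by
      rcases List.mem_append.1 hy with h | h
      · obtain ⟨y', h1, h2⟩ := mem_tp.1 h
        exact ⟨y', by simp [h1], h2⟩
      · obtain ⟨y', h1, h2⟩ := mem_tp.1 h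
        exact ⟨y', by simp [h1], h2⟩
    have hz' : ∃ z' ∈ U ++ U', z = ps p (x + z') := by
      rcases List.mem_append.1 hz with h | h
      · obtain ⟨z', h1, h2⟩ := mem_tp.1 h
        exact ⟨z', by simp [h1], h2⟩
      · obtain ⟨z', h1, h2⟩ := mem_tp.1 h
        exact ⟨z', by simp [h1], h2⟩
    obtain ⟨y', hy1, rfl⟩ := hy'
    obtain ⟨z', hz1, rfl⟩ := hz'
    have h1 := sz_le hy1
    have h2 := sz_le hz1
    unfold ps
    simp only [sg_abs]
    simp only [Prod.fst_add, Prod.snd_add, abs_le] at h1 h2 ⊢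
    push_cast
    omega

theorem rep_lastR {A : P → P → Prop} {U U' w : List P} (h : Pr A U U') (hw : Walk A w)
    (hf : Free U U' w) : (Rule.rep w U U').getLast? = w.getLast? := by
  obtain ⟨L, R, h1, h2, -⟩ := Rl.rep_all h hw hf
  rw [h2]
  conv_rhs => rw [h1]
  rw [List.getLast?_append, List.getLast?_append, List.getLast?_append, List.getLast?_append,
    h.2.2.2.1]

/-- the walks from `0` to `e` -/
noncomputable def sysR {A : P → P → Prop} (Z : Rl A) (e : P) :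
    Sys (List P) (List P × List P) where
  K n := (Kw A n).filter (fun w => w.getLast? = some e)
  S := Z.S
  B := Z.B
  ins w q := Rule.rep w q.1 q.2
  rem w q := Rule.rep w q.2 q.1
  s := Z.s
  C := Z.CC
  n0 := 0
  hC := Z.sys.hC
  ins_K := by
    rintro n w ⟨U, U'⟩ hw hq
    rw [mem_filter] at hw ⊢
    have hq' := hq
    rw [Z.mem_S] at hq'
    refine ⟨Z.sys.ins_K n w (U, U') hw.1 hq, ?_⟩
    rw [← hw.2]
    exact rep_lastR (Z.pair _ _ hq'.1) (Z.mem_K.1 hw.1).2 hq'.2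
  ins_B := fun n w q hw hq => Z.sys.ins_B n w q (mem_filter.1 hw).1 hq
  rem_ins := fun n w q hw hq => Z.sys.rem_ins n w q (mem_filter.1 hw).1 hq
  rem_K := by
    rintro n w ⟨U, U'⟩ h0 hw hq
    rw [mem_filter] at hw ⊢
    have hq' := hq
    rw [Z.mem_B] at hq'
    refine ⟨Z.sys.rem_K n w (U, U') h0 hw.1 hq, ?_⟩
    rw [← hw.2]
    exact rep_lastR (Z.pair _ _ hq'.1).symm (Z.mem_K.1 hw.1).2 hq'.2
  rem_S := fun n w q h0 hw hq => Z.sys.rem_S n w q h0 (mem_filter.1 hw).1 hq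
  ins_rem := fun n w q h0 hw hq => Z.sys.ins_rem n w q h0 (mem_filter.1 hw).1 hq
  chS1 := fun n w q hw hq => Z.sys.chS1 n w q (mem_filter.1 hw).1 hq
  chS2 := fun n w q hw hq => Z.sys.chS2 n w q (mem_filter.1 hw).1 hq
  chB1 := fun n w q hw hq => Z.sys.chB1 n w q (mem_filter.1 hw).1 hq
  chB2 := fun n w q hw hq => Z.sys.chB2 n w q (mem_filter.1 hw).1 hq
  S_le := fun n w hw => Z.sys.S_le n w (mem_filter.1 hw).1

/-- the hypotheses hold for walks in a finite set -/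
theorem good_sysR {A : P → P → Prop} (Z : Rl A) (hk : 1 ≤ Z.k) (e : P) {x : ℝ} (hx0 : 0 < x)
    (hx1 : x ≤ 1) (F : Finset P) (hF : ∀ n, ∀ w ∈ Kw A n, ∀ y ∈ w, y ∈ F) :
    Good (sysR Z e) x F.card where
  x0 := hx0
  x1 := hx1
  n0 := rfl
  big := by
    intro m hm
    rw [Finset.eq_empty_iff_forall_notMem]
    intro w hw
    have hw' : w ∈ Kw A m := (mem_filter.1 hw).1
    have h1 := hF m w hw'
    rw [Z.mem_K] at hw'
    have h2 : w.toFinset ⊆ F := fun y hy => h1 y (List.mem_toFinset.1 hy)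
    have h3 := Finset.card_le_card h2
    rw [List.toFinset_card_of_nodup hw'.2.2.1, hw'.1] at h3
    omega
  small := by
    intro m hm w hw
    have hw' : w ∈ Kw A m := (mem_filter.1 hw).1
    rw [Z.mem_K] at hw'
    rw [Finset.eq_empty_iff_forall_notMem]
    intro q hq
    have hq' : q ∈ Z.B w := hq
    rw [Z.mem_B] at hq'
    have h1 := hq'.2.1.length_le
    have h2 := (Z.len _ _ hq'.1).2
    have hm' : m < Z.s := hm
    omega
  B_le := fun m w hw => H726.GB.B_le Z m w (mem_filter.1 hw).1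

/-- the number of places where `U` can be replaced by `U'` -/
noncomputable def NP (D : Set P) (U U' l : List P) : ℕ :=
  Set.ncard {x : P | Even (x.1 + x.2) ∧ U.map (x + ·) <:+: l ∧
    ∀ y ∈ U', x + y ∈ D ∧ (y ∈ U ∨ x + y ∉ l)}

theorem mapPs (p : P) (l : List P) : (l.map (ps p)).map (pi p) = l := by
  rw [List.map_map]
  have e : pi p ∘ ps p = id := by
    funext x
    exact pi_ps p x
  rw [e, List.map_id]

theorem mapPi (p : P) (l : List P) : (l.map (pi p)).map (ps p) = l := by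
  rw [List.map_map]
  have e : ps p ∘ pi p = id := by
    funext x
    exact ps_pi p x
  rw [e, List.map_id]

theorem free_iff {D : Set P} {p x : P} {U U' w : List P} (hw : ∀ v ∈ w, pi p v ∈ D) :
    (((∀ v ∈ tp p U x, Dp D p v) ∧ ∀ v ∈ tp p U' x, Dp D p v) ∧
      Free (tp p U x) (tp p U' x) w) ↔
    (U.map (x + ·) <:+: w.map (pi p) ∧
      ∀ y ∈ U', x + y ∈ D ∧ (y ∈ U ∨ x + y ∉ w.map (pi p))) := by
  constructor
  · rintro ⟨⟨h1, h2⟩, h3, h4⟩
    refine ⟨?_, fun y hy => ⟨?_, ?_⟩⟩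
    · have := h3.map (pi p)
      unfold tp at this
      rwa [mapPs] at this
    · have := h2 _ (mem_tp.2 ⟨y, hy, rfl⟩)
      unfold Dp at this
      rwa [pi_ps] at this
    · by_cases hyU : y ∈ U
      · exact Or.inl hyU
      · refine Or.inr fun hc => ?_
        obtain ⟨z, hz, hz2⟩ := List.mem_map.1 hc
        refine h4 (ps p (x + y)) (mem_tp.2 ⟨y, hy, rfl⟩) ?_ ?_
        · intro hc2
          obtain ⟨y', hy', h5⟩ := mem_tp.1 hc2
          have h6 := ps_inj p h5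
          have : y = y' := add_right_injective x h6
          exact hyU (this ▸ hy')
        · rw [← hz2, ps_pi]
          exact hz
  · rintro ⟨h1, h2⟩
    refine ⟨⟨?_, ?_⟩, ?_, ?_⟩
    · intro v hv
      obtain ⟨y, hy, rfl⟩ := mem_tp.1 hv
      unfold Dp
      rw [pi_ps]
      have h3 : x + y ∈ w.map (pi p) := h1.subset (List.mem_map.2 ⟨y, hy, rfl⟩)
      obtain ⟨z, hz, hz2⟩ := List.mem_map.1 h3
      rw [← hz2]
      exact hw z hz
    · intro v hv
      obtain ⟨y, hy, rfl⟩ := mem_tp.1 hv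
      unfold Dp
      rw [pi_ps]
      exact (h2 y hy).1
    · have := h1.map (ps p)
      rwa [mapPi] at this
    · intro v hv hvU hvw
      obtain ⟨y, hy, rfl⟩ := mem_tp.1 hv
      rcases (h2 y hy).2 with h3 | h3
      · exact hvU (mem_tp.2 ⟨y, h3, rfl⟩)
      · apply h3
        rw [List.mem_map]
        exact ⟨_, hvw, pi_ps p _⟩

theorem tp_inj {p : P} {U U' : List P} (hU : U ≠ []) :
    Function.Injective (fun x : P => (tp p U x, tp p U' x)) := by
  intro x y hxy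
  simp only [Prod.mk.injEq] at hxy
  have h1 := List.map_injective_iff.2 (ps_inj p) hxy.1
  obtain ⟨z, U0, rfl⟩ := List.exists_cons_of_ne_nil hU
  simp only [List.map_cons, List.cons.injEq] at h1
  exact add_left_injective z h1.1

theorem cardR_S {D : Set P} {p e : P} {U U' : List P} (h : Pr Hex.A U U')
    (hl : U.length ≤ U'.length) {w : List P} (hw : ∀ v ∈ w, pi p v ∈ D) :
    ((sysR (rlP D p U U' h hl) e).S w).card = NP D U U' (w.map (pi p)) := by
  unfold NP
  rw [← Set.ncard_coe_finset, ← Set.ncard_image_of_injective _ (tp_inj (p := p) (U' := U') h.1)]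
  congr 1
  ext ⟨V, V'⟩
  rw [Finset.mem_coe, Set.mem_image]
  show (V, V') ∈ (rlP D p U U' h hl).S w ↔ _
  rw [Rl.mem_S]
  constructor
  · rintro ⟨⟨⟨x, hx, rfl, rfl⟩, h1⟩, h2⟩
    exact ⟨x, ⟨hx, (free_iff hw).1 ⟨h1, h2⟩⟩, rfl⟩
  · rintro ⟨x, ⟨hx, h2⟩, h3⟩
    simp only [Prod.mk.injEq] at h3
    obtain ⟨rfl, rfl⟩ := h3
    have h4 := (free_iff hw).2 h2
    exact ⟨⟨⟨x, hx, rfl, rfl⟩, h4.1⟩, h4.2⟩

theorem cardR_B {D : Set P} {p e : P} {U U' : List P} (h : Pr Hex.A U U')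
    (hl : U.length ≤ U'.length) {w : List P} (hw : ∀ v ∈ w, pi p v ∈ D) :
    ((sysR (rlP D p U U' h hl) e).B w).card = NP D U' U (w.map (pi p)) := by
  unfold NP
  rw [← Set.ncard_coe_finset, ← Set.ncard_image_of_injective _ (tp_inj (p := p) (U' := U') h.1)]
  congr 1
  ext ⟨V, V'⟩
  rw [Finset.mem_coe, Set.mem_image]
  show (V, V') ∈ (rlP D p U U' h hl).B w ↔ _
  rw [Rl.mem_B]
  constructor
  · rintro ⟨⟨⟨x, hx, rfl, rfl⟩, h1⟩, h2⟩
    exact ⟨x, ⟨hx, (free_iff hw).1 ⟨⟨h1.2, h1.1⟩, h2⟩⟩, rfl⟩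
  · rintro ⟨x, ⟨hx, h2⟩, h3⟩
    simp only [Prod.mk.injEq] at h3
    obtain ⟨rfl, rfl⟩ := h3
    have h4 := (free_iff hw).2 h2
    exact ⟨⟨⟨x, hx, rfl, rfl⟩, ⟨h4.1.2, h4.1.1⟩⟩, h4.2⟩

/-- **all pairs of patterns, all finite domains** -/
theorem univ_pat (U U' : List P) (h : Pr Hex.A U U') (hl : U.length ≤ U'.length) :
    ∃ C : ℝ, 1 ≤ C ∧ ∀ (D : Set P), D.Finite → ∀ (p q : P) (x : ℝ), 0 < x → x ≤ 1 →
      ∀ t : ℝ, 0 ≤ t →
      ∑ᶠ l ∈ Traj D p q, x ^ (l.length - 1) *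
        (if t * Real.sqrt (((l.length - 1 : ℕ) : ℝ) + 1) ≤
        |x ^ (U'.length - U.length) * (NP D U U' l : ℝ) - (NP D U' U l : ℝ)| then (1 : ℝ) else 0) ≤
        C * Real.exp (-(t ^ 2 / C)) * Zx x D p q := by
  obtain ⟨A, hA⟩ : ∃ A : ℝ, A = uA ((rlP Set.univ 0 U U' h hl).CC : ℝ)
    ((U'.length - U.length : ℕ) : ℝ) := ⟨_, rfl⟩
  have hC1 : (1 : ℝ) ≤ ((rlP Set.univ 0 U U' h hl).CC : ℝ) := by
    exact_mod_cast (rlP Set.univ 0 U U' h hl).sys.hC
  have hAC : ((rlP Set.univ 0 U U' h hl).CC : ℝ) ≤ A := by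
    rw [hA]
    exact uA_ge (Nat.cast_nonneg _) (Nat.cast_nonneg _)
  have hA1 : 1 ≤ A := hC1.trans hAC
  obtain ⟨C, hC⟩ : ∃ C : ℝ, C = 2 * Real.exp A + 4 * A := ⟨_, rfl⟩
  have hE := Real.exp_pos A
  have hC4 : 4 * A ≤ C := by rw [hC]; linarith
  have hC2 : 2 * Real.exp A ≤ C := by rw [hC]; linarith
  have hCp : 0 < C := by linarith
  refine ⟨C, by linarith, ?_⟩
  intro D hD p q x hx0 hx1 t ht
  have hZ0 : 0 ≤ Zx x D p q := by
    unfold Zx
    exact finsum_nonneg fun l => finsum_nonneg fun _ => by positivity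
  have hR : 0 ≤ C * Real.exp (-(t ^ 2 / C)) * Zx x D p q := by positivity
  by_cases hp : p ∈ D
  swap
  · have hT : Traj D p q = ∅ := by
      rw [Set.eq_empty_iff_forall_notMem]
      rintro l ⟨h1, -, -, -, h5⟩
      exact hp (h5 p (List.mem_of_head? h1))
    rw [hT, finsum_mem_empty]
    exact hR
  obtain ⟨F, hF⟩ := hD.exists_finset_coe
  have h0 : Dp D p 0 := by
    unfold Dp
    rwa [pi_zero]
  have hgood : Good (sysR (rlP D p U U' h hl) (ps p q)) x F.card := by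
    have hk : 1 ≤ (rlP D p U U' h hl).k := List.length_pos_iff.2 h.1
    have h1 := good_sysR (rlP D p U U' h hl) hk (ps p q) hx0 hx1 (F.image (ps p))
      (fun n w hw y hy => by
        rw [(rlP D p U U' h hl).mem_K] at hw
        have h2 : pi p y ∈ D := mem_of_chain hw.2.2.2 (fun v hv => by
          rw [hw.2.1] at hv
          cases hv
          exact h0) y hy
        rw [← hF] at h2
        exact mem_image.2 ⟨pi p y, h2, ps_pi p y⟩)
    rw [Finset.card_image_of_injective _ (ps_inj p)] at h1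
    exact h1
  have ht' := univ_tail hgood ht
  have eC : ((sysR (rlP D p U U' h hl) (ps p q)).C : ℝ) = ((rlP Set.univ 0 U U' h hl).CC : ℝ) := rfl
  have eS : ((sysR (rlP D p U U' h hl) (ps p q)).s : ℝ) = ((U'.length - U.length : ℕ) : ℝ) := rfl
  rw [eC, eS, ← hA] at ht'
  have eZ : Ex (sysR (rlP D p U U' h hl) (ps p q)) x F.card (fun _ _ => 1) = Zx x D p q :=
    (Zx_eq hp F hF x).symm
  rw [eZ] at ht'
  have eM : ∑ᶠ l ∈ Traj D p q, x ^ (l.length - 1) *
      (if t * Real.sqrt (((l.length - 1 : ℕ) : ℝ) + 1) ≤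
        |x ^ (U'.length - U.length) * (NP D U U' l : ℝ) - (NP D U' U l : ℝ)| then (1 : ℝ) else 0) =
      Ex (sysR (rlP D p U U' h hl) (ps p q)) x F.card
        (fun m w => if t * Real.sqrt ((m : ℝ) + 1) ≤
          |dd (sysR (rlP D p U U' h hl) (ps p q)) x w| then 1 else 0) := by
    rw [sumx_eq hp F hF x (fun m l => if t * Real.sqrt ((m : ℝ) + 1) ≤
        |x ^ (U'.length - U.length) * (NP D U U' l : ℝ) - (NP D U' U l : ℝ)| then (1 : ℝ) else 0)]
    unfold Ex
    refine Finset.sum_congr rfl fun m _ => ?_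
    congr 1
    refine Finset.sum_congr rfl fun w hw => ?_
    obtain ⟨h1, h2⟩ := (mem_Yp hp).1 hw
    have hw' : ∀ v ∈ w, pi p v ∈ D := fun v hv => h2.2.2.2.2 _ (List.mem_map_of_mem hv)
    unfold dd
    beta_reduce
    rw [cardR_S (e := ps p q) h hl hw', cardR_B (e := ps p q) h hl hw']
    rfl
  rw [eM]
  refine ht'.trans (mul_le_mul_of_nonneg_right ?_ hZ0)
  refine mul_le_mul hC2 (Real.exp_le_exp.2 (neg_le_neg ?_)) (Real.exp_pos _).le hCp.le
  exact div_le_div_of_nonneg_left (sq_nonneg t) (by linarith) hC4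

theorem traj_finite {D : Set P} (hD : D.Finite) (p q : P) : (Traj D p q).Finite := by
  by_cases hp : p ∈ D
  · obtain ⟨F, hF⟩ := hD.exists_finset_coe
    rw [traj_eq, ← coe_TT hp F hF]
    exact Finset.finite_toSet _
  · have hT : Traj D p q = ∅ := by
      rw [Set.eq_empty_iff_forall_notMem]
      rintro l ⟨h1, -, -, -, h5⟩
      exact hp (h5 p (List.mem_of_head? h1))
    rw [hT]
    exact Set.finite_empty

end Pool.Agent.K1H48.SO
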