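import Pool.Agent.K1H48.SO.Pat
import Pool.Agent.K1H48.SO.Univ2

/-!
# All pairs of patterns, all finite domains, all positive parameters
-/

set_option autoImplicit false

namespace Pool.Agent.K1H48.SO

open Finset TH966.AK Pool.Agent.R131.LS Pool.Agent.R131.LT
open H726.GB (Pr Rl sz sz_le)
open Pool.Agent.W832.HR (Traj)
open scoped Classical

/-- **all pairs of patterns, all finite domains** -/
theorem univ_pat3 (U U' : List P) (h : Pr Hex.A U U') (hl : U.length ≤ U'.length) :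
    ∃ C : ℝ, 1 ≤ C ∧ ∀ (D : Set P), D.Finite → ∀ (p q : P) (x : ℝ), 0 < x →
      ∀ t : ℝ, 0 ≤ t →
      ∑ᶠ l ∈ Traj D p q, x ^ (l.length - 1) *
        (if t * Real.sqrt (((l.length - 1 : ℕ) : ℝ) + 1) ≤
        |al x (U'.length - U.length) * (NP D U U' l : ℝ) -
          be x (U'.length - U.length) * (NP D U' U l : ℝ)| then (1 : ℝ) else 0) ≤
        C * Real.exp (-(t ^ 2 / C)) * Zx x D p q := by
  obtain ⟨A, hA⟩ : ∃ A : ℝ, A = uA ((rlP Set.univ 0 U U' h hl).CC : ℝ)
    ((U'.length - U.length : ℕ) : ℝ) := ⟨_, rfl⟩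
  have hC1 : (1 : ℝ) ≤ ((rlP Set.univ 0 U U' h hl).CC : ℝ) := by
    exact_mod_cast (rlP Set.univ 0 U U' h hl).sys.hC
  have hAC : ((rlP Set.univ 0 U U' h hl).CC : ℝ) ≤ A := by
    rw [hA]
    exact uA_ge (Nat.cast_nonneg _) (Nat.cast_nonneg _)
  have hA1 : 1 ≤ A := hC1.trans hAC
  obtain ⟨C, hC⟩ : ∃ C : ℝ, C = 2 * Real.exp A + 4 * A := ⟨_, rfl⟩
  have hE := Real.exp_pos A
  have hC4 : 4 * A ≤ C := by rw [hC]; linarith
  have hC2 : 2 * Real.exp A ≤ C := by rw [hC]; linarith
  have hCp : 0 < C := by linarith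
  refine ⟨C, by linarith, ?_⟩
  intro D hD p q x hx0 t ht
  have hZ0 : 0 ≤ Zx x D p q := by
    unfold Zx
    exact finsum_nonneg fun l => finsum_nonneg fun _ => by positivity
  have hR : 0 ≤ C * Real.exp (-(t ^ 2 / C)) * Zx x D p q := by positivity
  by_cases hp : p ∈ D
  swap
  · have hT : Traj D p q = ∅ := by
      rw [Set.eq_empty_iff_forall_notMem]
      rintro l ⟨h1, -, -, -, h5⟩
      exact hp (h5 p (List.mem_of_head? h1))
    rw [hT, finsum_mem_empty]
    exact hR
  obtain ⟨F, hF⟩ := hD.exists_finset_coe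
  have h0 : Dp D p 0 := by
    unfold Dp
    rwa [pi_zero]
  have hgood : Good (sysR (rlP D p U U' h hl) (ps p q)) 1 F.card := by
    have hk : 1 ≤ (rlP D p U U' h hl).k := List.length_pos_iff.2 h.1
    have h1 := good_sysR (rlP D p U U' h hl) hk (ps p q) one_pos le_rfl (F.image (ps p))
      (fun n w hw y hy => by
        rw [(rlP D p U U' h hl).mem_K] at hw
        have h2 : pi p y ∈ D := mem_of_chain hw.2.2.2 (fun v hv => by
          rw [hw.2.1] at hv
          cases hv
          exact h0) y hy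
        rw [← hF] at h2
        exact mem_image.2 ⟨pi p y, h2, ps_pi p y⟩)
    rw [Finset.card_image_of_injective _ (ps_inj p)] at h1
    exact h1
  have ht' := univ_tail3 hgood hx0 ht
  have eC : ((sysR (rlP D p U U' h hl) (ps p q)).C : ℝ) = ((rlP Set.univ 0 U U' h hl).CC : ℝ) := rfl
  have eS : ((sysR (rlP D p U U' h hl) (ps p q)).s : ℝ) = ((U'.length - U.length : ℕ) : ℝ) := rfl
  rw [eC, eS, ← hA] at ht'
  have eZ : Ex (sysR (rlP D p U U' h hl) (ps p q)) x F.card (fun _ _ => 1) = Zx x D p q :=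
    (Zx_eq hp F hF x).symm
  rw [eZ] at ht'
  have eM : ∑ᶠ l ∈ Traj D p q, x ^ (l.length - 1) *
      (if t * Real.sqrt (((l.length - 1 : ℕ) : ℝ) + 1) ≤
        |al x (U'.length - U.length) * (NP D U U' l : ℝ) -
          be x (U'.length - U.length) * (NP D U' U l : ℝ)| then (1 : ℝ) else 0) =
      Ex (sysR (rlP D p U U' h hl) (ps p q)) x F.card
        (fun m w => if t * Real.sqrt ((m : ℝ) + 1) ≤
          |DD (sysR (rlP D p U U' h hl) (ps p q)) x w| then 1 else 0) := by
    rw [sumx_eq hp F hF x (fun m l => if t * Real.sqrt ((m : ℝ) + 1) ≤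
        |al x (U'.length - U.length) * (NP D U U' l : ℝ) -
          be x (U'.length - U.length) * (NP D U' U l : ℝ)| then (1 : ℝ) else 0)]
    unfold Ex
    refine Finset.sum_congr rfl fun m _ => ?_
    congr 1
    refine Finset.sum_congr rfl fun w hw => ?_
    obtain ⟨h1, h2⟩ := (mem_Yp hp).1 hw
    have hw' : ∀ v ∈ w, pi p v ∈ D := fun v hv => h2.2.2.2.2 _ (List.mem_map_of_mem hv)
    unfold DD
    beta_reduce
    rw [cardR_S (e := ps p q) h hl hw', cardR_B (e := ps p q) h hl hw']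
    rfl
  rw [eM]
  refine ht'.trans (mul_le_mul_of_nonneg_right ?_ hZ0)
  refine mul_le_mul hC2 (Real.exp_le_exp.2 (neg_le_neg ?_)) (Real.exp_pos _).le hCp.le
  exact div_le_div_of_nonneg_left (sq_nonneg t) (by linarith) hC4

end Pool.Agent.K1H48.SO
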