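import Pool.Agent.H726.GB.Ratio

/-!
# Second differences of the weighted numbers of objects
-/

set_option autoImplicit false

namespace Pool.Agent.K1H48.SO

open Finset TH966.AK H726.GB
open scoped Classical

noncomputable section

variable {α σ : Type} {Y : Sys α σ} {f : α → ℝ}

/-- one upward step applied to a function -/
def PP (Y : Sys α σ) (φ : α → ℝ) (w : α) : ℝ :=
  ∑ q ∈ Y.S w, φ (Y.ins w q) / ((Y.B (Y.ins w q)).card : ℝ)

theorem PP_sum (h0 : Y.n0 = 0) (hf : Y.Wt f) (φ : α → ℝ) (n : ℕ) :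
    ∑ w ∈ Y.K (n + Y.s), f w * φ w =
      ∑ w ∈ (Y.K (n + Y.s)).filter (fun w => (Y.B w).card = 0), f w * φ w +
      ∑ w ∈ Y.K n, f w * PP Y φ w := by
  have h1 := Y.sum_eq n (by omega) (fun _ w' => f w' * φ w' * (1 / ((Y.B w').card : ℝ)))
  have e1 : ∑ w ∈ Y.K n, f w * PP Y φ w =
      ∑ w ∈ Y.K n, ∑ q ∈ Y.S w,
        f (Y.ins w q) * φ (Y.ins w q) * (1 / ((Y.B (Y.ins w q)).card : ℝ)) := by
    refine Finset.sum_congr rfl fun w hw => ?_
    unfold PP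
    rw [Finset.mul_sum]
    refine Finset.sum_congr rfl fun q hq => ?_
    rw [hf.2 n w q hw hq]
    ring
  have e2 : ∑ w ∈ Y.K (n + Y.s), ∑ q ∈ Y.B w, f w * φ w * (1 / ((Y.B w).card : ℝ)) =
      ∑ w ∈ (Y.K (n + Y.s)).filter (fun w => ¬ (Y.B w).card = 0), f w * φ w := by
    rw [Finset.sum_filter]
    refine Finset.sum_congr rfl fun w _ => ?_
    rw [Finset.sum_const, nsmul_eq_mul]
    by_cases h : (Y.B w).card = 0
    · rw [if_neg (not_not.2 h), h]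
      simp
    · rw [if_pos h]
      have : ((Y.B w).card : ℝ) ≠ 0 := by exact_mod_cast h
      field_simp
  rw [e1, h1, e2]
  exact (Finset.sum_filter_add_sum_filter_not _ _ _).symm

/-- the second order term at one object -/
def h2 (Y : Sys α σ) (a : ℝ) (w : α) : ℝ :=
  PP Y (fun w => gg Y w - a) w - a * (gg Y w - a)

theorem ratio_change {n M : ℕ} {w : α} {q : σ} (hw : w ∈ Y.K n) (hq : q ∈ Y.S w)
    (hn : 4 * Y.C * M + Y.s + 1 ≤ n) (hb : n < M * (Y.B w).card) :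
    |gg Y (Y.ins w q) - gg Y w| ≤ 26 * Y.C ^ 2 * M ^ 2 / n := by
  have hC : (1 : ℝ) ≤ Y.C := by exact_mod_cast Y.hC
  have hCn : 1 ≤ Y.C := Y.hC
  have hM : 0 < M := by
    rcases Nat.eq_zero_or_pos M with h | h
    · rw [h, zero_mul] at hb; omega
    · exact h
  have hM' : (1 : ℝ) ≤ M := by exact_mod_cast hM
  have hn1 : 1 ≤ n := by omega
  have hn' : (1 : ℝ) ≤ n := by exact_mod_cast hn1
  have hn0 : (0 : ℝ) < n := by linarith
  have hCM : Y.C * M * 4 = 4 * Y.C * M := by ring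
  have d1 := Y.chB1 n w q hw hq
  have d2 := Y.chB2 n w q hw hq
  have d3 := Y.chS1 n w q hw hq
  have d4 := Y.chS2 n w q hw hq
  have c1 : ((Y.B w).card : ℝ) ≤ (Y.B (Y.ins w q)).card + Y.C := by exact_mod_cast d1
  have c2 : ((Y.B (Y.ins w q)).card : ℝ) ≤ (Y.B w).card + Y.C := by exact_mod_cast d2
  have c3 : ((Y.S w).card : ℝ) ≤ (Y.S (Y.ins w q)).card + Y.C := by exact_mod_cast d3
  have c4 : ((Y.S (Y.ins w q)).card : ℝ) ≤ (Y.S w).card + Y.C := by exact_mod_cast d4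
  have hb2 : n + Y.s < 2 * M * (Y.B (Y.ins w q)).card := by
    have e1 : M * (Y.B w).card ≤ M * ((Y.B (Y.ins w q)).card + Y.C) := Nat.mul_le_mul_left _ d1
    have e2 : M * ((Y.B (Y.ins w q)).card + Y.C) = M * (Y.B (Y.ins w q)).card + Y.C * M := by ring
    have e3 : 2 * M * (Y.B (Y.ins w q)).card = 2 * (M * (Y.B (Y.ins w q)).card) := by ring
    omega
  have g1 := gg_ratio hw (M := M) (n := n) (by
    have : 2 * Y.C * M ≤ 4 * Y.C * M := by nlinarith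
    omega) hn1 hb
  have g2 := gg_ratio (Y.ins_K n w q hw hq) (M := 2 * M) (n := n + Y.s) (by
    have : 2 * Y.C * (2 * M) = 4 * Y.C * M := by ring
    omega) (by omega) hb2
  have hb' : (n : ℝ) < M * (Y.B w).card := by exact_mod_cast hb
  have hb2' : (n : ℝ) < 2 * M * (Y.B (Y.ins w q)).card := by
    have h1 : n < 2 * M * (Y.B (Y.ins w q)).card := by omega
    exact_mod_cast h1
  have hp1 : (0 : ℝ) < (Y.B w).card := by
    by_contra hcon
    push Not at hcon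
    have : (M : ℝ) * (Y.B w).card ≤ 0 := mul_nonpos_of_nonneg_of_nonpos (by positivity) hcon
    linarith
  have hp2 : (0 : ℝ) < (Y.B (Y.ins w q)).card := by
    by_contra hcon
    push Not at hcon
    have : 2 * (M : ℝ) * (Y.B (Y.ins w q)).card ≤ 0 :=
      mul_nonpos_of_nonneg_of_nonpos (by positivity) hcon
    linarith
  have hS : ((Y.S w).card : ℝ) ≤ 2 * Y.C * n := by
    have h7 : ((Y.S w).card : ℝ) ≤ Y.C * (n + 1) := by exact_mod_cast Y.S_le n w hw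
    nlinarith
  have hS0 : (0 : ℝ) ≤ (Y.S w).card := by positivity
  have g3 : |((Y.S (Y.ins w q)).card : ℝ) / (Y.B (Y.ins w q)).card -
      ((Y.S w).card : ℝ) / (Y.B w).card| ≤ 6 * Y.C ^ 2 * M ^ 2 / n := by
    have e : ((Y.S (Y.ins w q)).card : ℝ) / (Y.B (Y.ins w q)).card -
        ((Y.S w).card : ℝ) / (Y.B w).card =
        (((Y.S (Y.ins w q)).card : ℝ) - (Y.S w).card) / (Y.B (Y.ins w q)).card +
        (Y.S w).card * (((Y.B w).card : ℝ) - (Y.B (Y.ins w q)).card) /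
          ((Y.B w).card * (Y.B (Y.ins w q)).card) := by
      field_simp
      ring
    have k1 : |(((Y.S (Y.ins w q)).card : ℝ) - (Y.S w).card) / (Y.B (Y.ins w q)).card| ≤
        2 * Y.C * M / n := by
      rw [abs_div, abs_of_pos hp2, div_le_div_iff₀ hp2 hn0]
      have h1 : |((Y.S (Y.ins w q)).card : ℝ) - (Y.S w).card| ≤ Y.C := by
        rw [abs_le]; constructor <;> linarith
      calc |((Y.S (Y.ins w q)).card : ℝ) - (Y.S w).card| * n
          ≤ Y.C * (2 * M * (Y.B (Y.ins w q)).card) := by gcongr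
        _ = 2 * Y.C * M * (Y.B (Y.ins w q)).card := by ring
    have k2 : |(Y.S w).card * (((Y.B w).card : ℝ) - (Y.B (Y.ins w q)).card) /
          ((Y.B w).card * (Y.B (Y.ins w q)).card)| ≤ 4 * Y.C ^ 2 * M ^ 2 / n := by
      rw [abs_div, abs_of_pos (mul_pos hp1 hp2), div_le_div_iff₀ (mul_pos hp1 hp2) hn0,
        abs_mul, abs_of_nonneg hS0]
      have h1 : |((Y.B w).card : ℝ) - (Y.B (Y.ins w q)).card| ≤ Y.C := by
        rw [abs_le]; constructor <;> linarith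
      have h3 : (n : ℝ) * n ≤ (M * (Y.B w).card) * (2 * M * (Y.B (Y.ins w q)).card) :=
        mul_le_mul hb'.le hb2'.le hn0.le (by positivity)
      calc (Y.S w).card * |((Y.B w).card : ℝ) - (Y.B (Y.ins w q)).card| * n
          ≤ (2 * Y.C * n) * Y.C * n := by gcongr
        _ = 2 * Y.C ^ 2 * (n * n) := by ring
        _ ≤ 2 * Y.C ^ 2 * ((M * (Y.B w).card) * (2 * M * (Y.B (Y.ins w q)).card)) := by gcongr
        _ = 4 * Y.C ^ 2 * M ^ 2 * ((Y.B w).card * (Y.B (Y.ins w q)).card) := by ring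
    rw [e]
    refine (abs_add_le _ _).trans ((add_le_add k1 k2).trans ?_)
    rw [← add_div]
    apply div_le_div_of_nonneg_right _ hn0.le
    have : (Y.C : ℝ) * M ≤ Y.C ^ 2 * M ^ 2 := by
      have h5 : (1 : ℝ) ≤ Y.C * M := by nlinarith
      nlinarith
    linarith
  have g4 : (4 : ℝ) * Y.C ^ 2 * (2 * M : ℕ) ^ 2 / (n + Y.s : ℕ) ≤ 16 * Y.C ^ 2 * M ^ 2 / n := by
    push_cast
    rw [div_le_div_iff₀ (by positivity) hn0]
    have : (0 : ℝ) ≤ 16 * Y.C ^ 2 * M ^ 2 * Y.s := by positivity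
    nlinarith
  have t1 := abs_sub_le (gg Y (Y.ins w q)) (((Y.S (Y.ins w q)).card : ℝ) /
    (Y.B (Y.ins w q)).card) (gg Y w)
  have t2 := abs_sub_le (((Y.S (Y.ins w q)).card : ℝ) / (Y.B (Y.ins w q)).card)
    (((Y.S w).card : ℝ) / (Y.B w).card) (gg Y w)
  rw [abs_sub_comm (((Y.S w).card : ℝ) / (Y.B w).card) (gg Y w)] at t2
  have e9 : (26 : ℝ) * Y.C ^ 2 * M ^ 2 / n = 16 * Y.C ^ 2 * M ^ 2 / n + 6 * Y.C ^ 2 * M ^ 2 / n +
      4 * Y.C ^ 2 * M ^ 2 / n := by ring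
  rw [e9]
  linarith [g2.trans g4]

/-- the second order term at objects with many downward moves -/
theorem h2_typ {a t : ℝ} (ht : 0 ≤ t) {n M : ℕ} {w : α} (hw : w ∈ Y.K n)
    (hn : 4 * Y.C * M + Y.s + 1 ≤ n) (hb : n < M * (Y.B w).card)
    (hD : |((Y.S w).card : ℝ) - a * (Y.B w).card| ≤ t) :
    |h2 Y a w| ≤ 188 * Y.C ^ 4 * M ^ 4 / n + 2 * M ^ 2 * (t ^ 2 / n ^ 2) := by
  have hC : (1 : ℝ) ≤ Y.C := by exact_mod_cast Y.hC
  have hM : 0 < M := by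
    rcases Nat.eq_zero_or_pos M with h | h
    · rw [h, zero_mul] at hb; omega
    · exact h
  have hM' : (1 : ℝ) ≤ M := by exact_mod_cast hM
  have hn1 : 1 ≤ n := by omega
  have hn' : (1 : ℝ) ≤ n := by exact_mod_cast hn1
  have hn0 : (0 : ℝ) < n := by linarith
  have hCM1 : (1 : ℝ) ≤ Y.C * M := by nlinarith
  have g1 := gg_ratio hw (M := M) (n := n) (by
    have : 2 * Y.C * M ≤ 4 * Y.C * M := by nlinarith
    omega) hn1 hb
  have hb' : (n : ℝ) < M * (Y.B w).card := by exact_mod_cast hb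
  have hp1 : (0 : ℝ) < (Y.B w).card := by
    by_contra hcon
    push Not at hcon
    have : (M : ℝ) * (Y.B w).card ≤ 0 := mul_nonpos_of_nonneg_of_nonpos (by positivity) hcon
    linarith
  have hS : ((Y.S w).card : ℝ) ≤ 2 * Y.C * n := by
    have h7 : ((Y.S w).card : ℝ) ≤ Y.C * (n + 1) := by exact_mod_cast Y.S_le n w hw
    nlinarith
  have hS0 : (0 : ℝ) ≤ (Y.S w).card := by positivity
  have hgg0 := gg_nonneg Y w
  -- the size of gg
  have hρ : ((Y.S w).card : ℝ) / (Y.B w).card ≤ 2 * (Y.C ^ 2 * M ^ 2) := by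
    rw [div_le_iff₀ hp1]
    calc ((Y.S w).card : ℝ) ≤ 2 * Y.C * n := hS
      _ ≤ 2 * Y.C * (M * (Y.B w).card) := by gcongr
      _ = 2 * (Y.C * M) * (Y.B w).card := by ring
      _ ≤ 2 * (Y.C ^ 2 * M ^ 2) * (Y.B w).card := by
          have : (Y.C : ℝ) * M ≤ Y.C ^ 2 * M ^ 2 := by nlinarith
          gcongr
  have hgg : gg Y w ≤ 6 * (Y.C ^ 2 * M ^ 2) := by
    have h1 := (abs_le.1 g1).2
    have h2 : 4 * (Y.C : ℝ) ^ 2 * M ^ 2 / n ≤ 4 * Y.C ^ 2 * M ^ 2 :=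
      div_le_self (by positivity) hn'
    linarith
  have e1 : h2 Y a w = ∑ q ∈ Y.S w, (gg Y (Y.ins w q) - gg Y w) / ((Y.B (Y.ins w q)).card : ℝ) +
      (gg Y w - a) ^ 2 := by
    unfold h2 PP
    have e2 : ∑ q ∈ Y.S w, (gg Y (Y.ins w q) - a) / ((Y.B (Y.ins w q)).card : ℝ) =
        ∑ q ∈ Y.S w, (gg Y (Y.ins w q) - gg Y w) / ((Y.B (Y.ins w q)).card : ℝ) +
        (gg Y w - a) * gg Y w := by
      conv_rhs => rw [show gg Y w = ∑ q ∈ Y.S w, 1 / ((Y.B (Y.ins w q)).card : ℝ) from rfl]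
      rw [show (∑ q ∈ Y.S w, 1 / ((Y.B (Y.ins w q)).card : ℝ) - a) *
        ∑ q ∈ Y.S w, 1 / ((Y.B (Y.ins w q)).card : ℝ) =
        ∑ q ∈ Y.S w, (gg Y w - a) * (1 / ((Y.B (Y.ins w q)).card : ℝ)) by
          rw [← Finset.mul_sum]; rfl]
      rw [← Finset.sum_add_distrib]
      refine Finset.sum_congr rfl fun q _ => ?_
      show _ = (gg Y (Y.ins w q) - gg Y w) / ((Y.B (Y.ins w q)).card : ℝ) +
        (gg Y w - a) * (1 / ((Y.B (Y.ins w q)).card : ℝ))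
      rw [mul_one_div, ← add_div]
      congr 1
      ring
    rw [e2]
    ring
  have k1 : |∑ q ∈ Y.S w, (gg Y (Y.ins w q) - gg Y w) / ((Y.B (Y.ins w q)).card : ℝ)| ≤
      156 * Y.C ^ 4 * M ^ 4 / n := by
    calc |∑ q ∈ Y.S w, (gg Y (Y.ins w q) - gg Y w) / ((Y.B (Y.ins w q)).card : ℝ)|
        ≤ ∑ q ∈ Y.S w, |(gg Y (Y.ins w q) - gg Y w) / ((Y.B (Y.ins w q)).card : ℝ)| :=
          Finset.abs_sum_le_sum_abs _ _
      _ ≤ ∑ q ∈ Y.S w, 26 * Y.C ^ 2 * M ^ 2 / n * (1 / ((Y.B (Y.ins w q)).card : ℝ)) := by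
          refine Finset.sum_le_sum fun q hq => ?_
          rw [abs_div, mul_one_div, abs_of_nonneg (show (0 : ℝ) ≤ (Y.B (Y.ins w q)).card by
            positivity)]
          exact div_le_div_of_nonneg_right (ratio_change hw hq hn hb) (by positivity)
      _ = 26 * Y.C ^ 2 * M ^ 2 / n * gg Y w := by rw [← Finset.mul_sum]; rfl
      _ ≤ 26 * Y.C ^ 2 * M ^ 2 / n * (6 * (Y.C ^ 2 * M ^ 2)) := by gcongr
      _ = 156 * Y.C ^ 4 * M ^ 4 / n := by ring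
  have k2 : |((Y.S w).card : ℝ) / (Y.B w).card - a| ≤ M * t / n := by
    have e : ((Y.S w).card : ℝ) / (Y.B w).card - a =
        ((Y.S w).card - a * (Y.B w).card) / (Y.B w).card := by
      field_simp
    rw [e, abs_div, abs_of_pos hp1, div_le_div_iff₀ hp1 hn0]
    calc |((Y.S w).card : ℝ) - a * (Y.B w).card| * n ≤ t * (M * (Y.B w).card) :=
          mul_le_mul hD hb'.le hn0.le ht
      _ = M * t * (Y.B w).card := by ring
  have k3 : (gg Y w - a) ^ 2 ≤ 32 * Y.C ^ 4 * M ^ 4 / n + 2 * M ^ 2 * (t ^ 2 / n ^ 2) := by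
    have h3 : (gg Y w - a) ^ 2 ≤ 2 * (4 * Y.C ^ 2 * M ^ 2 / n) ^ 2 + 2 * (M * t / n) ^ 2 := by
      have e : gg Y w - a = (gg Y w - ((Y.S w).card : ℝ) / (Y.B w).card) +
        (((Y.S w).card : ℝ) / (Y.B w).card - a) := by ring
      have u1 := sq_le_sq' (by linarith [(abs_le.1 g1).1]) (abs_le.1 g1).2
      have u2 := sq_le_sq' (by linarith [(abs_le.1 k2).1]) (abs_le.1 k2).2
      rw [e]
      nlinarith [sq_nonneg ((gg Y w - ((Y.S w).card : ℝ) / (Y.B w).card) -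
        (((Y.S w).card : ℝ) / (Y.B w).card - a))]
    have h4 : 2 * (4 * (Y.C : ℝ) ^ 2 * M ^ 2 / n) ^ 2 ≤ 32 * Y.C ^ 4 * M ^ 4 / n := by
      rw [div_pow, ← mul_div_assoc, div_le_div_iff₀ (by positivity) hn0]
      have : (0 : ℝ) ≤ 32 * Y.C ^ 4 * M ^ 4 * n := by positivity
      nlinarith
    have h5 : 2 * (M * t / (n : ℝ)) ^ 2 = 2 * M ^ 2 * (t ^ 2 / n ^ 2) := by ring
    linarith
  rw [e1]
  refine (abs_add_le _ _).trans ?_
  rw [abs_of_nonneg (sq_nonneg (gg Y w - a))]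
  have e9 : 188 * (Y.C : ℝ) ^ 4 * M ^ 4 / n = 156 * Y.C ^ 4 * M ^ 4 / n +
    32 * Y.C ^ 4 * M ^ 4 / n := by ring
  rw [e9]
  linarith

theorem gg_crude {n : ℕ} (hn1 : 1 ≤ n) {a : ℝ} (ha : 0 ≤ a) {w : α} (hw : w ∈ Y.K (n + Y.s)) :
    |gg Y w - a| ≤ (Y.C * (Y.s + 2) + a) * n := by
  have hC : (1 : ℝ) ≤ Y.C := by exact_mod_cast Y.hC
  have hn' : (1 : ℝ) ≤ n := by exact_mod_cast hn1
  have h1 := gg_nonneg Y w
  have h2 := gg_le Y w
  have h3 : ((Y.S w).card : ℝ) ≤ Y.C * ((n + Y.s : ℕ) + 1) := by exact_mod_cast Y.S_le _ w hw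
  push_cast at h3
  have hs0 : (0 : ℝ) ≤ Y.s := by positivity
  have h4 : (Y.C : ℝ) * (n + Y.s + 1) ≤ Y.C * (Y.s + 2) * n := by
    rw [mul_assoc]
    apply mul_le_mul_of_nonneg_left _ (by linarith)
    nlinarith
  have h5 : a ≤ a * n := by nlinarith
  have h6 : (Y.C * (Y.s + 2) + a) * (n : ℝ) = Y.C * (Y.s + 2) * n + a * n := by ring
  rw [h6, abs_le]
  constructor
  · have : 0 ≤ (Y.C : ℝ) * (Y.s + 2) * n := by positivity
    linarith
  · have : 0 ≤ a * (n : ℝ) := by positivity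
    linarith

theorem gg_crude0 {n : ℕ} (hn1 : 1 ≤ n) {a : ℝ} (ha : 0 ≤ a) {w : α} (hw : w ∈ Y.K n) :
    |gg Y w - a| ≤ (2 * Y.C + a) * n := by
  have hC : (1 : ℝ) ≤ Y.C := by exact_mod_cast Y.hC
  have hn' : (1 : ℝ) ≤ n := by exact_mod_cast hn1
  have h1 := gg_nonneg Y w
  have h2 := gg_le Y w
  have h3 : ((Y.S w).card : ℝ) ≤ Y.C * (n + 1) := by exact_mod_cast Y.S_le n w hw
  have h4 : (Y.C : ℝ) * (n + 1) ≤ 2 * Y.C * n := by nlinarith
  have h5 : a ≤ a * n := by nlinarith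
  have h6 : (2 * Y.C + a) * (n : ℝ) = 2 * Y.C * n + a * n := by ring
  rw [h6, abs_le]
  constructor
  · have : 0 ≤ 2 * (Y.C : ℝ) * n := by positivity
    linarith
  · have : 0 ≤ a * (n : ℝ) := by positivity
    linarith

/-- the constant in the crude bound -/
def E1 (Y : Sys α σ) (a : ℝ) : ℝ := 2 * Y.C * (Y.C * (Y.s + 2) + a) + a * (2 * Y.C + a)

theorem h2_crude {n : ℕ} (hn1 : 1 ≤ n) {a : ℝ} (ha : 0 ≤ a) {w : α} (hw : w ∈ Y.K n) :
    |h2 Y a w| ≤ E1 Y a * n ^ 2 := by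
  have hC : (1 : ℝ) ≤ Y.C := by exact_mod_cast Y.hC
  have hn' : (1 : ℝ) ≤ n := by exact_mod_cast hn1
  have hS : ((Y.S w).card : ℝ) ≤ 2 * Y.C * n := by
    have h7 : ((Y.S w).card : ℝ) ≤ Y.C * (n + 1) := by exact_mod_cast Y.S_le n w hw
    nlinarith
  have k1 : |PP Y (fun w => gg Y w - a) w| ≤ 2 * Y.C * n * ((Y.C * (Y.s + 2) + a) * n) := by
    unfold PP
    calc |∑ q ∈ Y.S w, (gg Y (Y.ins w q) - a) / ((Y.B (Y.ins w q)).card : ℝ)|
        ≤ ∑ q ∈ Y.S w, |(gg Y (Y.ins w q) - a) / ((Y.B (Y.ins w q)).card : ℝ)| :=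
          Finset.abs_sum_le_sum_abs _ _
      _ ≤ ∑ _q ∈ Y.S w, (Y.C * (Y.s + 2) + a) * n := by
          refine Finset.sum_le_sum fun q hq => ?_
          rw [abs_div, abs_of_nonneg (show (0 : ℝ) ≤ (Y.B (Y.ins w q)).card by positivity),
            div_eq_mul_one_div]
          calc |gg Y (Y.ins w q) - a| * (1 / ((Y.B (Y.ins w q)).card : ℝ))
              ≤ |gg Y (Y.ins w q) - a| * 1 :=
                mul_le_mul_of_nonneg_left (Sys.inv_le_one _) (abs_nonneg _)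
            _ ≤ _ := by rw [mul_one]; exact gg_crude hn1 ha (Y.ins_K n w q hw hq)
      _ = (Y.S w).card * ((Y.C * (Y.s + 2) + a) * n) := by
          rw [Finset.sum_const, nsmul_eq_mul]
      _ ≤ 2 * Y.C * n * ((Y.C * (Y.s + 2) + a) * n) := by gcongr
  have k2 : |a * (gg Y w - a)| ≤ a * ((2 * Y.C + a) * n) := by
    rw [abs_mul, abs_of_nonneg ha]
    exact mul_le_mul_of_nonneg_left (gg_crude0 hn1 ha hw) ha
  have k3 : a * ((2 * Y.C + a) * (n : ℝ)) ≤ a * ((2 * Y.C + a) * n ^ 2) := by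
    have : (n : ℝ) ≤ n ^ 2 := by nlinarith
    gcongr
  unfold h2
  refine (abs_sub _ _).trans ?_
  calc |PP Y (fun w => gg Y w - a) w| + |a * (gg Y w - a)|
      ≤ 2 * Y.C * n * ((Y.C * (Y.s + 2) + a) * n) + a * ((2 * Y.C + a) * n ^ 2) :=
        add_le_add k1 (k2.trans k3)
    _ = _ := by unfold E1; ring

set_option maxHeartbeats 2000000 in
/-- **Second differences.** -/
theorem second (h0 : Y.n0 = 0) {μ : ℝ} (hμ : 1 ≤ μ)
    (hB : ∀ n w, w ∈ Y.K n → (Y.B w).card ≤ Y.C * (n + 1)) (M : ℕ) :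
    ∃ R : ℝ, 0 < R ∧ ∀ (f : α → ℝ), Y.Wt f → ∀ (H : ℝ) (n : ℕ), 2 ≤ n →
      4 * Y.C * M + Y.s + 1 ≤ n →
      (∀ j ≤ 2 * n, Y.af f j ≤ H * μ ^ j) → 0 < Y.af f n →
      (∑ w ∈ (Y.K n).filter (fun w => M * (Y.B w).card ≤ n), f w ≤ Y.af f n / n ^ 3) →
      (∑ w ∈ (Y.K (n + Y.s)).filter (fun w => (Y.B w).card = 0), f w ≤ Y.af f n / n ^ 2) →
      (∑ w ∈ (Y.K (n + Y.s + Y.s)).filter (fun w => (Y.B w).card = 0), f w ≤ Y.af f n / n) →
      |Y.af f (n + Y.s + Y.s) - 2 * μ ^ Y.s * Y.af f (n + Y.s) + (μ ^ Y.s) ^ 2 * Y.af f n| ≤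
        R * Y.af f n * ((Real.log (H * μ ^ n / Y.af f n) + 3 * Real.log n) / n) := by
  obtain ⟨c, hc, htail⟩ := tail h0 hμ hB
  have hC : (1 : ℝ) ≤ Y.C := by exact_mod_cast Y.hC
  obtain ⟨a, ha⟩ : ∃ a : ℝ, a = μ ^ Y.s := ⟨_, rfl⟩
  have ha1 : 1 ≤ a := by rw [ha]; exact one_le_pow₀ hμ
  have ha0 : 0 ≤ a := by linarith
  have he : 0 < Real.exp 1 := Real.exp_pos 1
  have hs0 : (0 : ℝ) ≤ Y.s := by positivity
  obtain ⟨E, hE⟩ : ∃ E : ℝ, E = 1 + a + (Y.C * (Y.s + 2) + a) + 188 * Y.C ^ 4 * M ^ 4 +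
      E1 Y a * (1 + 2 * Real.exp 1) := ⟨_, rfl⟩
  have hE10 : 0 ≤ E1 Y a := by unfold E1; positivity
  have hE0 : 0 < E := by rw [hE]; positivity
  refine ⟨E + 2 * M ^ 2 / c, by positivity, ?_⟩
  intro f hf H n hn hnM hH hZ hpoor hpoor1 hpoor2
  have hn' : (2 : ℝ) ≤ n := by exact_mod_cast hn
  have hn0 : (0 : ℝ) < n := by linarith
  set Z := Y.af f n with hZd
  obtain ⟨L, hL⟩ : ∃ L : ℝ, L = Real.log (H * μ ^ n / Z) + 3 * Real.log n := ⟨_, rfl⟩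
  have hHZ : 1 ≤ H * μ ^ n / Z := by
    rw [one_le_div hZ]; exact hH n (by omega)
  have hlog2 : (1 : ℝ) / 2 ≤ Real.log n := by
    have h1 : Real.log 2 ≤ Real.log n := Real.log_le_log (by norm_num) hn'
    have h2 := Real.log_two_gt_d9
    linarith
  have hL1 : 1 ≤ L := by
    have := Real.log_nonneg hHZ
    rw [hL]; linarith
  rw [← hL, ← ha]
  set t : ℝ := Real.sqrt (n * L / c) with ht
  have ht0 : 0 ≤ t := Real.sqrt_nonneg _
  have ht2 : t ^ 2 = n * L / c := Real.sq_sqrt (by positivity)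
  have hT := htail f hf H n (by omega) hH t ht0
  have eT : c * (t ^ 2 / n) = L := by rw [ht2]; field_simp
  rw [eT] at hT
  have eexp : Real.exp (-L) = Z / (H * μ ^ n) / n ^ 3 := by
    rw [hL, neg_add, Real.exp_add, Real.exp_neg, Real.exp_log (by linarith)]
    have e3 : 3 * Real.log (n : ℝ) = Real.log ((n : ℝ) ^ 3) := by
      rw [Real.log_pow]; norm_num
    rw [e3, Real.exp_neg, Real.exp_log (by positivity), inv_div]
    rfl
  have hHm : 0 < H * μ ^ n := by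
    have := hH n (by omega)
    linarith
  have hHne : H ≠ 0 := by
    intro h
    rw [h, zero_mul] at hHm
    exact lt_irrefl _ hHm
  have hT2 : ∑ w ∈ (Y.K n).filter (fun w => t ≤ |((Y.S w).card : ℝ) - μ ^ Y.s * (Y.B w).card|),
      f w ≤ 2 * Real.exp 1 * (Z / n ^ 3) := by
    refine hT.trans (le_of_eq ?_)
    rw [eexp]
    field_simp
  rw [← ha] at hT2
  -- the pointwise bound
  have hpt : ∀ w ∈ Y.K n, f w * |h2 Y a w| ≤
      f w * (188 * Y.C ^ 4 * M ^ 4 / n + 2 * M ^ 2 * (t ^ 2 / n ^ 2)) +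
      (E1 Y a * n ^ 2) * ((if M * (Y.B w).card ≤ n then f w else 0) +
        (if t ≤ |((Y.S w).card : ℝ) - a * (Y.B w).card| then f w else 0)) := by
    intro w hw
    have hfw := hf.1 n w hw
    have hbase : 0 ≤ f w * (188 * Y.C ^ 4 * M ^ 4 / n + 2 * M ^ 2 * (t ^ 2 / n ^ 2)) := by
      positivity
    have hcrude := h2_crude (Y := Y) (show 1 ≤ n by omega) ha0 hw
    have hcr : f w * |h2 Y a w| ≤ (E1 Y a * n ^ 2) * f w := by
      rw [mul_comm]; exact mul_le_mul_of_nonneg_right hcrude hfw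
    have hnn : 0 ≤ E1 Y a * (n : ℝ) ^ 2 := by positivity
    by_cases h1 : M * (Y.B w).card ≤ n
    · rw [if_pos h1]
      have h2 : 0 ≤ (if t ≤ |((Y.S w).card : ℝ) - a * (Y.B w).card| then f w else 0) := by
        split_ifs
        · exact hfw
        · exact le_rfl
      refine hcr.trans (le_add_of_nonneg_of_le hbase ?_)
      exact mul_le_mul_of_nonneg_left (le_add_of_nonneg_right h2) hnn
    · by_cases h2 : t ≤ |((Y.S w).card : ℝ) - a * (Y.B w).card|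
      · rw [if_pos h2, if_neg h1, zero_add]
        exact hcr.trans (le_add_of_nonneg_left hbase)
      · rw [if_neg h1, if_neg h2, add_zero, mul_zero, add_zero]
        apply mul_le_mul_of_nonneg_left _ hfw
        push Not at h1 h2
        exact h2_typ ht0 hw hnM h1 h2.le
  have hsum : ∑ w ∈ Y.K n, f w * |h2 Y a w| ≤
      Z * (188 * Y.C ^ 4 * M ^ 4 / n + 2 * M ^ 2 * (t ^ 2 / n ^ 2)) +
      (E1 Y a * n ^ 2) * (Z / n ^ 3 + 2 * Real.exp 1 * (Z / n ^ 3)) := by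
    refine (Finset.sum_le_sum hpt).trans ?_
    rw [Finset.sum_add_distrib, ← Finset.sum_mul, ← Finset.mul_sum, Finset.sum_add_distrib,
      ← Finset.sum_filter, ← Finset.sum_filter]
    have hnn : 0 ≤ E1 Y a * (n : ℝ) ^ 2 := by positivity
    exact add_le_add le_rfl (mul_le_mul_of_nonneg_left (add_le_add hpoor hT2) hnn)
  -- the difference
  have step : ∀ m : ℕ, Y.af f (m + Y.s) =
      ∑ w ∈ (Y.K (m + Y.s)).filter (fun w => (Y.B w).card = 0), f w +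
        ∑ w ∈ Y.K m, f w * gg Y w := by
    intro m
    rw [gg_sum h0 hf m]
    unfold Sys.af
    exact (Finset.sum_filter_add_sum_filter_not _ _ _).symm
  have stepd : ∀ m : ℕ, Y.af f (m + Y.s) - a * Y.af f m =
      ∑ w ∈ (Y.K (m + Y.s)).filter (fun w => (Y.B w).card = 0), f w +
        ∑ w ∈ Y.K m, f w * (gg Y w - a) := by
    intro m
    have e1 : ∑ w ∈ Y.K m, f w * (gg Y w - a) =
        ∑ w ∈ Y.K m, f w * gg Y w - a * Y.af f m := by
      unfold Sys.af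
      rw [Finset.mul_sum, ← Finset.sum_sub_distrib]
      refine Finset.sum_congr rfl fun w _ => ?_
      ring
    rw [e1, step m]
    ring
  obtain ⟨z1, hz1⟩ : ∃ z1 : ℝ, z1 =
    ∑ w ∈ (Y.K (n + Y.s)).filter (fun w => (Y.B w).card = 0), f w := ⟨_, rfl⟩
  obtain ⟨z2, hz2⟩ : ∃ z2 : ℝ, z2 =
    ∑ w ∈ (Y.K (n + Y.s + Y.s)).filter (fun w => (Y.B w).card = 0), f w := ⟨_, rfl⟩
  obtain ⟨z3, hz3⟩ : ∃ z3 : ℝ, z3 =
    ∑ w ∈ (Y.K (n + Y.s)).filter (fun w => (Y.B w).card = 0), f w * (gg Y w - a) := ⟨_, rfl⟩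
  have hz10 : 0 ≤ z1 := by
    rw [hz1]; exact Finset.sum_nonneg fun w hw => hf.1 _ w (mem_filter.1 hw).1
  have hz20 : 0 ≤ z2 := by
    rw [hz2]; exact Finset.sum_nonneg fun w hw => hf.1 _ w (mem_filter.1 hw).1
  have hz3b : |z3| ≤ ((Y.C * (Y.s + 2) + a) * n) * z1 := by
    rw [hz3, hz1, Finset.mul_sum]
    refine (Finset.abs_sum_le_sum_abs _ _).trans (Finset.sum_le_sum fun w hw => ?_)
    have hwK := (mem_filter.1 hw).1
    rw [abs_mul, abs_of_nonneg (hf.1 _ w hwK), mul_comm]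
    exact mul_le_mul_of_nonneg_right (gg_crude (by omega) ha0 hwK) (hf.1 _ w hwK)
  rw [← hz1] at hpoor1
  rw [← hz2] at hpoor2
  have key : Y.af f (n + Y.s + Y.s) - 2 * a * Y.af f (n + Y.s) + a ^ 2 * Z =
      z2 - a * z1 + z3 + ∑ w ∈ Y.K n, f w * h2 Y a w := by
    have d1 := stepd n
    have d2 := stepd (n + Y.s)
    have d3 := PP_sum h0 hf (fun w => gg Y w - a) n
    rw [← hz1] at d1
    rw [← hz2] at d2

    rw [← hz3] at d3
    have e1 : ∑ w ∈ Y.K n, f w * h2 Y a w =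
        ∑ w ∈ Y.K n, f w * PP Y (fun w => gg Y w - a) w -
        a * ∑ w ∈ Y.K n, f w * (gg Y w - a) := by
      rw [Finset.mul_sum, ← Finset.sum_sub_distrib]
      refine Finset.sum_congr rfl fun w _ => ?_
      unfold h2
      ring
    rw [e1]
    have e2 : Y.af f (n + Y.s + Y.s) - 2 * a * Y.af f (n + Y.s) + a ^ 2 * Z =
        (Y.af f (n + Y.s + Y.s) - a * Y.af f (n + Y.s)) -
        a * (Y.af f (n + Y.s) - a * Z) := by ring
    rw [e2, d2, d3, hZd, d1]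
    ring
  have hdiff : |Y.af f (n + Y.s + Y.s) - 2 * a * Y.af f (n + Y.s) + a ^ 2 * Z| ≤
      z2 + a * z1 + ((Y.C * (Y.s + 2) + a) * n) * z1 + ∑ w ∈ Y.K n, f w * |h2 Y a w| := by
    rw [key]
    have k1 : |∑ w ∈ Y.K n, f w * h2 Y a w| ≤ ∑ w ∈ Y.K n, f w * |h2 Y a w| := by
      refine (Finset.abs_sum_le_sum_abs _ _).trans (Finset.sum_le_sum fun w hw => ?_)
      rw [abs_mul, abs_of_nonneg (hf.1 n w hw)]
    have k2 : |z2 - a * z1 + z3| ≤ z2 + a * z1 + ((Y.C * (Y.s + 2) + a) * n) * z1 := by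
      refine (abs_add_le _ _).trans (add_le_add ?_ hz3b)
      have : 0 ≤ a * z1 := by positivity
      rw [abs_le]
      constructor <;> linarith
    exact (abs_add_le _ _).trans (add_le_add k2 k1)
  refine hdiff.trans ?_
  -- the final estimate
  have i1 : z2 ≤ Z * (1 / n) := by rw [mul_one_div]; exact hpoor2
  have i2 : z1 * n ≤ Z * (1 / n) := by
    have : z1 * n ≤ Z / n ^ 2 * n := mul_le_mul_of_nonneg_right hpoor1 hn0.le
    refine this.trans (le_of_eq ?_)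
    field_simp
  have i3 : z1 ≤ Z * (1 / n) := by
    have : z1 ≤ z1 * n := le_mul_of_one_le_right hz10 (by linarith)
    linarith
  have i4 : (n : ℝ) ^ 2 * (Z / n ^ 3) = Z * (1 / n) := by field_simp
  have i5 : 2 * (M : ℝ) ^ 2 * (t ^ 2 / n ^ 2) = 2 * M ^ 2 / c * (L / n) := by
    rw [ht2]; field_simp
  have i6 : (1 : ℝ) / n ≤ L / n := div_le_div_of_nonneg_right hL1 hn0.le
  calc z2 + a * z1 + ((Y.C * (Y.s + 2) + a) * n) * z1 + ∑ w ∈ Y.K n, f w * |h2 Y a w|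
      ≤ Z * (1 / n) + a * (Z * (1 / n)) + (Y.C * (Y.s + 2) + a) * (Z * (1 / n)) +
        (Z * (188 * Y.C ^ 4 * M ^ 4 / n + 2 * M ^ 2 * (t ^ 2 / n ^ 2)) +
        (E1 Y a * n ^ 2) * (Z / n ^ 3 + 2 * Real.exp 1 * (Z / n ^ 3))) := by
        refine add_le_add (add_le_add (add_le_add i1 (mul_le_mul_of_nonneg_left i3 ha0)) ?_) hsum
        calc (Y.C * (Y.s + 2) + a) * n * z1 = (Y.C * (Y.s + 2) + a) * (z1 * n) := by ring
          _ ≤ _ := mul_le_mul_of_nonneg_left i2 (by positivity)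
    _ = Z * (E * (1 / n)) + Z * (2 * M ^ 2 * (t ^ 2 / n ^ 2)) := by
        have e1 : (E1 Y a * (n : ℝ) ^ 2) * (Z / n ^ 3 + 2 * Real.exp 1 * (Z / n ^ 3)) =
          E1 Y a * (1 + 2 * Real.exp 1) * ((n : ℝ) ^ 2 * (Z / n ^ 3)) := by ring
        rw [e1, i4, hE]
        ring
    _ ≤ Z * (E * (L / n)) + Z * (2 * M ^ 2 / c * (L / n)) := by
        rw [i5]
        gcongr
    _ = _ := by ring

/-- the ratio form -/
theorem second_ratio (h0 : Y.n0 = 0) {μ : ℝ} (hμ : 1 ≤ μ)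
    (hB : ∀ n w, w ∈ Y.K n → (Y.B w).card ≤ Y.C * (n + 1)) (M : ℕ) :
    ∃ R : ℝ, 0 < R ∧ ∀ (f : α → ℝ), Y.Wt f → ∀ (H : ℝ) (n : ℕ), 2 ≤ n →
      4 * Y.C * M + Y.s + 1 ≤ n →
      (∀ j ≤ 2 * n, Y.af f j ≤ H * μ ^ j) → 0 < Y.af f n →
      (∑ w ∈ (Y.K n).filter (fun w => M * (Y.B w).card ≤ n), f w ≤ Y.af f n / n ^ 3) →
      (∑ w ∈ (Y.K (n + Y.s)).filter (fun w => (Y.B w).card = 0), f w ≤ Y.af f n / n ^ 2) →
      (∑ w ∈ (Y.K (n + Y.s + Y.s)).filter (fun w => (Y.B w).card = 0), f w ≤ Y.af f n / n) →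
      |Y.af f (n + Y.s) / Y.af f n - μ ^ Y.s| ≤
        R * Real.sqrt ((Real.log (H * μ ^ n / Y.af f n) + 3 * Real.log n) / n) ∧
      |Y.af f (n + Y.s + Y.s) * Y.af f n - Y.af f (n + Y.s) ^ 2| ≤
        R * Y.af f n ^ 2 * ((Real.log (H * μ ^ n / Y.af f n) + 3 * Real.log n) / n) := by
  obtain ⟨R1, hR1, h1⟩ := ratio h0 hμ hB M
  obtain ⟨R2, hR2, h2⟩ := second h0 hμ hB M
  refine ⟨R1 + R2 + R1 ^ 2, by positivity, ?_⟩
  intro f hf H n hn hnM hH hZ hpoor hpoor1 hpoor2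
  have hn' : (2 : ℝ) ≤ n := by exact_mod_cast hn
  have hn0 : (0 : ℝ) < n := by linarith
  have q1 := h1 f hf H n hn (by
    have : 2 * Y.C * M ≤ 4 * Y.C * M := by nlinarith
    omega) hH hZ hpoor (hpoor1.trans (by
      apply div_le_div_of_nonneg_left hZ.le hn0
      nlinarith))
  have q2 := h2 f hf H n hn hnM hH hZ hpoor hpoor1 hpoor2
  obtain ⟨a, ha⟩ : ∃ a : ℝ, a = μ ^ Y.s := ⟨_, rfl⟩
  rw [← ha] at q1 q2 ⊢
  obtain ⟨L, hL⟩ : ∃ L : ℝ, L = (Real.log (H * μ ^ n / Y.af f n) + 3 * Real.log n) / n := ⟨_, rfl⟩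
  rw [← hL] at q1 q2 ⊢
  have hL0 : 0 ≤ L := by
    rw [hL]
    have hHZ : 1 ≤ H * μ ^ n / Y.af f n := by
      rw [one_le_div hZ]; exact hH n (by omega)
    have := Real.log_nonneg hHZ
    have : 0 ≤ Real.log (n : ℝ) := Real.log_nonneg (by linarith)
    positivity
  obtain ⟨x, hx⟩ : ∃ x : ℝ, x = Y.af f n := ⟨_, rfl⟩
  obtain ⟨y, hy⟩ : ∃ y : ℝ, y = Y.af f (n + Y.s) := ⟨_, rfl⟩
  obtain ⟨z, hz⟩ : ∃ z : ℝ, z = Y.af f (n + Y.s + Y.s) := ⟨_, rfl⟩
  rw [← hx, ← hy, ← hz] at q2 ⊢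
  rw [← hx, ← hy] at q1
  rw [← hx] at hZ
  constructor
  · refine q1.trans (mul_le_mul_of_nonneg_right ?_ (Real.sqrt_nonneg _))
    have := sq_nonneg R1
    linarith
  · have e : z * x - y ^ 2 = x * (z - 2 * a * y + a ^ 2 * x) - (x * (y / x - a)) ^ 2 := by
      field_simp
      ring
    rw [e]
    refine (abs_sub _ _).trans ?_
    have k1 : |x * (z - 2 * a * y + a ^ 2 * x)| ≤ x * (R2 * x * L) := by
      rw [abs_mul, abs_of_pos hZ]
      exact mul_le_mul_of_nonneg_left q2 hZ.le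
    have k2 : |(x * (y / x - a)) ^ 2| ≤ x ^ 2 * (R1 ^ 2 * L) := by
      rw [abs_of_nonneg (sq_nonneg _), mul_pow]
      apply mul_le_mul_of_nonneg_left _ (sq_nonneg x)
      have k3 : |y / x - a| ^ 2 ≤ (R1 * Real.sqrt L) ^ 2 :=
        pow_le_pow_left₀ (abs_nonneg _) q1 2
      rw [sq_abs, mul_pow, Real.sq_sqrt hL0] at k3
      exact k3
    have k4 : 0 ≤ R1 * x ^ 2 * L := by positivity
    calc |x * (z - 2 * a * y + a ^ 2 * x)| + |(x * (y / x - a)) ^ 2|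
        ≤ x * (R2 * x * L) + x ^ 2 * (R1 ^ 2 * L) := add_le_add k1 k2
      _ ≤ x * (R2 * x * L) + x ^ 2 * (R1 ^ 2 * L) + R1 * x ^ 2 * L := by linarith
      _ = _ := by ring

end

end Pool.Agent.K1H48.SO
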