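import Pool.Agent.K1H48.SO.Gauss

/-!
# A universal Gaussian inequality for the balance of local moves
-/

set_option autoImplicit false

namespace Pool.Agent.K1H48.SO

open Finset TH966.AK Pool.Agent.R131.LS
open scoped Classical

/-- the truncated factor -/
noncomputable def mu (L : ℝ) (m : ℕ) : ℝ := min (L / Real.sqrt ((m : ℝ) + 1)) 1

theorem mu_nonneg {L : ℝ} (hL : 0 ≤ L) (m : ℕ) : 0 ≤ mu L m :=
  le_min (by positivity) zero_le_one

theorem mu_le_one (L : ℝ) (m : ℕ) : mu L m ≤ 1 := min_le_right _ _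

theorem mu_sq {L : ℝ} (hL : 0 ≤ L) (m : ℕ) : mu L m ^ 2 * ((m : ℝ) + 1) ≤ L ^ 2 := by
  obtain ⟨r1, -⟩ := rho m 0
  have q1 := Real.sq_sqrt (show (0 : ℝ) ≤ (m : ℝ) + 1 by positivity)
  have h1 : mu L m ≤ L / Real.sqrt ((m : ℝ) + 1) := min_le_left _ _
  have h2 := pow_le_pow_left₀ (mu_nonneg hL m) h1 2
  rw [div_pow, q1, le_div_iff₀ (by positivity)] at h2
  exact h2

theorem mu_step {L : ℝ} (hL : 0 ≤ L) (m s : ℕ) : mu L (m + s) ≤ mu L m ∧
    |mu L (m + s) - mu L m| ≤ mu L m * s / ((m : ℝ) + 1) := by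
  obtain ⟨r1, r2, -, r4⟩ := rho m s
  have q1 := Real.sq_sqrt (show (0 : ℝ) ≤ (m : ℝ) + 1 by positivity)
  have hmu := mu_nonneg hL m
  have hs : (0 : ℝ) ≤ s := Nat.cast_nonneg _
  unfold mu at *
  obtain ⟨a, ha⟩ : ∃ a : ℝ, a = Real.sqrt ((m : ℝ) + 1) := ⟨_, rfl⟩
  obtain ⟨b, hb⟩ : ∃ b : ℝ, b = Real.sqrt (((m + s : ℕ) : ℝ) + 1) := ⟨_, rfl⟩
  rw [← ha] at r1 r2 r4 q1 hmu ⊢
  rw [← hb] at r2 r4 ⊢
  have ha0 : 0 < a := by linarith
  have hb0 : 0 < b := by linarith
  have h1 : min (L / b) 1 ≤ min (L / a) 1 :=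
    min_le_min (div_le_div_of_nonneg_left hL ha0 r2) le_rfl
  refine ⟨h1, ?_⟩
  obtain ⟨μ, hμ⟩ : ∃ μ : ℝ, μ = min (L / a) 1 := ⟨_, rfl⟩
  have h2 : μ * (a / b) ≤ min (L / b) 1 := by
    refine le_min ?_ ?_
    · have h3 : μ ≤ L / a := by rw [hμ]; exact min_le_left _ _
      calc μ * (a / b) ≤ L / a * (a / b) := mul_le_mul_of_nonneg_right h3 (by positivity)
        _ = L / b := by field_simp
    · have h3 : μ ≤ 1 := by rw [hμ]; exact min_le_right _ _
      have h4 : a / b ≤ 1 := by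
        rw [div_le_one hb0]
        exact r2
      have h5 : 0 ≤ a / b := by positivity
      have h6 : 0 ≤ μ := by rw [hμ]; exact hmu
      nlinarith
  rw [← hμ] at hmu h1 ⊢
  rw [abs_sub_comm, abs_of_nonneg (by linarith), ← q1, le_div_iff₀ (by positivity)]
  have h3 : (μ - min (L / b) 1) * a ^ 2 ≤ (μ - μ * (a / b)) * a ^ 2 :=
    mul_le_mul_of_nonneg_right (by linarith) (by positivity)
  refine h3.trans ?_
  have h4 : (μ - μ * (a / b)) * a ^ 2 = μ * ((b - a) * a * (a / b)) := by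
    field_simp
  rw [h4]
  refine mul_le_mul_of_nonneg_left ?_ hmu
  rw [le_div_iff₀ ha0] at r4
  have h5 : a / b ≤ 1 := by
    rw [div_le_one hb0]
    exact r2
  have h6 : 0 ≤ (b - a) * a := mul_nonneg (by linarith) ha0.le
  calc (b - a) * a * (a / b) ≤ (b - a) * a * 1 := mul_le_mul_of_nonneg_left h5 h6
    _ ≤ s := by linarith

theorem key_num2 {θ μ μ' d d' c e : ℝ} (hθ : |θ| ≤ 1) (hμ0 : 0 ≤ μ) (hμ1 : μ ≤ 1) (hc : 0 ≤ c)
    (he : 0 ≤ e) (h1 : |μ' - μ| ≤ e) (h2 : |μ' * d' - μ * d| ≤ c * μ) :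
    |μ' * Real.exp (θ * (μ' * d')) - μ * Real.exp (θ * (μ * d))| ≤
      Real.exp c * (e + c * μ ^ 2) * Real.exp (θ * (μ * d)) := by
  obtain ⟨y, hy⟩ : ∃ y : ℝ, y = θ * (μ' * d' - μ * d) := ⟨_, rfl⟩
  have hy1 : |y| ≤ c * μ := by
    rw [hy, abs_mul]
    calc |θ| * |μ' * d' - μ * d| ≤ 1 * (c * μ) := mul_le_mul hθ h2 (abs_nonneg _) zero_le_one
      _ = c * μ := one_mul _
  have hy2 : |y| ≤ c := hy1.trans (mul_le_of_le_one_right hc hμ1)
  have e1 : Real.exp (θ * (μ' * d')) = Real.exp (θ * (μ * d)) * Real.exp y := by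
    rw [← Real.exp_add, hy]
    congr 1
    ring
  have k1 : Real.exp y ≤ Real.exp c := Real.exp_le_exp.2 ((le_abs_self _).trans hy2)
  have k2 : |Real.exp y - 1| ≤ c * μ * Real.exp c := by
    refine (exp_sub_one y).trans ?_
    exact mul_le_mul hy1 (Real.exp_le_exp.2 hy2) (Real.exp_pos _).le (by positivity)
  have e2 : μ' * Real.exp (θ * (μ' * d')) - μ * Real.exp (θ * (μ * d)) =
      ((μ' - μ) * Real.exp y + μ * (Real.exp y - 1)) * Real.exp (θ * (μ * d)) := by
    rw [e1]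
    ring
  rw [e2, abs_mul, abs_of_pos (Real.exp_pos (θ * (μ * d)))]
  refine mul_le_mul_of_nonneg_right ?_ (Real.exp_pos _).le
  refine (abs_add_le _ _).trans ?_
  rw [abs_mul, abs_mul, abs_of_pos (Real.exp_pos y), abs_of_nonneg hμ0]
  have j1 : |μ' - μ| * Real.exp y ≤ e * Real.exp c :=
    mul_le_mul h1 k1 (Real.exp_pos _).le he
  have j2 : μ * |Real.exp y - 1| ≤ μ * (c * μ * Real.exp c) := mul_le_mul_of_nonneg_left k2 hμ0
  refine (add_le_add j1 j2).trans (le_of_eq ?_)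
  ring

variable {α σ : Type} {Y : Sys α σ} {x : ℝ} {N : ℕ}

/-- the constant -/
noncomputable def uA (C s : ℝ) : ℝ := C * Real.exp (C * (2 + s)) * (s + C * (2 + s)) + C

theorem uA_ge {C s : ℝ} (hC : 0 ≤ C) (hs : 0 ≤ s) : C ≤ uA C s := by
  unfold uA
  have : 0 ≤ C * Real.exp (C * (2 + s)) * (s + C * (2 + s)) := by positivity
  linarith

/-- **integration by parts** -/
theorem mom2 (H : Good Y x N) {L θ : ℝ} (hL : 0 ≤ L) (hθ : |θ| ≤ 1) :
    |Ex Y x N (fun m w => (mu L m * dd Y x w) * Real.exp (θ * (mu L m * dd Y x w)))| ≤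
      uA Y.C Y.s * (1 + L ^ 2) * Ex Y x N (fun m w => Real.exp (θ * (mu L m * dd Y x w))) := by
  have hx0 := H.x0
  have hC : (0 : ℝ) ≤ Y.C := Nat.cast_nonneg _
  have hs : (0 : ℝ) ≤ Y.s := Nat.cast_nonneg _
  have hp0 : 0 ≤ x ^ Y.s := by positivity
  have hp1 : x ^ Y.s ≤ 1 := pow_le_one₀ hx0.le H.x1
  have a3 := exch H (fun m _ w => mu L m * Real.exp (θ * (mu L m * dd Y x w)))
  simp only [Finset.sum_const, nsmul_eq_mul] at a3
  rw [← Ex_mul (x ^ Y.s)] at a3
  have e1 : Ex Y x N (fun m w => (mu L m * dd Y x w) * Real.exp (θ * (mu L m * dd Y x w))) =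
      - Ex Y x N (fun m w => x ^ Y.s * ∑ q ∈ Y.S w,
        (mu L (m + Y.s) * Real.exp (θ * (mu L (m + Y.s) * dd Y x (Y.ins w q))) -
        mu L m * Real.exp (θ * (mu L m * dd Y x w)))) := by
    have e2 : Ex Y x N (fun m w => (mu L m * dd Y x w) * Real.exp (θ * (mu L m * dd Y x w))) =
        Ex Y x N (fun m w => x ^ Y.s * ((Y.S w).card : ℝ) *
          (mu L m * Real.exp (θ * (mu L m * dd Y x w)))) -
        Ex Y x N (fun m w => ((Y.B w).card : ℝ) *
          (mu L m * Real.exp (θ * (mu L m * dd Y x w)))) := by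
      rw [← Ex_sub]
      congr 1
      funext m w
      have e3 : dd Y x w = x ^ Y.s * ((Y.S w).card : ℝ) - ((Y.B w).card : ℝ) := rfl
      conv_lhs =>
        lhs
        rw [e3]
      ring
    rw [e2, a3, ← Ex_sub]
    have e3 : ∀ φ : ℕ → α → ℝ, - Ex Y x N φ = Ex Y x N (fun m w => (-1) * φ m w) := by
      intro φ
      rw [Ex_mul]
      ring
    rw [e3]
    congr 1
    funext m w
    rw [Finset.sum_sub_distrib, Finset.sum_const, nsmul_eq_mul]
    ring
  rw [e1, abs_neg, ← Ex_mul]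
  refine (Ex_abs hx0 _).trans (Ex_mono hx0 fun m w hw => ?_)
  rw [abs_mul, abs_of_nonneg hp0]
  have hm0 : (0 : ℝ) < (m : ℝ) + 1 := by positivity
  have hmu := mu_nonneg hL m
  have hmu1 := mu_le_one L m
  obtain ⟨s1, s2⟩ := mu_step hL m Y.s
  have hmu' := mu_nonneg hL (m + Y.s)
  have h2 : ∀ q ∈ Y.S w, |mu L (m + Y.s) *
        Real.exp (θ * (mu L (m + Y.s) * dd Y x (Y.ins w q))) -
        mu L m * Real.exp (θ * (mu L m * dd Y x w))| ≤
      Real.exp (Y.C * (2 + Y.s)) * (mu L m * Y.s / ((m : ℝ) + 1) +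
        Y.C * (2 + Y.s) * mu L m ^ 2) * Real.exp (θ * (mu L m * dd Y x w)) := by
    intro q hq
    refine key_num2 hθ hmu hmu1 (by positivity) (by positivity) s2 ?_
    have d1 := dd_ins H hw hq
    have d2 := dd_le H hw
    have e4 : mu L (m + Y.s) * dd Y x (Y.ins w q) - mu L m * dd Y x w =
        mu L (m + Y.s) * (dd Y x (Y.ins w q) - dd Y x w) +
        (mu L (m + Y.s) - mu L m) * dd Y x w := by ring
    rw [e4]
    refine (abs_add_le _ _).trans ?_
    rw [abs_mul, abs_mul, abs_of_nonneg hmu', abs_sub_comm (dd Y x (Y.ins w q))]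
    have j1 : mu L (m + Y.s) * |dd Y x w - dd Y x (Y.ins w q)| ≤ mu L m * (2 * Y.C) :=
      mul_le_mul s1 d1 (abs_nonneg _) hmu
    have j2 : |mu L (m + Y.s) - mu L m| * |dd Y x w| ≤
        (mu L m * Y.s / ((m : ℝ) + 1)) * (Y.C * (m + 1)) :=
      mul_le_mul s2 d2 (abs_nonneg _) (by positivity)
    refine (add_le_add j1 j2).trans (le_of_eq ?_)
    field_simp
  have h3 : ((Y.S w).card : ℝ) ≤ Y.C * (m + 1) := by exact_mod_cast Y.S_le m w hw
  refine (mul_le_of_le_one_left (abs_nonneg _) hp1).trans ?_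
  refine (abs_sum_le_sum_abs _ _).trans ((sum_le_card_nsmul _ _ _ h2).trans ?_)
  rw [nsmul_eq_mul]
  have hE := Real.exp_pos (θ * (mu L m * dd Y x w))
  have hE1 := Real.exp_pos ((Y.C : ℝ) * (2 + Y.s))
  refine (mul_le_mul_of_nonneg_right h3 (by positivity)).trans ?_
  have e5 : (Y.C : ℝ) * ((m : ℝ) + 1) * (Real.exp (Y.C * (2 + Y.s)) *
      (mu L m * Y.s / ((m : ℝ) + 1) + Y.C * (2 + Y.s) * mu L m ^ 2) *
      Real.exp (θ * (mu L m * dd Y x w))) =
      Y.C * Real.exp (Y.C * (2 + Y.s)) * (mu L m * Y.s +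
        Y.C * (2 + Y.s) * (mu L m ^ 2 * ((m : ℝ) + 1))) *
      Real.exp (θ * (mu L m * dd Y x w)) := by
    field_simp
  rw [e5]
  refine mul_le_mul_of_nonneg_right ?_ hE.le
  have h4 := mu_sq hL m
  have h5 : mu L m * Y.s + Y.C * (2 + Y.s) * (mu L m ^ 2 * ((m : ℝ) + 1)) ≤
      (Y.s + Y.C * (2 + Y.s)) * (1 + L ^ 2) := by
    have h6 : mu L m * Y.s ≤ 1 * Y.s := mul_le_mul_of_nonneg_right hmu1 hs
    have h7 : (Y.C : ℝ) * (2 + Y.s) * (mu L m ^ 2 * ((m : ℝ) + 1)) ≤ Y.C * (2 + Y.s) * L ^ 2 :=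
      mul_le_mul_of_nonneg_left h4 (by positivity)
    have h8 : 0 ≤ (Y.s : ℝ) * L ^ 2 := by positivity
    have h9 : 0 ≤ (Y.C : ℝ) * (2 + Y.s) := by positivity
    nlinarith
  have h6 : (Y.C : ℝ) * Real.exp (Y.C * (2 + Y.s)) * (mu L m * Y.s +
        Y.C * (2 + Y.s) * (mu L m ^ 2 * ((m : ℝ) + 1))) ≤
      Y.C * Real.exp (Y.C * (2 + Y.s)) * ((Y.s + Y.C * (2 + Y.s)) * (1 + L ^ 2)) :=
    mul_le_mul_of_nonneg_left h5 (by positivity)
  refine h6.trans ?_
  unfold uA
  have h7 : 0 ≤ (Y.C : ℝ) * (1 + L ^ 2) := by positivity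
  nlinarith

theorem expmom2 (H : Good Y x N) {L : ℝ} (hL : 0 ≤ L) (e : ℝ) (he : e = 1 ∨ e = -1) :
    Ex Y x N (fun m w => Real.exp (e * (mu L m * dd Y x w))) ≤
      Real.exp (uA Y.C Y.s * (1 + L ^ 2)) * Ex Y x N (fun _ _ => 1) := by
  have hx0 := H.x0
  obtain ⟨A, hA⟩ : ∃ A : ℝ, A = uA Y.C Y.s * (1 + L ^ 2) := ⟨_, rfl⟩
  have hd : ∀ l : ℝ, HasDerivAt
      (fun l : ℝ => Ex Y x N (fun m w => Real.exp (l * (e * (mu L m * dd Y x w)))))
      (Ex Y x N (fun m w => (e * (mu L m * dd Y x w)) *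
        Real.exp (l * (e * (mu L m * dd Y x w))))) l := by
    intro l
    unfold Ex
    refine HasDerivAt.fun_sum fun m _ => ?_
    refine HasDerivAt.const_mul _ ?_
    refine HasDerivAt.fun_sum fun w _ => ?_
    have h1 : HasDerivAt (fun l : ℝ => l * (e * (mu L m * dd Y x w)))
        (e * (mu L m * dd Y x w)) l := by
      simpa using (hasDerivAt_id l).mul_const (e * (mu L m * dd Y x w))
    exact h1.exp.congr_deriv (mul_comm _ _)
  obtain ⟨h, hh⟩ : ∃ h : ℝ → ℝ, h = fun l =>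
    Ex Y x N (fun m w => Real.exp (l * (e * (mu L m * dd Y x w)))) *
      Real.exp (-(A * l)) := ⟨_, rfl⟩
  have hdh : ∀ l : ℝ, HasDerivAt h
      (Ex Y x N (fun m w => (e * (mu L m * dd Y x w)) *
        Real.exp (l * (e * (mu L m * dd Y x w)))) * Real.exp (-(A * l)) +
       Ex Y x N (fun m w => Real.exp (l * (e * (mu L m * dd Y x w)))) *
        (Real.exp (-(A * l)) * (-A))) l := by
    intro l
    rw [hh]
    refine (hd l).mul ?_
    have h1 : HasDerivAt (fun l : ℝ => -(A * l)) (-A) l := by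
      have h2 : HasDerivAt (fun l : ℝ => A * l) A l := by
        simpa using (hasDerivAt_id l).const_mul A
      exact h2.neg
    exact h1.exp
  have hanti : AntitoneOn h (Set.Icc 0 1) := by
    refine antitoneOn_of_deriv_nonpos (convex_Icc 0 1)
      (fun l _ => (hdh l).continuousAt.continuousWithinAt)
      (fun l _ => (hdh l).differentiableAt.differentiableWithinAt) ?_
    intro l hl'
    rw [interior_Icc] at hl'
    rw [(hdh l).deriv]
    have hl0 : 0 < l := hl'.1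
    have hlL : l < 1 := hl'.2
    have he1 : |e| = 1 := by rcases he with h | h <;> rw [h] <;> simp
    have h1 : Ex Y x N (fun m w => (e * (mu L m * dd Y x w)) *
        Real.exp (l * (e * (mu L m * dd Y x w)))) ≤
        A * Ex Y x N (fun m w => Real.exp (l * (e * (mu L m * dd Y x w)))) := by
      have h2 := mom2 H (L := L) (θ := l * e) hL (by
        rw [abs_mul, he1, mul_one, abs_of_pos hl0]
        exact hlL.le)
      rw [← hA] at h2
      have e3 : Ex Y x N (fun m w => Real.exp (l * e * (mu L m * dd Y x w))) =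
          Ex Y x N (fun m w => Real.exp (l * (e * (mu L m * dd Y x w)))) := by
        congr 1
        funext m w
        rw [mul_assoc]
      have e4 : Ex Y x N (fun m w => (e * (mu L m * dd Y x w)) *
            Real.exp (l * (e * (mu L m * dd Y x w)))) =
          e * Ex Y x N (fun m w => (mu L m * dd Y x w) *
            Real.exp (l * e * (mu L m * dd Y x w))) := by
        rw [← Ex_mul]
        congr 1
        funext m w
        rw [mul_assoc l e, mul_assoc e]
      rw [e3] at h2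
      rw [e4]
      refine le_trans (le_abs_self _) ?_
      rw [abs_mul, he1, one_mul]
      exact h2
    have h3 := Real.exp_pos (-(A * l))
    have h4 := mul_le_mul_of_nonneg_right h1 h3.le
    linarith
  have h1 := hanti (Set.left_mem_Icc.2 zero_le_one) (Set.right_mem_Icc.2 zero_le_one) zero_le_one
  rw [hh] at h1
  simp only [zero_mul, Real.exp_zero, one_mul, mul_zero, neg_zero, mul_one] at h1
  rw [Real.exp_neg, ← div_eq_mul_inv, div_le_iff₀ (Real.exp_pos _)] at h1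
  rw [← hA]
  linarith

/-- **The universal inequality.** -/
theorem univ_tail (H : Good Y x N) {t : ℝ} (ht : 0 ≤ t) :
    Ex Y x N (fun m w => if t * Real.sqrt ((m : ℝ) + 1) ≤ |dd Y x w| then 1 else 0) ≤
      2 * Real.exp (uA Y.C Y.s) * Real.exp (-(t ^ 2 / (4 * uA Y.C Y.s))) *
        Ex Y x N (fun _ _ => 1) := by
  have hx0 := H.x0
  have hC1 : (1 : ℝ) ≤ Y.C := by exact_mod_cast Y.hC
  have hC : (0 : ℝ) ≤ Y.C := Nat.cast_nonneg _
  have hs : (0 : ℝ) ≤ Y.s := Nat.cast_nonneg _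
  obtain ⟨A, hA⟩ : ∃ A : ℝ, A = uA Y.C Y.s := ⟨_, rfl⟩
  have hAC : Y.C ≤ A := by rw [hA]; exact uA_ge hC hs
  have hA0 : 0 < A := by linarith
  rw [← hA]
  obtain ⟨L, hLdef⟩ : ∃ L : ℝ, L = t / (2 * A) := ⟨_, rfl⟩
  have hL0 : 0 ≤ L := by rw [hLdef]; positivity
  have t1 := expmom2 H hL0 1 (Or.inl rfl)
  have t2 := expmom2 H hL0 (-1) (Or.inr rfl)
  rw [← hA] at t1 t2
  have t3 : Ex Y x N (fun m w => if t * Real.sqrt ((m : ℝ) + 1) ≤ |dd Y x w| then (1 : ℝ) else 0) ≤
      Real.exp (-(L * t)) * (Ex Y x N (fun m w => Real.exp (1 * (mu L m * dd Y x w))) +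
        Ex Y x N (fun m w => Real.exp (-1 * (mu L m * dd Y x w)))) := by
    rw [← Ex_add, ← Ex_mul]
    refine Ex_mono hx0 fun m w hw => ?_
    have p1 := Real.exp_pos (1 * (mu L m * dd Y x w))
    have p2 := Real.exp_pos (-1 * (mu L m * dd Y x w))
    have p3 := Real.exp_pos (-(L * t))
    split_ifs with hif
    · obtain ⟨r1, -⟩ := rho m 0
      have q1 := Real.sq_sqrt (show (0 : ℝ) ≤ (m : ℝ) + 1 by positivity)
      have d2 := dd_le H hw
      have hmu : mu L m = L / Real.sqrt ((m : ℝ) + 1) := by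
        unfold mu
        refine min_eq_left ?_
        rw [div_le_one (by linarith), hLdef, div_le_iff₀ (by positivity)]
        have h1 : t * Real.sqrt ((m : ℝ) + 1) ≤
            Y.C * Real.sqrt ((m : ℝ) + 1) * Real.sqrt ((m : ℝ) + 1) := by
          refine hif.trans (d2.trans (le_of_eq ?_))
          rw [mul_assoc, ← pow_two, q1]
        have h2 : t ≤ Y.C * Real.sqrt ((m : ℝ) + 1) :=
          le_of_mul_le_mul_right h1 (by linarith)
        have h3 : Y.C * Real.sqrt ((m : ℝ) + 1) ≤ Real.sqrt ((m : ℝ) + 1) * (2 * A) := by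
          nlinarith
        linarith
      have h2 : L * t ≤ |mu L m * dd Y x w| := by
        rw [hmu, abs_mul, abs_of_nonneg (by positivity), div_mul_eq_mul_div,
          le_div_iff₀ (by linarith), mul_assoc]
        exact mul_le_mul_of_nonneg_left hif hL0
      have h1 : Real.exp (L * t) ≤ Real.exp (1 * (mu L m * dd Y x w)) +
          Real.exp (-1 * (mu L m * dd Y x w)) := by
        rcases le_total 0 (mu L m * dd Y x w) with h | h
        · rw [abs_of_nonneg h] at h2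
          have : Real.exp (L * t) ≤ Real.exp (1 * (mu L m * dd Y x w)) := by
            rw [one_mul]
            exact Real.exp_le_exp.2 h2
          linarith
        · rw [abs_of_nonpos h] at h2
          have : Real.exp (L * t) ≤ Real.exp (-1 * (mu L m * dd Y x w)) := by
            rw [neg_one_mul]
            exact Real.exp_le_exp.2 h2
          linarith
      calc (1 : ℝ) = Real.exp (-(L * t)) * Real.exp (L * t) := by
            rw [← Real.exp_add, neg_add_cancel, Real.exp_zero]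
        _ ≤ _ := mul_le_mul_of_nonneg_left h1 p3.le
    · positivity
  have hE0 : 0 ≤ Ex Y x N (fun _ _ => 1) := Ex_nonneg hx0 fun _ _ _ => zero_le_one
  refine t3.trans ?_
  have t4 : Real.exp (-(L * t)) * (Ex Y x N (fun m w => Real.exp (1 * (mu L m * dd Y x w))) +
        Ex Y x N (fun m w => Real.exp (-1 * (mu L m * dd Y x w)))) ≤
      Real.exp (-(L * t)) * (2 * (Real.exp (A * (1 + L ^ 2)) * Ex Y x N (fun _ _ => 1))) :=
    mul_le_mul_of_nonneg_left (by linarith) (Real.exp_pos _).le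
  refine t4.trans (le_of_eq ?_)
  have e1 : Real.exp (-(L * t)) * (2 * (Real.exp (A * (1 + L ^ 2)) *
      Ex Y x N (fun _ _ => 1))) =
      2 * Real.exp (-(L * t) + A * (1 + L ^ 2)) * Ex Y x N (fun _ _ => 1) := by
    rw [Real.exp_add]
    ring
  have e2 : 2 * Real.exp A * Real.exp (-(t ^ 2 / (4 * A))) =
      2 * Real.exp (A + -(t ^ 2 / (4 * A))) := by
    rw [Real.exp_add]
    ring
  rw [e1, e2]
  congr 3
  rw [hLdef]
  field_simp
  ring

end Pool.Agent.K1H48.SO
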